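import Pool.Agent.Lib.MP_83608f_co.CN.ONE

/-!
# MP_83608f_co, part AV, module GRW (helper58): growth inside a finite set, for a relation on an arbitrary type

* `ball_loc`: `LIMA2_.ball_all` with the degree condition only at the vertices of the inner ball of radius `j - 1`;
* `growth`: the same for a relation `R` on any type `U`, a finite set `Q` and user defined shells `S i`;
* `exists_low`: a nonempty finite set `T` contains a vertex with at most `|T| / (m - 44)` out-neighbours in `T`.
-/

set_option autoImplicit false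

open Classical

noncomputable section

namespace Pool.Agent.Lib.MP_83608f_co.AV

open Pool.Agent.Lib.MP_83608f_co.CN
open Pool.Agent.Lib.MP_83608f_co.EM (Wk)
open LIMA2_

namespace GRW_

section fin

variable {V : Type} [Fintype V] {A : V → V → Prop} {m r : ℕ}

lemma ext_deg' (Q : Finset V) (x : V) (hx : x ∈ Q) (j p : ℕ) (hj : 1 ≤ j) (hp : 1 ≤ p)
    (hQ : ∀ u ∈ LAY_.cb (DCH_.ind A Q) x (j - 1), r ≤ (Q.filter fun v => A u v).card) :
    ∀ z ∈ (LAY_.cb (DCH_.ind A Q) x j).disjSum (Finset.univ : Finset (Fin p × Fin r)),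
      r ≤ (((LAY_.cb (DCH_.ind A Q) x j).disjSum (Finset.univ : Finset (Fin p × Fin r))).filter
        fun z' => ext A Q x j p r z z').card := by
  intro z hz
  -- a layer of new vertices
  have hlay : ∀ (t : Fin p), (∀ b : Fin r, ext A Q x j p r z (.inr (t, b))) →
      r ≤ (((LAY_.cb (DCH_.ind A Q) x j).disjSum (Finset.univ : Finset (Fin p × Fin r))).filter
        fun z' => ext A Q x j p r z z').card := by
    intro t ht
    have h1 : (Finset.univ : Finset (Fin r)).image (fun b => (.inr (t, b) : V ⊕ (Fin p × Fin r))) ⊆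
        (((LAY_.cb (DCH_.ind A Q) x j).disjSum (Finset.univ : Finset (Fin p × Fin r))).filter
        fun z' => ext A Q x j p r z z') := by
      intro y hy
      rw [Finset.mem_image] at hy
      obtain ⟨b, -, rfl⟩ := hy
      rw [Finset.mem_filter]
      exact ⟨by simp, ht b⟩
    have h2 := Finset.card_le_card h1
    rw [Finset.card_image_of_injective _ (fun b b' h => by simpa using h), Finset.card_univ,
      Fintype.card_fin] at h2
    exact h2
  -- old vertices
  have hold : ∀ N : Finset V, N ⊆ LAY_.cb (DCH_.ind A Q) x j → (∀ v ∈ N, ext A Q x j p r z (.inl v)) →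
      N.card ≤ (((LAY_.cb (DCH_.ind A Q) x j).disjSum (Finset.univ : Finset (Fin p × Fin r))).filter
        fun z' => ext A Q x j p r z z').card := by
    intro N hN hN2
    have h1 : N.image (fun v => (.inl v : V ⊕ (Fin p × Fin r))) ⊆
        (((LAY_.cb (DCH_.ind A Q) x j).disjSum (Finset.univ : Finset (Fin p × Fin r))).filter
        fun z' => ext A Q x j p r z z') := by
      intro y hy
      rw [Finset.mem_image] at hy
      obtain ⟨v, hv, rfl⟩ := hy
      rw [Finset.mem_filter]
      exact ⟨by simpa using hN hv, hN2 v hv⟩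
    have h2 := Finset.card_le_card h1
    rwa [Finset.card_image_of_injective _ Sum.inl_injective] at h2
  rcases z with u | s
  · have hu : u ∈ LAY_.cb (DCH_.ind A Q) x j := by simpa using hz
    by_cases h : u ∈ LAY_.cb (DCH_.ind A Q) x (j - 1)
    · have h1 : ∀ v ∈ Q.filter (fun v => A u v), v ∈ LAY_.cb (DCH_.ind A Q) x j := by
        intro v hv
        rw [Finset.mem_filter] at hv
        have h2 := DCH_.cb_next Q x hx (j - 1) u h v hv.1 hv.2
        rwa [show j - 1 + 1 = j by omega] at h2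
      refine (hQ u h).trans (hold _ (fun v hv => h1 v hv) fun v hv => ?_)
      exact ⟨hu, h1 v hv, (Finset.mem_filter.1 hv).2⟩
    · exact hlay ⟨0, by omega⟩ fun b => ⟨hu, h, rfl⟩
  · by_cases h : (s.1 : ℕ) + 1 = p
    · have h1 : ∀ v ∈ Q.filter (fun v => A x v), v ∈ LAY_.cb (DCH_.ind A Q) x j := by
        intro v hv
        rw [Finset.mem_filter] at hv
        exact cb_mono _ x hj (DCH_.cb_next Q x hx 0 x (LAY_.mem_cb_self x 0) v hv.1 hv.2)
      refine (hQ x (LAY_.mem_cb_self x _)).trans (hold _ (fun v hv => h1 v hv) fun v hv => ?_)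
      rw [Finset.mem_filter] at hv
      exact ⟨h, hv.1, hv.2⟩
    · have h2 := s.1.2
      exact hlay ⟨s.1 + 1, by omega⟩ fun b => rfl

/-- **growth of the inner ball of radius `j` if all vertices of the inner ball of radius `j - 1` have at least `r`
out-neighbours in `Q`** -/
theorem ball_loc (hcl : NoCl A m) (Q : Finset V) (x : V) (hx : x ∈ Q) (j : ℕ) (hj : j ≤ m)
    (hQ : ∀ u ∈ LAY_.cb (DCH_.ind A Q) x (j - 1), r ≤ (Q.filter fun v => A u v).card) :
    j * r ≤ (LAY_.cb (DCH_.ind A Q) x j).card + 45 * r := by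
  rcases Nat.eq_zero_or_pos r with hr0 | hr
  · rw [hr0]
    omega
  rcases Nat.eq_zero_or_pos j with h0 | h0
  · rw [h0]
    omega
  have hr' : (1 : ℝ) ≤ r := by exact_mod_cast hr
  obtain ⟨p, hp⟩ : ∃ p, p = m + 1 - j := ⟨_, rfl⟩
  have h1 := ch_add (V := V ⊕ (Fin p × Fin r)) (A := ext A Q x j p r) (m := m) hr
    (ext_nocl hcl Q x hx j p (by omega))
    ((LAY_.cb (DCH_.ind A Q) x j).disjSum (Finset.univ : Finset (Fin p × Fin r)))
    ⟨.inl x, by simpa using LAY_.mem_cb_self x j⟩ (ext_deg' Q x hx j p h0 (by omega) hQ)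
  rw [Finset.card_disjSum, Finset.card_univ, Fintype.card_prod, Fintype.card_fin, Fintype.card_fin] at h1
  push_cast at h1
  have h2 : (p : ℝ) = m + 1 - j := by
    have : p + j = m + 1 := by omega
    have h3 : (p : ℝ) + j = m + 1 := by exact_mod_cast this
    linarith
  rw [h2] at h1
  have h3 : (j : ℝ) * r ≤ (LAY_.cb (DCH_.ind A Q) x j).card + 45 * r := by linarith
  exact_mod_cast h3

end fin

variable {U : Type} {R : U → U → Prop} {m r : ℕ}

/-- walks in the subtype of a finite set -/
lemma wk_sub (Q : Finset U) : ∀ (l : ℕ) (x y : {u // u ∈ Q}),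
    Wk (⟨fun a b => R a.1 b.1⟩ : Digraph {u // u ∈ Q}) l x y → Wk (⟨R⟩ : Digraph U) l x.1 y.1 := by
  intro l
  induction l with
  | zero =>
    intro x y h
    have : x = y := h
    rw [this]
    exact rfl
  | succ l ih =>
    intro x y h
    obtain ⟨z, hz, h2⟩ := h
    exact ⟨z.1, hz, ih z y h2⟩

lemma nocl_sub (hcl : NoCl R m) (Q : Finset U) : NoCl (fun a b : {u // u ∈ Q} => R a.1 b.1) m := by
  intro j h1 h2 x h
  exact hcl j h1 h2 x.1 (wk_sub Q j x x h)

lemma filter_sub (Q : Finset U) (y : {u // u ∈ Q}) :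
    ((Finset.univ : Finset {u // u ∈ Q}).filter fun v => R y.1 v.1).card = (Q.filter fun v => R y.1 v).card := by
  have h : (Q.filter fun v => R y.1 v) =
      ((Finset.univ : Finset {u // u ∈ Q}).filter fun v => R y.1 v.1).map ⟨Subtype.val, Subtype.val_injective⟩ := by
    ext v
    simp only [Finset.mem_filter, Finset.mem_map, Finset.mem_univ, true_and, Function.Embedding.coeFn_mk,
      Subtype.exists, exists_and_left, exists_prop, exists_eq_right_right]
    tauto
  rw [h, Finset.card_map]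

/-- **growth** with user defined shells `S i` (vertices reached after `i` steps) -/
theorem growth (hcl : NoCl R m) (Q : Finset U) (x : U) (hx : x ∈ Q) (j : ℕ) (hj : j ≤ m) (S : ℕ → U → Prop)
    (h0 : S 0 x) (hdeg : ∀ i < j, ∀ y ∈ Q, S i y → r ≤ (Q.filter fun z => R y z).card)
    (hstep : ∀ i < j, ∀ y ∈ Q, S i y → ∀ z ∈ Q, R y z → S (i + 1) z)
    (B : Finset U) (hB : ∀ i ≤ j, ∀ y ∈ Q, S i y → y ∈ B) : j * r ≤ B.card + 45 * r := by
  rcases Nat.eq_zero_or_pos j with hj0 | hj0
  · rw [hj0]
    omega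
  have hS : ∀ i ≤ j, ∀ y ∈ LAY_.cb (DCH_.ind (fun a b : {u // u ∈ Q} => R a.1 b.1) Finset.univ) ⟨x, hx⟩ i,
      ∃ i' ≤ i, S i' y.1 := by
    intro i
    induction i with
    | zero =>
      intro _ y hy
      rw [LAY_.cb, Finset.mem_singleton] at hy
      exact ⟨0, le_refl _, by rw [hy]; exact h0⟩
    | succ i ih =>
      intro hi y hy
      rw [LAY_.cb, FIN_.mem_outN] at hy
      rcases hy with h | ⟨u, hu, h⟩
      · obtain ⟨i', h1, h2⟩ := ih (by omega) y h
        exact ⟨i', by omega, h2⟩
      · obtain ⟨i', h1, h2⟩ := ih (by omega) u hu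
        exact ⟨i' + 1, by omega, hstep i' (by omega) u.1 u.2 h2 y.1 y.2 h.2.2⟩
  have h1 := ball_loc (r := r) (nocl_sub hcl Q) Finset.univ ⟨x, hx⟩ (Finset.mem_univ _) j hj (by
    intro u hu
    rw [filter_sub]
    obtain ⟨i', h2, h3⟩ := hS (j - 1) (by omega) u hu
    exact hdeg i' (by omega) u.1 u.2 h3)
  refine h1.trans (Nat.add_le_add_right ?_ _)
  rw [← Finset.card_map ⟨Subtype.val, Subtype.val_injective⟩]
  refine Finset.card_le_card fun y hy => ?_
  rw [Finset.mem_map] at hy
  obtain ⟨z, hz, rfl⟩ := hy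
  obtain ⟨i', h2, h3⟩ := hS j (le_refl _) z hz
  exact hB i' h2 z.1 z.2 h3

/-- **a vertex of small inner out-degree** -/
theorem exists_low (hcl : NoCl R m) (T : Finset U) (hT : T.Nonempty) :
    ∃ x ∈ T, (m - 44) * (T.filter fun z => R x z).card ≤ T.card := by
  obtain ⟨x, hx, hmin⟩ := Finset.exists_min_image T (fun x => (T.filter fun z => R x z).card) hT
  refine ⟨x, hx, ?_⟩
  rcases Nat.eq_zero_or_pos (T.filter fun z => R x z).card with h0 | h0
  · rw [h0]
    omega
  have h1 := ch_add (V := {u // u ∈ T}) (A := fun a b => R a.1 b.1) (m := m) h0 (nocl_sub hcl T) Finset.univ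
    ⟨⟨x, hx⟩, Finset.mem_univ _⟩ (fun u _ => by
      rw [filter_sub]
      exact hmin u.1 u.2)
  rw [Finset.card_univ, Fintype.card_coe] at h1
  rcases Nat.lt_or_ge m 44 with h2 | h2
  · rw [show m - 44 = 0 by omega]
    omega
  have h3 : (((m - 44 : ℕ) : ℝ)) = (m : ℝ) - 44 := by
    push_cast [Nat.cast_sub h2]
    ring
  rw [← h3] at h1
  exact_mod_cast h1

end GRW_

end Pool.Agent.Lib.MP_83608f_co.AV
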