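import Mathlib

/-!
# MP_83608f_co, part AV: macro positions in a quasi-metric (helper3)

`d` is a quasi-metric on a finite set, all out-balls of radius `t ≤ m` have `(t ± c) κ` elements, all in-balls at least
`(t - c) κ`, there are at most `m κ` points and `d u v + d v u ≥ m + 1` for `u ≠ v`.  Then, for `m` large, there are
positions `P` on a circle of length `m` which describe all distances up to an error `m / h`.
-/

set_option autoImplicit false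

open Classical Finset

noncomputable section

namespace Pool.Agent.Lib.MP_83608f_co.AV.QMac

variable {V : Type} [Fintype V]

/-- out-ball -/
def Bo (d : V → V → ℕ) (v : V) (t : ℕ) : Finset V := univ.filter fun u => d v u ≤ t

/-- in-ball -/
def Bi (d : V → V → ℕ) (v : V) (t : ℕ) : Finset V := univ.filter fun u => d u v ≤ t

theorem mem_Bo {d : V → V → ℕ} {v u : V} {t : ℕ} : u ∈ Bo d v t ↔ d v u ≤ t := by simp [Bo]

theorem mem_Bi {d : V → V → ℕ} {v u : V} {t : ℕ} : u ∈ Bi d v t ↔ d u v ≤ t := by simp [Bi]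

/-- the hypotheses -/
structure QM (m : ℕ) (κ : ℝ) (c : ℕ) (d : V → V → ℕ) : Prop where
  self : ∀ v, d v v = 0
  tri : ∀ u v w, d u w ≤ d u v + d v w
  girth : ∀ u v, u ≠ v → m + 1 ≤ d u v + d v u
  out_le : ∀ v t, t ≤ m → ((Bo d v t).card : ℝ) ≤ ((t : ℝ) + c) * κ
  out_ge : ∀ v t, t ≤ m → ((t : ℝ) - c) * κ ≤ (Bo d v t).card
  in_ge : ∀ v t, t ≤ m → ((t : ℝ) - c) * κ ≤ (Bi d v t).card
  n_le : (Fintype.card V : ℝ) ≤ m * κ
  hκ : 1 / 2 ≤ κ
  hm : 2 * c + 1 ≤ m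

variable {m c : ℕ} {κ : ℝ} {d : V → V → ℕ}

theorem QM.κpos (Q : QM m κ c d) : 0 < κ := lt_of_lt_of_le (by norm_num) Q.hκ

theorem QM.diam (Q : QM m κ c d) (u w : V) : d u w ≤ m + (2 * c + 1) := by
  by_contra h
  push Not at h
  have hdis : Disjoint (Bo d u m) (Bi d w (2 * c + 1)) := by
    rw [disjoint_left]
    intro x hx hy
    rw [mem_Bo] at hx
    rw [mem_Bi] at hy
    have := Q.tri u x w
    omega
  have h1 : ((Bo d u m).card : ℝ) + (Bi d w (2 * c + 1)).card ≤ Fintype.card V := by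
    rw [← Nat.cast_add, ← card_union_of_disjoint hdis]
    exact_mod_cast card_le_univ _
  have h2 := Q.out_ge u m le_rfl
  have h3 := Q.in_ge w (2 * c + 1) Q.hm
  have h4 := Q.n_le
  have h5 := Q.hκ
  push_cast at h3
  nlinarith

theorem sum_ind_lt (a T : ℕ) (h : a ≤ T) : ∑ t ∈ range T, (if t < a then (1 : ℝ) else 0) = a := by
  rw [← sum_filter, sum_const, nsmul_eq_mul, mul_one]
  congr 1
  have : (range T).filter (fun t => t < a) = range a := by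
    ext t
    simp only [mem_filter, mem_range]
    omega
  rw [this, card_range]

theorem sum_ind_le (a s : ℕ) (h : a ≤ s) : ∑ t ∈ range s, (if a ≤ t then (1 : ℝ) else 0) = (s : ℝ) - a := by
  rw [← sum_filter, sum_const, nsmul_eq_mul, mul_one]
  have : (range s).filter (fun t => a ≤ t) = Ico a s := by
    ext t
    simp only [mem_filter, mem_range, mem_Ico]
    omega
  rw [this, Nat.card_Ico, Nat.cast_sub h]

theorem card_compl_Bo (d : V → V → ℕ) (v : V) (t : ℕ) :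
    (∑ u, if t < d v u then (1 : ℝ) else 0) = (Fintype.card V : ℝ) - (Bo d v t).card := by
  rw [← sum_filter, sum_const, nsmul_eq_mul, mul_one]
  have h := card_filter_add_card_filter_not (s := (univ : Finset V)) (fun u => d v u ≤ t)
  have h2 : (univ.filter fun u => t < d v u) = univ.filter fun u => ¬ d v u ≤ t := by
    ext u
    simp
  rw [h2, ← card_univ, ← h]
  push_cast
  rw [Bo]
  ring

theorem sum_dist (d : V → V → ℕ) (v : V) (T : ℕ) (hT : ∀ u, d v u ≤ T) :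
    ∑ u, (d v u : ℝ) = ∑ t ∈ range T, ((Fintype.card V : ℝ) - (Bo d v t).card) := by
  have h1 : ∑ u, (d v u : ℝ) = ∑ u, ∑ t ∈ range T, (if t < d v u then (1 : ℝ) else 0) :=
    sum_congr rfl fun u _ => (sum_ind_lt _ _ (hT u)).symm
  rw [h1, sum_comm]
  exact sum_congr rfl fun t _ => card_compl_Bo d v t

theorem Bo_mono (d : V → V → ℕ) (v : V) {s t : ℕ} (h : s ≤ t) : Bo d v s ⊆ Bo d v t := by
  intro x hx
  rw [mem_Bo] at hx ⊢
  omega

theorem card_Bo_le (d : V → V → ℕ) (v : V) (t : ℕ) : ((Bo d v t).card : ℝ) ≤ Fintype.card V := by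
  exact_mod_cast card_le_univ _

theorem sum_range_id_real (n : ℕ) : ∑ t ∈ range n, (t : ℝ) = n * (n - 1) / 2 := by
  induction n with
  | zero => simp
  | succ n ih =>
    rw [sum_range_succ, ih]
    push_cast
    ring

/-- the sum of the distances from a point -/
theorem QM.sum_le (Q : QM m κ c d) (v : V) :
    ∑ u, (d v u : ℝ) ≤ κ * ((m : ℝ) ^ 2 / 2 + (2 * c + 1) * m) := by
  have hκ := Q.κpos
  have hm : (2 : ℝ) * c + 1 ≤ m := by exact_mod_cast Q.hm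
  have hc : (0 : ℝ) ≤ c := Nat.cast_nonneg c
  rw [sum_dist d v (m + (2 * c + 1)) (Q.diam v), sum_range_add]
  have h1 : ∑ t ∈ range m, ((Fintype.card V : ℝ) - (Bo d v t).card) ≤ ∑ t ∈ range m, ((m : ℝ) - t + c) * κ := by
    refine sum_le_sum fun t ht => ?_
    have := Q.out_ge v t (mem_range.1 ht).le
    have := Q.n_le
    linarith
  have h2 : ∑ t ∈ range (2 * c + 1), ((Fintype.card V : ℝ) - (Bo d v (m + t)).card) ≤
      ∑ t ∈ range (2 * c + 1), (c : ℝ) * κ := by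
    refine sum_le_sum fun t _ => ?_
    have h3 := Q.out_ge v m le_rfl
    have h4 := Q.n_le
    have h5 : ((Bo d v m).card : ℝ) ≤ (Bo d v (m + t)).card := by
      exact_mod_cast card_le_card (Bo_mono d v (by omega))
    linarith
  have h3 : ∑ t ∈ range m, ((m : ℝ) - t + c) * κ = (m * (m + 1) / 2 + c * m) * κ := by
    rw [← sum_mul]
    congr 1
    rw [sum_add_distrib, sum_sub_distrib, sum_range_id_real, sum_const, sum_const, card_range, nsmul_eq_mul,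
      nsmul_eq_mul]
    ring
  rw [sum_const, card_range, nsmul_eq_mul] at h2
  push_cast at h2
  rw [h3] at h1
  have h4 : (2 * (c : ℝ) + 1) * c ≤ m * c := mul_le_mul_of_nonneg_right hm hc
  have h5 : (2 * (c : ℝ) + 1) * (c * κ) ≤ m * c * κ := by nlinarith
  have h6 : (0 : ℝ) ≤ m := Nat.cast_nonneg m
  nlinarith [mul_nonneg hκ.le h6]

/-- the sum of the positive parts above `s` -/
theorem sum_above (d : V → V → ℕ) (v : V) (s T : ℕ) (hT : ∀ u, d v u ≤ T) (hs : s ≤ T) :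
    ∑ u ∈ (Bo d v s)ᶜ, ((d v u : ℝ) - s) = ∑ t ∈ Ico s T, ((Fintype.card V : ℝ) - (Bo d v t).card) := by
  have h1 : ∀ u ∈ (Bo d v s)ᶜ, ((d v u : ℝ) - s) = ∑ t ∈ Ico s T, (if t < d v u then (1 : ℝ) else 0) := by
    intro u hu
    rw [mem_compl, mem_Bo, not_le] at hu
    have h2 := sum_ind_lt (d v u) T (hT u)
    have h3 : ∑ t ∈ range s, (if t < d v u then (1 : ℝ) else 0) = s := by
      rw [sum_congr rfl fun t ht => if_pos (lt_trans (mem_range.1 ht) hu)]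
      simp
    rw [range_eq_Ico, ← sum_Ico_consecutive _ (Nat.zero_le s) hs, ← range_eq_Ico, h3] at h2
    linarith
  rw [sum_congr rfl h1, sum_comm]
  refine sum_congr rfl fun t ht => ?_
  rw [← card_compl_Bo d v t]
  symm
  refine (sum_subset (subset_univ _) fun u _ hu => ?_).symm
  rw [mem_compl, not_not, mem_Bo] at hu
  rw [mem_Ico] at ht
  rw [if_neg (by omega)]

/-- the sum of the depths below `s` -/
theorem sum_below (d : V → V → ℕ) (v : V) (s : ℕ) :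
    ∑ u ∈ Bo d v s, ((s : ℝ) - d v u) = ∑ t ∈ range s, ((Bo d v t).card : ℝ) := by
  have h1 : ∀ u ∈ Bo d v s, ((s : ℝ) - d v u) = ∑ t ∈ range s, (if d v u ≤ t then (1 : ℝ) else 0) := by
    intro u hu
    rw [mem_Bo] at hu
    exact (sum_ind_le _ _ hu).symm
  rw [sum_congr rfl h1, sum_comm]
  refine sum_congr rfl fun t ht => ?_
  rw [← sum_filter, sum_const, nsmul_eq_mul, mul_one]
  congr 2
  ext u
  rw [mem_range] at ht
  simp only [mem_filter, mem_Bo]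
  omega

theorem QM.n_ge (Q : QM m κ c d) (v : V) : ((m : ℝ) - c) * κ ≤ Fintype.card V :=
  (Q.out_ge v m le_rfl).trans (card_Bo_le d v m)

/-- the pairs inside a set -/
theorem QM.inside (Q : QM m κ c d) (S : Finset V) :
    ((m : ℝ) + 1) * ((S.card : ℝ) ^ 2 - S.card) ≤ 2 * ∑ v ∈ S, ∑ u ∈ S, (d v u : ℝ) := by
  have h1 : 2 * ∑ v ∈ S, ∑ u ∈ S, (d v u : ℝ) = ∑ v ∈ S, ∑ u ∈ S, ((d v u : ℝ) + d u v) := by
    rw [two_mul]
    conv_lhs => rw [show (∑ v ∈ S, ∑ u ∈ S, (d v u : ℝ)) + ∑ v ∈ S, ∑ u ∈ S, (d v u : ℝ) =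
      (∑ v ∈ S, ∑ u ∈ S, (d v u : ℝ)) + ∑ u ∈ S, ∑ v ∈ S, (d v u : ℝ) by rw [sum_comm (s := S) (t := S)]]
    rw [← sum_add_distrib]
    exact sum_congr rfl fun v _ => by rw [← sum_add_distrib]
  rw [h1]
  have h2 : ∀ v ∈ S, ((m : ℝ) + 1) * (S.card - 1) ≤ ∑ u ∈ S, ((d v u : ℝ) + d u v) := by
    intro v hv
    rw [← add_sum_erase S _ hv]
    have h3 : ∑ u ∈ S.erase v, ((m : ℝ) + 1) ≤ ∑ u ∈ S.erase v, ((d v u : ℝ) + d u v) := by
      refine sum_le_sum fun u hu => ?_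
      have := Q.girth v u (ne_of_mem_erase hu).symm
      exact_mod_cast this
    rw [sum_const, card_erase_of_mem hv, nsmul_eq_mul,
      Nat.cast_sub (show 1 ≤ S.card from card_pos.2 ⟨v, hv⟩)] at h3
    have h4 : (0 : ℝ) ≤ (d v v : ℝ) + d v v := by positivity
    push_cast at h3
    linarith
  calc ((m : ℝ) + 1) * ((S.card : ℝ) ^ 2 - S.card) = ∑ v ∈ S, ((m : ℝ) + 1) * (S.card - 1) := by
        rw [sum_const, nsmul_eq_mul]
        ring
    _ ≤ _ := sum_le_sum h2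

/-- the purely numerical part -/
theorem num_def {m c s x y h : ℝ} (hc : 0 ≤ c) (hs : 0 ≤ s) (hsm : s ≤ m) (hm : 1 ≤ m) (hx : 0 ≤ x) (hxy : x ≤ y)
    (hy : y ≤ m) (hy' : m - c ≤ y) (h0 : 0 ≤ h) (h2 : h ≤ 2) :
    x * (m ^ 2 / 2 + (2 * c + 1) * m) - (m + 1) / 2 * (x ^ 2 - x * h) -
      x * ((m - s) * (m - s + 1) / 2 - 2 * c * (m - s)) - (y - x) * (s * (s - 1) / 2 - c * s) ≤
      (6 * c + 4) * m ^ 2 := by
  have e1 : (m - c - y) * (s ^ 2 / 2) ≤ 0 := by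
    have : m - c - y ≤ 0 := by linarith
    exact mul_nonpos_of_nonpos_of_nonneg this (by positivity)
  have e2 : x * ((2 * c + 1) * m) ≤ m * ((2 * c + 1) * m) :=
    mul_le_mul_of_nonneg_right (hxy.trans hy) (by positivity)
  have e3 : (m + 1) / 2 * (x * h) ≤ 2 * m ^ 2 := by
    have h3 : x * h ≤ m * 2 := mul_le_mul (hxy.trans hy) h2 h0 (by linarith)
    have h4 : (m + 1) / 2 * (x * h) ≤ (m + 1) / 2 * (m * 2) := mul_le_mul_of_nonneg_left h3 (by linarith)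
    nlinarith
  have e4 : 0 ≤ (m + 1) / 2 * x ^ 2 - m / 2 * x ^ 2 := by nlinarith [sq_nonneg x]
  have e5 : 0 ≤ x * ((m - s) / 2) := mul_nonneg hx (by linarith)
  have e6 : x * (2 * c * (m - s)) ≤ m * (2 * c * m) := by
    refine mul_le_mul (hxy.trans hy) ?_ ?_ (by linarith)
    · nlinarith
    · exact mul_nonneg (by linarith) (by linarith)
  have e7 : (y - x) * (s / 2 + c * s) ≤ m * (m / 2 + c * m) := by
    refine mul_le_mul (by linarith) ?_ (by positivity) (by linarith)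
    nlinarith
  have e8 : c * s ^ 2 / 2 ≤ c * m ^ 2 / 2 := by
    have : s ^ 2 ≤ m ^ 2 := by nlinarith
    nlinarith
  have e9 : 0 ≤ m / 2 * (x - s) ^ 2 := by positivity
  nlinarith

/-- the defects of the pairs across a ball of radius `s ≤ m` -/
theorem QM.def_le (Q : QM m κ c d) (v₀ : V) (s : ℕ) (hs : s ≤ m) :
    ∑ v ∈ Bo d v₀ s, ∑ u ∈ (Bo d v₀ s)ᶜ, ((d v u : ℝ) - ((d v₀ u : ℝ) - d v₀ v)) ≤
      κ ^ 2 * ((6 * c + 4) * (m : ℝ) ^ 2) := by
  have hκ := Q.κpos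
  obtain ⟨S, hS⟩ : ∃ S, S = Bo d v₀ s := ⟨_, rfl⟩
  obtain ⟨n, hn⟩ : ∃ n : ℝ, n = Fintype.card V := ⟨_, rfl⟩
  have hn1 : n ≤ m * κ := hn ▸ Q.n_le
  have hn2 : ((m : ℝ) - c) * κ ≤ n := hn ▸ Q.n_ge v₀
  have hNn : (S.card : ℝ) ≤ n := by rw [hn]; exact_mod_cast card_le_univ _
  have hcc : (Sᶜ.card : ℝ) = n - S.card := by
    rw [card_compl, Nat.cast_sub (card_le_univ _), hn]
  have t1 : ∑ v ∈ S, ∑ u, (d v u : ℝ) ≤ S.card * (κ * ((m : ℝ) ^ 2 / 2 + (2 * c + 1) * m)) := by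
    rw [← nsmul_eq_mul]
    exact sum_le_card_nsmul _ _ _ fun v _ => Q.sum_le v
  have t2 : ∑ v ∈ S, ∑ u, (d v u : ℝ) = ∑ v ∈ S, ∑ u ∈ S, (d v u : ℝ) + ∑ v ∈ S, ∑ u ∈ Sᶜ, (d v u : ℝ) := by
    rw [← sum_add_distrib]
    exact sum_congr rfl fun v _ => (sum_add_sum_compl S _).symm
  have t3 := Q.inside S
  have t4 : ∑ v ∈ S, ∑ u ∈ Sᶜ, ((d v₀ u : ℝ) - d v₀ v) =
      S.card * ∑ u ∈ Sᶜ, ((d v₀ u : ℝ) - s) + (n - S.card) * ∑ v ∈ S, ((s : ℝ) - d v₀ v) := by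
    rw [← hcc, ← nsmul_eq_mul, ← nsmul_eq_mul, ← sum_const, ← sum_const, sum_comm (s := Sᶜ) (t := S),
      ← sum_add_distrib]
    refine sum_congr rfl fun v _ => ?_
    rw [← sum_add_distrib]
    exact sum_congr rfl fun u _ => by ring
  have t5 : κ * (((m : ℝ) - s) * (m - s + 1) / 2 - 2 * c * (m - s)) ≤ ∑ u ∈ Sᶜ, ((d v₀ u : ℝ) - s) := by
    rw [hS, sum_above d v₀ s (m + (2 * c + 1)) (Q.diam v₀) (by omega)]
    have h1 : ∑ t ∈ Ico s m, (((m : ℝ) - t - 2 * c) * κ) ≤ ∑ t ∈ Ico s (m + (2 * c + 1)),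
        ((Fintype.card V : ℝ) - (Bo d v₀ t).card) := by
      refine (sum_le_sum fun t ht => ?_).trans (sum_le_sum_of_subset_of_nonneg
        (Ico_subset_Ico_right (by omega)) fun t _ _ => sub_nonneg.2 (card_Bo_le d v₀ t))
      have h2 := Q.out_le v₀ t (mem_Ico.1 ht).2.le
      have h3 := Q.n_ge v₀
      linarith
    refine le_trans (le_of_eq ?_) h1
    rw [← sum_mul, sum_sub_distrib, sum_sub_distrib, sum_const, sum_const, Nat.card_Ico, nsmul_eq_mul, nsmul_eq_mul,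
      Nat.cast_sub hs]
    have h2 : ∑ t ∈ Ico s m, (t : ℝ) = m * (m - 1) / 2 - s * (s - 1) / 2 := by
      rw [sum_Ico_eq_sub _ hs, sum_range_id_real, sum_range_id_real]
    rw [h2]
    ring
  have t6 : κ * ((s : ℝ) * (s - 1) / 2 - c * s) ≤ ∑ v ∈ S, ((s : ℝ) - d v₀ v) := by
    rw [hS, sum_below d v₀ s]
    refine le_trans (le_of_eq ?_) (sum_le_sum fun t ht => Q.out_ge v₀ t (by rw [mem_range] at ht; omega))
    rw [← sum_mul, sum_sub_distrib, sum_range_id_real, sum_const, card_range, nsmul_eq_mul]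
    ring
  have t7 : ∑ v ∈ S, ∑ u ∈ Sᶜ, ((d v u : ℝ) - ((d v₀ u : ℝ) - d v₀ v)) =
      ∑ v ∈ S, ∑ u ∈ Sᶜ, (d v u : ℝ) - ∑ v ∈ S, ∑ u ∈ Sᶜ, ((d v₀ u : ℝ) - d v₀ v) := by
    rw [← sum_sub_distrib]
    exact sum_congr rfl fun v _ => sum_sub_distrib _ _
  rw [← hS, t7, t4]
  obtain ⟨x, hx⟩ : ∃ x : ℝ, x = S.card / κ := ⟨_, rfl⟩
  obtain ⟨y, hy⟩ : ∃ y : ℝ, y = n / κ := ⟨_, rfl⟩
  have hx' : (S.card : ℝ) = κ * x := by rw [hx, mul_comm, div_mul_cancel₀ _ hκ.ne']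
  have hy' : n = κ * y := by rw [hy, mul_comm, div_mul_cancel₀ _ hκ.ne']
  have hx0 : 0 ≤ x := by rw [hx]; exact div_nonneg (Nat.cast_nonneg _) hκ.le
  have hxy : x ≤ y := by
    rw [hx, hy]
    exact div_le_div_of_nonneg_right hNn hκ.le
  have hym : y ≤ m := by
    rw [hy, div_le_iff₀ hκ]
    exact hn1
  have hmy : (m : ℝ) - c ≤ y := by
    rw [hy, le_div_iff₀ hκ]
    exact hn2
  have hm1 : (1 : ℝ) ≤ m := by
    have := Q.hm
    exact_mod_cast (by omega : 1 ≤ m)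
  have hh : 1 / κ ≤ 2 := by
    rw [div_le_iff₀ hκ]
    linarith [Q.hκ]
  have key := num_def (m := m) (c := c) (s := s) (x := x) (y := y) (h := 1 / κ) (Nat.cast_nonneg c) (Nat.cast_nonneg s)
    (by exact_mod_cast hs) hm1 hx0 hxy hym hmy (by positivity) hh
  have key2 := mul_le_mul_of_nonneg_left key (sq_nonneg κ)
  refine le_trans ?_ key2
  have e1 : (κ : ℝ) ^ 2 * (x * (1 / κ)) = κ * x := by field_simp
  have g1 := mul_le_mul_of_nonneg_left t5 (Nat.cast_nonneg (α := ℝ) S.card)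
  have g2 := mul_le_mul_of_nonneg_left t6 (sub_nonneg.2 hNn)
  rw [hx'] at t1 t3 g1 ⊢
  rw [hx', hy'] at g2
  rw [hy'] 
  have g3 : ∑ v ∈ S, ∑ u ∈ Sᶜ, (d v u : ℝ) ≤ κ * x * (κ * ((m : ℝ) ^ 2 / 2 + (2 * c + 1) * m)) -
      ((m : ℝ) + 1) * ((κ * x) ^ 2 - κ * x) / 2 := by linarith
  have e2 : κ ^ 2 * (x * ((m : ℝ) ^ 2 / 2 + (2 * c + 1) * m) - (m + 1) / 2 * (x ^ 2 - x * (1 / κ)) -
      x * ((m - s) * (m - s + 1) / 2 - 2 * c * (m - s)) - (y - x) * (s * (s - 1) / 2 - c * s)) =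
      κ * x * (κ * ((m : ℝ) ^ 2 / 2 + (2 * c + 1) * m)) - ((m : ℝ) + 1) * ((κ * x) ^ 2 - κ * x) / 2 -
      (κ * x) * (κ * (((m : ℝ) - s) * (m - s + 1) / 2 - 2 * c * (m - s))) -
      (κ * y - κ * x) * (κ * ((s : ℝ) * (s - 1) / 2 - c * s)) := by
    have : κ ^ 2 * (x * (1 / κ)) = κ * x := e1
    linear_combination (m + 1) / 2 * this
  rw [e2]
  linarith

/-- the defects of the pairs across any ball -/
theorem QM.def_le' (Q : QM m κ c d) (v₀ : V) (s : ℕ) :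
    ∑ v ∈ Bo d v₀ s, ∑ u ∈ (Bo d v₀ s)ᶜ, ((d v u : ℝ) - ((d v₀ u : ℝ) - d v₀ v)) ≤
      κ ^ 2 * ((6 * c + 4) * (m : ℝ) ^ 2) := by
  rcases le_or_gt s m with hs | hs
  · exact Q.def_le v₀ s hs
  have hκ := Q.κpos
  have hc : (0 : ℝ) ≤ c := Nat.cast_nonneg c
  have hm0 : (0 : ℝ) ≤ m := Nat.cast_nonneg m
  have h1 : ∀ v ∈ Bo d v₀ s, ∑ u ∈ (Bo d v₀ s)ᶜ, ((d v u : ℝ) - ((d v₀ u : ℝ) - d v₀ v)) ≤ c * κ * (2 * m) := by
    intro v hv
    rw [mem_Bo] at hv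
    have h2 : ∑ u ∈ (Bo d v₀ s)ᶜ, ((d v u : ℝ) - ((d v₀ u : ℝ) - d v₀ v)) ≤
        (Bo d v₀ s)ᶜ.card • ((2 : ℝ) * m) := by
      refine sum_le_card_nsmul _ _ _ fun u hu => ?_
      rw [mem_compl, mem_Bo, not_le] at hu
      have h3 := Q.diam v u
      have h4 := Q.hm
      have h5 : (d v u : ℝ) ≤ 2 * m := by exact_mod_cast (by omega : d v u ≤ 2 * m)
      have h6 : (d v₀ v : ℝ) ≤ d v₀ u := by exact_mod_cast (by omega : d v₀ v ≤ d v₀ u)
      linarith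
    rw [nsmul_eq_mul] at h2
    refine h2.trans (mul_le_mul_of_nonneg_right ?_ (by positivity))
    rw [card_compl, Nat.cast_sub (card_le_univ _)]
    have h3 := Q.out_ge v₀ m le_rfl
    have h4 : ((Bo d v₀ m).card : ℝ) ≤ (Bo d v₀ s).card := by
      exact_mod_cast card_le_card (Bo_mono d v₀ hs.le)
    have h5 := Q.n_le
    linarith
  have h2 := sum_le_card_nsmul _ _ _ h1
  rw [nsmul_eq_mul] at h2
  have h3 : ((Bo d v₀ s).card : ℝ) ≤ m * κ := (card_Bo_le d v₀ s).trans Q.n_le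
  have h4 : ((Bo d v₀ s).card : ℝ) * (c * κ * (2 * m)) ≤ m * κ * (c * κ * (2 * m)) :=
    mul_le_mul_of_nonneg_right h3 (by positivity)
  refine (h2.trans h4).trans ?_
  have h5 : (m : ℝ) * κ * (c * κ * (2 * m)) = κ ^ 2 * (2 * c * (m : ℝ) ^ 2) := by ring
  rw [h5]
  refine mul_le_mul_of_nonneg_left ?_ (sq_nonneg κ)
  have : (0 : ℝ) ≤ (m : ℝ) ^ 2 := sq_nonneg _
  nlinarith

/-- pairs whose distance is not the difference of their distances from `v₀` -/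
def bad1 (d : V → V → ℕ) (v₀ : V) (Y : ℕ) : Finset (V × V) :=
  univ.filter fun z => d v₀ z.1 + Y ≤ d v₀ z.2 ∧ d v₀ z.2 + Y < d v₀ z.1 + d z.1 z.2

/-- pairs whose sum of distances is too large -/
def bad2 (d : V → V → ℕ) (m Y : ℕ) : Finset (V × V) :=
  univ.filter fun z => m + Y < d z.1 z.2 + d z.2 z.1

theorem QM.card_bad1 (Q : QM m κ c d) (v₀ : V) (Y : ℕ) :
    ((bad1 d v₀ Y).card : ℝ) * (Y : ℝ) ^ 2 ≤ κ ^ 2 * ((12 * c + 8) * (m : ℝ) ^ 3) := by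
  obtain ⟨T, hT⟩ : ∃ T, T = m + (2 * c + 1) := ⟨_, rfl⟩
  have hd : ∀ u w, d u w ≤ T := fun u w => hT ▸ Q.diam u w
  obtain ⟨q, hq⟩ : ∃ q : V × V → ℝ, q = fun z => (d z.1 z.2 : ℝ) - ((d v₀ z.2 : ℝ) - d v₀ z.1) := ⟨_, rfl⟩
  have hq0 : ∀ z, 0 ≤ q z := by
    intro z
    have := Q.tri v₀ z.1 z.2
    have h : (d v₀ z.2 : ℝ) ≤ d v₀ z.1 + d z.1 z.2 := by exact_mod_cast this
    rw [hq]
    simp only
    linarith
  have e1 : ∀ s, ∑ v ∈ Bo d v₀ s, ∑ u ∈ (Bo d v₀ s)ᶜ, ((d v u : ℝ) - ((d v₀ u : ℝ) - d v₀ v)) =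
      ∑ z : V × V, if d v₀ z.1 ≤ s ∧ s < d v₀ z.2 then q z else 0 := by
    intro s
    rw [← sum_product', ← sum_filter]
    refine sum_congr ?_ fun z _ => by rw [hq]
    ext z
    simp only [mem_product, mem_Bo, mem_compl, not_le, mem_filter, mem_univ, true_and]
  have e2 : ∑ s ∈ range T, ∑ v ∈ Bo d v₀ s, ∑ u ∈ (Bo d v₀ s)ᶜ, ((d v u : ℝ) - ((d v₀ u : ℝ) - d v₀ v)) ≤
      T * (κ ^ 2 * ((6 * c + 4) * (m : ℝ) ^ 2)) := by
    have := sum_le_card_nsmul (range T) (fun s => ∑ v ∈ Bo d v₀ s, ∑ u ∈ (Bo d v₀ s)ᶜ,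
      ((d v u : ℝ) - ((d v₀ u : ℝ) - d v₀ v))) _ fun s _ => Q.def_le' v₀ s
    rwa [card_range, nsmul_eq_mul] at this
  rw [sum_congr rfl fun s _ => e1 s, sum_comm] at e2
  have e3 : ((bad1 d v₀ Y).card : ℝ) * (Y : ℝ) ^ 2 ≤
      ∑ z : V × V, ∑ s ∈ range T, if d v₀ z.1 ≤ s ∧ s < d v₀ z.2 then q z else 0 := by
    have h1 : ∑ z ∈ bad1 d v₀ Y, (Y : ℝ) ^ 2 ≤
        ∑ z ∈ bad1 d v₀ Y, ∑ s ∈ range T, if d v₀ z.1 ≤ s ∧ s < d v₀ z.2 then q z else 0 := by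
      refine sum_le_sum fun z hz => ?_
      rw [bad1, mem_filter] at hz
      obtain ⟨_, h2, h3⟩ := hz
      rw [← sum_filter, sum_const, nsmul_eq_mul]
      have h4 : (range T).filter (fun s => d v₀ z.1 ≤ s ∧ s < d v₀ z.2) = Ico (d v₀ z.1) (d v₀ z.2) := by
        ext s
        have := hd v₀ z.2
        simp only [mem_filter, mem_range, mem_Ico]
        omega
      rw [h4, Nat.card_Ico, sq]
      have h5 : (Y : ℝ) ≤ q z := by
        have : (d v₀ z.2 : ℝ) + Y ≤ d v₀ z.1 + d z.1 z.2 := by exact_mod_cast h3.le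
        rw [hq]
        simp only
        linarith
      have h6 : (Y : ℝ) ≤ ((d v₀ z.2 - d v₀ z.1 : ℕ) : ℝ) := by exact_mod_cast (by omega)
      exact mul_le_mul h6 h5 (Nat.cast_nonneg _) (Nat.cast_nonneg _)
    rw [sum_const, nsmul_eq_mul] at h1
    refine h1.trans (sum_le_sum_of_subset_of_nonneg (subset_univ _) fun z _ _ => sum_nonneg fun s _ => ?_)
    split
    · exact hq0 z
    · exact le_rfl
  refine (e3.trans e2).trans ?_
  have h1 : (T : ℝ) ≤ 2 * m := by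
    have := Q.hm
    exact_mod_cast (by omega : T ≤ 2 * m)
  have h2 : (0 : ℝ) ≤ κ ^ 2 * ((6 * c + 4) * (m : ℝ) ^ 2) := by positivity
  calc (T : ℝ) * (κ ^ 2 * ((6 * c + 4) * (m : ℝ) ^ 2)) ≤ 2 * m * (κ ^ 2 * ((6 * c + 4) * (m : ℝ) ^ 2)) :=
        mul_le_mul_of_nonneg_right h1 h2
    _ = _ := by ring

theorem QM.card_bad2 [Nonempty V] (Q : QM m κ c d) (Y : ℕ) :
    ((bad2 d m Y).card : ℝ) * Y ≤ κ ^ 2 * ((5 * c + 4) * (m : ℝ) ^ 2) := by
  have hκ := Q.κpos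
  have hκ2 := Q.hκ
  have hc : (0 : ℝ) ≤ c := Nat.cast_nonneg c
  have hm0 : (0 : ℝ) ≤ m := Nat.cast_nonneg m
  obtain ⟨n, hn⟩ : ∃ n : ℝ, n = Fintype.card V := ⟨_, rfl⟩
  have hn0 : 0 ≤ n := by rw [hn]; positivity
  have hn1 : n ≤ m * κ := hn ▸ Q.n_le
  have hn2 : ((m : ℝ) - c) * κ ≤ n := hn ▸ Q.n_ge (Classical.arbitrary V)
  have e1 : ∑ z : V × V, ((d z.1 z.2 : ℝ) + d z.2 z.1) ≤ 2 * (n * (κ * ((m : ℝ) ^ 2 / 2 + (2 * c + 1) * m))) := by
    have h1 : ∑ v : V, ∑ u : V, (d v u : ℝ) ≤ n * (κ * ((m : ℝ) ^ 2 / 2 + (2 * c + 1) * m)) := by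
      have := sum_le_card_nsmul (univ : Finset V) (fun v => ∑ u : V, (d v u : ℝ)) _ fun v _ => Q.sum_le v
      rwa [card_univ, nsmul_eq_mul, ← hn] at this
    have h2 : ∑ z : V × V, ((d z.1 z.2 : ℝ) + d z.2 z.1) =
        ∑ v : V, ∑ u : V, (d v u : ℝ) + ∑ v : V, ∑ u : V, (d v u : ℝ) := by
      rw [sum_add_distrib, Fintype.sum_prod_type, Fintype.sum_prod_type_right]
    rw [h2]
    linarith
  have e2 : ∀ z : V × V, (if z.1 = z.2 then (0 : ℝ) else m) ≤ (d z.1 z.2 : ℝ) + d z.2 z.1 := by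
    intro z
    split
    · positivity
    · rename_i h
      have := Q.girth z.1 z.2 h
      exact_mod_cast (by omega : m ≤ d z.1 z.2 + d z.2 z.1)
  have e3 : ∑ z : V × V, (if z.1 = z.2 then (0 : ℝ) else m) = (n ^ 2 - n) * m := by
    have h1 : ∀ v : V, ∑ u : V, (if v = u then (0 : ℝ) else m) = (n - 1) * m := by
      intro v
      have h2 : ∀ u : V, (if v = u then (0 : ℝ) else m) = m - if v = u then (m : ℝ) else 0 := by
        intro u
        split <;> simp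
      rw [sum_congr rfl fun u _ => h2 u, sum_sub_distrib, sum_const, card_univ, nsmul_eq_mul, ← hn]
      simp
      ring
    rw [Fintype.sum_prod_type, sum_congr rfl fun v _ => h1 v, sum_const, card_univ, nsmul_eq_mul, ← hn]
    ring
  have e4 : ((bad2 d m Y).card : ℝ) * Y ≤
      ∑ z : V × V, (((d z.1 z.2 : ℝ) + d z.2 z.1) - if z.1 = z.2 then (0 : ℝ) else m) := by
    rw [← nsmul_eq_mul, ← sum_const]
    refine le_trans (sum_le_sum fun z hz => ?_) (sum_le_sum_of_subset_of_nonneg (subset_univ (bad2 d m Y))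
      fun z _ _ => sub_nonneg.2 (e2 z))
    rw [bad2, mem_filter] at hz
    have h1 : (m : ℝ) + Y ≤ (d z.1 z.2 : ℝ) + d z.2 z.1 := by exact_mod_cast hz.2.le
    split
    · linarith
    · linarith
  rw [sum_sub_distrib, e3] at e4
  have e5 : (0 : ℝ) ≤ κ := hκ.le
  have hmκ : (m : ℝ) ≤ 2 * (m * κ) := by nlinarith
  have e6 : n * (κ * (m : ℝ) ^ 2 + 2 * κ * (2 * c + 1) * m - n * m + m) ≤
      (m * κ) * (κ * ((c : ℝ) * m) + 2 * κ * (2 * c + 1) * m + 2 * (m * κ)) := by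
    refine mul_le_mul hn1 ?_ ?_ (by positivity)
    · nlinarith
    · have : n * m ≤ m * κ * m := mul_le_mul_of_nonneg_right hn1 hm0
      nlinarith [mul_nonneg (mul_nonneg e5 hc) hm0, mul_nonneg e5 hm0]
  nlinarith

/-- all bad pairs -/
def bad (d : V → V → ℕ) (v₀ : V) (m Y : ℕ) : Finset (V × V) := bad1 d v₀ Y ∪ bad2 d m Y

/-- the number of bad pairs at a vertex -/
def nb (d : V → V → ℕ) (v₀ : V) (m Y : ℕ) (x : V) : ℕ :=
  (univ.filter fun y => (x, y) ∈ bad d v₀ m Y).card + (univ.filter fun y => (y, x) ∈ bad d v₀ m Y).card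

theorem sum_nb (d : V → V → ℕ) (v₀ : V) (m Y : ℕ) : ∑ x, nb d v₀ m Y x = 2 * (bad d v₀ m Y).card := by
  have h1 : ∑ x : V, (univ.filter fun y => (x, y) ∈ bad d v₀ m Y).card = (bad d v₀ m Y).card := by
    have : (bad d v₀ m Y).card = ∑ z : V × V, if z ∈ bad d v₀ m Y then 1 else 0 := by
      rw [sum_ite_mem, univ_inter, sum_const, smul_eq_mul, mul_one]
    rw [this, Fintype.sum_prod_type]
    exact sum_congr rfl fun x _ => by rw [card_filter]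
  have h2 : ∑ x : V, (univ.filter fun y => (y, x) ∈ bad d v₀ m Y).card = (bad d v₀ m Y).card := by
    have : (bad d v₀ m Y).card = ∑ z : V × V, if z ∈ bad d v₀ m Y then 1 else 0 := by
      rw [sum_ite_mem, univ_inter, sum_const, smul_eq_mul, mul_one]
    rw [this, Fintype.sum_prod_type_right]
    exact sum_congr rfl fun x _ => by rw [card_filter]
  simp only [nb]
  rw [sum_add_distrib, h1, h2, two_mul]

theorem QM.card_bad (Q : QM m κ c d) (v₀ : V) (Y : ℕ) (hY : Y ≤ m) :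
    ((bad d v₀ m Y).card : ℝ) * (Y : ℝ) ^ 2 ≤ κ ^ 2 * ((17 * c + 12) * (m : ℝ) ^ 3) := by
  have : Nonempty V := ⟨v₀⟩
  have h1 := Q.card_bad1 v₀ Y
  have h2 := Q.card_bad2 Y
  have h3 : ((bad d v₀ m Y).card : ℝ) ≤ (bad1 d v₀ Y).card + (bad2 d m Y).card := by
    exact_mod_cast card_union_le _ _
  have hY0 : (0 : ℝ) ≤ Y := Nat.cast_nonneg Y
  have hYm : (Y : ℝ) ≤ m := by exact_mod_cast hY
  have h4 : ((bad2 d m Y).card : ℝ) * (Y : ℝ) ^ 2 ≤ κ ^ 2 * ((5 * c + 4) * (m : ℝ) ^ 2) * m := by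
    have : ((bad2 d m Y).card : ℝ) * (Y : ℝ) ^ 2 = ((bad2 d m Y).card : ℝ) * Y * Y := by ring
    rw [this]
    exact mul_le_mul h2 hYm hY0 (by positivity)
  have h5 := mul_le_mul_of_nonneg_right h3 (sq_nonneg (Y : ℝ))
  nlinarith

/-- a typical vertex: few bad pairs -/
def Typ (d : V → V → ℕ) (v₀ : V) (m Y : ℕ) (κ : ℝ) (x : V) : Prop := 8 * (nb d v₀ m Y x : ℝ) ≤ Y * κ

theorem QM.card_atyp (Q : QM m κ c d) (v₀ : V) (Y h : ℕ) (hY : Y ≤ m) (hY1 : 1 ≤ Y) (hm : m ≤ h * Y) :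
    ((univ.filter fun x => ¬ Typ d v₀ m Y κ x).card : ℝ) ≤ κ * (16 * (17 * c + 12) * (h : ℝ) ^ 3) := by
  have hκ := Q.κpos
  have h1 : ((univ.filter fun x => ¬ Typ d v₀ m Y κ x).card : ℝ) * (Y * κ) ≤
      ∑ x : V, 8 * (nb d v₀ m Y x : ℝ) := by
    rw [← nsmul_eq_mul, ← sum_const]
    refine (sum_le_sum fun x hx => ?_).trans
      (sum_le_sum_of_subset_of_nonneg (subset_univ _) fun x _ _ => by positivity)
    rw [mem_filter, Typ, not_le] at hx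
    exact hx.2.le
  have h2 : ∑ x : V, 8 * (nb d v₀ m Y x : ℝ) = 16 * (bad d v₀ m Y).card := by
    rw [← mul_sum]
    have := sum_nb d v₀ m Y
    have h3 : ∑ x : V, (nb d v₀ m Y x : ℝ) = 2 * (bad d v₀ m Y).card := by exact_mod_cast this
    rw [h3]
    ring
  rw [h2] at h1
  have h3 := Q.card_bad v₀ Y hY
  obtain ⟨N, hN⟩ : ∃ N : ℝ, N = (univ.filter fun x => ¬ Typ d v₀ m Y κ x).card := ⟨_, rfl⟩
  obtain ⟨b, hb⟩ : ∃ b : ℝ, b = (bad d v₀ m Y).card := ⟨_, rfl⟩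
  rw [← hN] at h1 ⊢
  rw [← hb] at h1 h3
  have hY0 : (1 : ℝ) ≤ Y := by exact_mod_cast hY1
  have hY' : (0 : ℝ) < Y := by linarith
  have hmY : (m : ℝ) ≤ h * Y := by exact_mod_cast hm
  have h4 : (m : ℝ) ^ 3 ≤ (h * Y) ^ 3 := pow_le_pow_left₀ (Nat.cast_nonneg m) hmY 3
  have h5 : N * (Y * κ) * (Y : ℝ) ^ 2 ≤ 16 * (κ ^ 2 * ((17 * c + 12) * ((h : ℝ) * Y) ^ 3)) := by
    calc N * (Y * κ) * (Y : ℝ) ^ 2 ≤ 16 * b * (Y : ℝ) ^ 2 := mul_le_mul_of_nonneg_right h1 (sq_nonneg _)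
      _ = 16 * (b * (Y : ℝ) ^ 2) := by ring
      _ ≤ 16 * (κ ^ 2 * ((17 * c + 12) * (m : ℝ) ^ 3)) := by linarith
      _ ≤ _ := by
        have : (0 : ℝ) ≤ κ ^ 2 * (17 * c + 12) := by positivity
        nlinarith
  have h6 : 0 < κ * (Y : ℝ) ^ 3 := by positivity
  have h7 : N * (κ * (Y : ℝ) ^ 3) ≤ (κ * (16 * (17 * c + 12) * (h : ℝ) ^ 3)) * (κ * (Y : ℝ) ^ 3) := by
    calc N * (κ * (Y : ℝ) ^ 3) = N * (Y * κ) * (Y : ℝ) ^ 2 := by ring
      _ ≤ _ := h5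
      _ = _ := by ring
  exact le_of_mul_le_mul_right h7 h6

/-- **positions** -/
theorem QM.pos_star (Q : QM m κ c d) (v₀ : V) (Y h : ℕ) (hY : 8 * Y ≤ m) (hm : m ≤ h * Y)
    (hbig : (16 * (17 * c + 12) * h ^ 3 + 2 * c + 2) < Y) :
    ∃ P : V → ℤ, (∀ u, 0 ≤ P u) ∧ (∀ u, P u ≤ m + (2 * c + 1)) ∧
      (∀ t : ℕ, t + Y ≤ m → ∃ u, (t : ℤ) ≤ P u ∧ P u ≤ t + Y) ∧
      ∀ u w, ∀ D : ℤ, (D = P w - P u ∨ D = P w - P u + m) → 8 * (Y : ℤ) ≤ D → D ≤ m - 8 * Y →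
        (d u w : ℤ) ≤ D + 8 * Y := by
  have hκ := Q.κpos
  have hκ2 := Q.hκ
  have hYm : Y ≤ m := by omega
  have hat := Q.card_atyp v₀ Y h hYm (by omega) hm
  have hbig' : (16 * (17 * (c : ℝ) + 12) * (h : ℝ) ^ 3 + 2 * c + 2) < Y := by exact_mod_cast hbig
  have hA0 : (0 : ℝ) ≤ 16 * (17 * (c : ℝ) + 12) * (h : ℝ) ^ 3 := by positivity
  have hc0 : (0 : ℝ) ≤ c := Nat.cast_nonneg c
  have hex : ∀ u, ∃ x, d x u ≤ Y ∧ Typ d v₀ m Y κ x ∧ (Typ d v₀ m Y κ u → x = u) := by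
    intro u
    by_cases htu : Typ d v₀ m Y κ u
    · exact ⟨u, by rw [Q.self]; exact Nat.zero_le _, htu, fun _ => rfl⟩
    suffices ∃ x, d x u ≤ Y ∧ Typ d v₀ m Y κ x by
      obtain ⟨x, h1, h2⟩ := this
      exact ⟨x, h1, h2, fun h => absurd h htu⟩
    by_contra hcon
    push Not at hcon
    have h1 : Bi d u Y ⊆ univ.filter fun x => ¬ Typ d v₀ m Y κ x := by
      intro x hx
      rw [mem_Bi] at hx
      rw [mem_filter]
      exact ⟨mem_univ _, hcon x hx⟩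
    have h2 : ((Bi d u Y).card : ℝ) ≤ (univ.filter fun x => ¬ Typ d v₀ m Y κ x).card := by
      exact_mod_cast card_le_card h1
    have h3 := Q.in_ge u Y hYm
    nlinarith
  choose X hX hXt hXe using hex
  have hex2 : ∀ u x w, Typ d v₀ m Y κ x → Typ d v₀ m Y κ w → ∃ x', d u x' ≤ Y ∧ (x, x') ∉ bad d v₀ m Y ∧
      (x', x) ∉ bad d v₀ m Y ∧ (w, x') ∉ bad d v₀ m Y ∧ (x', w) ∉ bad d v₀ m Y := by
    intro u x w hx hw
    by_contra hcon
    push Not at hcon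
    have h1 : Bo d u Y ⊆ ((univ.filter fun y => (x, y) ∈ bad d v₀ m Y) ∪
        (univ.filter fun y => (y, x) ∈ bad d v₀ m Y)) ∪ ((univ.filter fun y => (w, y) ∈ bad d v₀ m Y) ∪
        (univ.filter fun y => (y, w) ∈ bad d v₀ m Y)) := by
      intro y hy
      rw [mem_Bo] at hy
      have := hcon y hy
      simp only [mem_union, mem_filter, mem_univ, true_and]
      tauto
    have h2 : (Bo d u Y).card ≤ nb d v₀ m Y x + nb d v₀ m Y w :=
      (card_le_card h1).trans ((card_union_le _ _).trans (add_le_add (card_union_le _ _) (card_union_le _ _)))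
    have h3 : ((Bo d u Y).card : ℝ) ≤ nb d v₀ m Y x + nb d v₀ m Y w := by exact_mod_cast h2
    have h4 := Q.out_ge u Y hYm
    rw [Typ] at hx hw
    have h5 : ((Y : ℝ) - c) * κ ≤ Y * κ / 4 := by linarith
    have h6 : ((Y : ℝ) - c) ≤ Y / 4 := by nlinarith
    linarith
  refine ⟨fun u => (d v₀ (X u) : ℤ), fun u => Int.natCast_nonneg _, fun u => ?_, ?_, ?_⟩
  · have := Q.diam v₀ (X u)
    show ((d v₀ (X u) : ℕ) : ℤ) ≤ _
    exact_mod_cast this
  · intro t ht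
    have hex3 : ∃ u ∈ Bo d v₀ (t + Y) \ Bo d v₀ t, Typ d v₀ m Y κ u := by
      by_contra hcon
      push Not at hcon
      have h1 : Bo d v₀ (t + Y) \ Bo d v₀ t ⊆ univ.filter fun x => ¬ Typ d v₀ m Y κ x := fun x hx =>
        mem_filter.2 ⟨mem_univ _, hcon x hx⟩
      have h2 : ((Bo d v₀ (t + Y) \ Bo d v₀ t).card : ℝ) ≤ (univ.filter fun x => ¬ Typ d v₀ m Y κ x).card := by
        exact_mod_cast card_le_card h1
      have h3 := Q.out_ge v₀ (t + Y) ht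
      have h4 := Q.out_le v₀ t (by omega)
      have h5 : ((Bo d v₀ (t + Y)).card : ℝ) ≤ (Bo d v₀ (t + Y) \ Bo d v₀ t).card + (Bo d v₀ t).card := by
        have := card_le_card_sdiff_add_card (s := Bo d v₀ (t + Y)) (t := Bo d v₀ t)
        exact_mod_cast this
      push_cast at h3
      nlinarith
    obtain ⟨u, hu, htu⟩ := hex3
    rw [mem_sdiff, mem_Bo, mem_Bo, not_le] at hu
    refine ⟨u, ?_, ?_⟩
    · show (t : ℤ) ≤ (d v₀ (X u) : ℤ)
      rw [hXe u htu]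
      exact_mod_cast hu.2.le
    · show (d v₀ (X u) : ℤ) ≤ t + Y
      rw [hXe u htu]
      exact_mod_cast hu.1
  intro u w D hD h8 h9
  obtain ⟨x', hx1, hx2, hx3, hx4, hx5⟩ := hex2 u (X u) (X w) (hXt u) (hXt w)
  have a1 := hX u
  have a2 := hX w
  have a3 := Q.tri (X u) u x'
  have a4 := Q.tri v₀ (X u) x'
  have a5 := Q.tri u x' w
  have a6 := Q.tri x' (X w) w
  have a7 := Q.tri v₀ (X w) x'
  have a8 := Q.diam v₀ (X w)
  have a9 := Q.diam v₀ (X u)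
  have hQm := Q.hm
  have b1 : d v₀ x' + Y ≤ d v₀ (X u) → d x' (X u) + d v₀ x' ≤ d v₀ (X u) + Y := by
    intro h
    by_contra hc
    exact hx3 (mem_union_left _ (by
      rw [bad1, mem_filter]
      refine ⟨mem_univ _, h, ?_⟩
      simp only
      omega))
  have b2 : d v₀ x' + Y ≤ d v₀ (X w) → d x' (X w) + d v₀ x' ≤ d v₀ (X w) + Y := by
    intro h
    by_contra hc
    exact hx5 (mem_union_left _ (by
      rw [bad1, mem_filter]
      refine ⟨mem_univ _, h, ?_⟩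
      simp only
      omega))
  have b3 : d x' (X w) + d (X w) x' ≤ m + Y := by
    by_contra hc
    exact hx5 (mem_union_right _ (by
      rw [bad2, mem_filter]
      refine ⟨mem_univ _, ?_⟩
      simp only
      omega))
  have b4 : d v₀ x' + Y < d v₀ (X u) → m + 1 ≤ d x' (X u) + d (X u) x' := by
    intro h
    refine Q.girth _ _ fun he => ?_
    rw [he] at h
    omega
  push_cast at *
  rcases Nat.lt_or_ge (d v₀ x' + Y) (d v₀ (X u)) with hw | hw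
  · have c1 := b1 hw.le
    have c2 := b4 hw
    rcases hD with hD | hD
    · exfalso
      omega
    · have c3 : d v₀ x' + Y ≤ d v₀ (X w) := by omega
      have c4 := b2 c3
      omega
  · rcases hD with hD | hD
    · have c3 : d v₀ x' + Y ≤ d v₀ (X w) := by omega
      have c4 := b2 c3
      omega
    · omega

/-- **positions, final form**: for `m ≥ M0 c h` with the error `m / h` -/
theorem exists_pos (c h : ℕ) (hh : 1 ≤ h) : ∃ M0 : ℕ, ∀ (V : Type) [Fintype V] (m : ℕ) (κ : ℝ) (d : V → V → ℕ),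
    M0 ≤ m → QM m κ c d → Nonempty V → ∃ P : V → ℤ, (∀ u, 0 ≤ P u) ∧ (∀ u, P u ≤ m + (2 * c + 1)) ∧
      (∀ t : ℕ, t + m / h ≤ m → ∃ u, (t : ℤ) ≤ P u ∧ P u ≤ t + (m / h : ℕ)) ∧
      (∀ u w, ∀ D : ℤ, (D = P w - P u ∨ D = P w - P u + m) → ((m / h : ℕ) : ℤ) ≤ D → D ≤ m - (m / h : ℕ) →
        (d u w : ℤ) ≤ D + (m / h : ℕ)) ∧
      ∀ u w, u ≠ w → ∃ j : ℤ, -1 ≤ j ∧ j ≤ 1 ∧ -((m / h : ℕ) : ℤ) ≤ P w - P u + m * j ∧
        P w - P u + m * j ≤ d u w + (m / h : ℕ) := by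
  obtain ⟨A, hA⟩ : ∃ A, A = 16 * (17 * c + 12) * (16 * h) ^ 3 + 2 * c + 2 := ⟨_, rfl⟩
  refine ⟨8 * h * (A + 2), fun V _ m κ d hm Q hne => ?_⟩
  obtain ⟨v₀⟩ := hne
  obtain ⟨Y, hY⟩ : ∃ Y, Y = m / (8 * h) := ⟨_, rfl⟩
  have h1 : 8 * Y ≤ m / h := by
    rw [hY, mul_comm 8 h, ← Nat.div_div_eq_div_mul]
    exact Nat.mul_div_le _ _
  have h2 : m / h ≤ m := Nat.div_le_self _ _
  have h3 : A + 2 ≤ Y := by
    rw [hY, Nat.le_div_iff_mul_le (by omega)]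
    calc (A + 2) * (8 * h) = 8 * h * (A + 2) := by ring
      _ ≤ m := hm
  have h4 : m < 8 * h * (Y + 1) := by
    rw [hY]
    exact Nat.lt_mul_div_succ m (by omega)
  have h5 : m ≤ 16 * h * Y := by
    have : 8 * h * (Y + 1) ≤ 8 * h * (Y + Y) := Nat.mul_le_mul_left _ (by omega)
    calc m ≤ 8 * h * (Y + Y) := by omega
      _ = 16 * h * Y := by ring
  obtain ⟨P, hP0, hP1, hPs, hP⟩ := Q.pos_star v₀ Y (16 * h) (by omega) h5 (by rw [← hA]; omega)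
  obtain ⟨η, hη⟩ : ∃ η, η = m / h := ⟨_, rfl⟩
  rw [← hη] at h1 h2 ⊢
  have h6 : 2 * c + 2 ≤ η := by omega
  have hP' : ∀ u w, ∀ D : ℤ, (D = P w - P u ∨ D = P w - P u + m) → (η : ℤ) ≤ D → D ≤ m - η →
      (d u w : ℤ) ≤ D + η := by
    intro u w D hD h7 h8
    have := hP u w D hD (by omega) (by omega)
    omega
  refine ⟨P, hP0, hP1, fun t ht => ?_, hP', fun u w huw => ?_⟩
  · obtain ⟨u, h7, h8⟩ := hPs t (by omega)
    exact ⟨u, h7, by omega⟩
  have g := Q.girth u w huw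
  have p1 := hP0 u
  have p2 := hP0 w
  have p3 := hP1 u
  have p4 := hP1 w
  obtain ⟨D, hD⟩ : ∃ D, D = P w - P u := ⟨_, rfl⟩
  rw [← hD]
  by_cases c1 : D < -η
  · -- `w` is behind: go round once
    have := hP' w u (-D) (Or.inl (by omega)) (by omega)
    by_cases c2 : -D ≤ m - η
    · have := this c2
      exact ⟨1, by omega, by omega, by omega, by omega⟩
    · exact ⟨1, by omega, by omega, by omega, by omega⟩
  · by_cases c2 : D ≤ d u w + η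
    · exact ⟨0, by omega, by omega, by omega, by omega⟩
    · -- `D` is large: the way back is short
      have := hP' w u (m - D) (Or.inr (by omega))
      by_cases c3 : (η : ℤ) ≤ m - D
      · have := this c3 (by omega)
        omega
      · exact ⟨-1, by omega, by omega, by omega, by omega⟩

end Pool.Agent.Lib.MP_83608f_co.AV.QMac
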