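import Pool.Agent.Lib.MP_83608f_co.AV.Min
import Pool.Agent.Lib.MP_83608f_co.AV.GRW
import Pool.Agent.Lib.MP_83608f_co.LIM.A2
import Pool.Agent.Lib.MP_83608f_co.CN.ONE
import Pool.Agent.Lib.MP_83608f_co.AV.QM
import Pool.Agent.Lib.MP_83608f_co.LIM.FIN6

section
/-!
# MP_83608f_co, part AV: the cover `V × ℤ` of a digraph with a potential (helper63)

Arcs `R`, labels `lab`, the deck transformation `T`, girth, tight ancestors, windows (finite sets of labels) and their sizes,
the average form on small finite sets.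
-/
set_option autoImplicit false

open Classical

noncomputable section

namespace Pool.Agent.Lib.MP_83608f_co.AV

open Pool.Agent.Lib.MP_83608f_co.CN

namespace Cov_

variable {V : Type} {A : V → V → Prop} {φ : V → V → ℤ}

/-- the arcs of the cover -/
def R (A : V → V → Prop) (φ : V → V → ℤ) (x y : V × ℤ) : Prop := A x.1 y.1 ∧ y.2 = x.2 + φ x.1 y.1

/-- the deck transformation -/
def T (x : V × ℤ) : V × ℤ := (x.1, x.2 + 1)

/-- the label of a point of the cover -/
def lab (P : Pot A φ) (x : V × ℤ) : ℤ := P.a x.1 + P.q * x.2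

lemma lab_T (P : Pot A φ) (x : V × ℤ) : lab P (T x) = lab P x + P.q := by
  simp only [lab, T]
  ring

/-- walks of the cover are walks with winding -/
lemma wk_wk : ∀ {j : ℕ} {x y : V × ℤ}, EM.Wk (⟨R A φ⟩ : Digraph (V × ℤ)) j x y → Wk A φ x.1 y.1 j (y.2 - x.2) := by
  intro j
  induction j with
  | zero =>
    intro x y h
    have h1 : x = y := h
    rw [h1, sub_self]
    exact Wk.nil _
  | succ j ih =>
    intro x y h
    obtain ⟨z, hz, h2⟩ := h
    have h3 := Wk.cons hz.1 (ih h2)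
    have h4 : φ x.1 z.1 + (y.2 - z.2) = y.2 - x.2 := by
      have := hz.2
      rw [this]
      ring
    rwa [h4] at h3

lemma wk_base : ∀ {j : ℕ} {x y : V × ℤ}, EM.Wk (⟨R A φ⟩ : Digraph (V × ℤ)) j x y →
    EM.Wk (⟨A⟩ : Digraph V) j x.1 y.1 := by
  intro j
  induction j with
  | zero =>
    intro x y h
    have h1 : x = y := h
    rw [h1]
    exact EM.Wk.zero _
  | succ j ih =>
    intro x y h
    obtain ⟨z, hz, h2⟩ := h
    exact ⟨z.1, hz.1, ih h2⟩

lemma girth {m : ℕ} (hcl : NoCl A m) {j : ℕ} {x y : V × ℤ} (h1 : 1 ≤ j) (h2 : j ≤ m)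
    (h : EM.Wk (⟨R A φ⟩ : Digraph (V × ℤ)) j x y) : x.1 ≠ y.1 := by
  intro h3
  have h4 := wk_base h
  rw [← h3] at h4
  exact hcl j h1 h2 x.1 h4

lemma nocl {m : ℕ} (hcl : NoCl A m) : NoCl (R A φ) m := fun _ h1 h2 _ h => girth hcl h1 h2 h rfl

lemma girth_T {m : ℕ} (hcl : NoCl A m) {j : ℕ} {x : V × ℤ} (h1 : 1 ≤ j) (h2 : j ≤ m) :
    ¬ EM.Wk (⟨R A φ⟩ : Digraph (V × ℤ)) j x (T x) := fun h => girth hcl h1 h2 h rfl

lemma lab_le (P : Pot A φ) {x y : V × ℤ} (h : R A φ x y) : lab P y ≤ lab P x + P.p := by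
  have h1 := P.a_le x.1 y.1 h.1
  simp only [lab]
  rw [h.2]
  linarith [mul_add (P.q : ℤ) x.2 (φ x.1 y.1)]

lemma tight (P : Pot A φ) (y : V × ℤ) : ∃ x, R A φ x y ∧ lab P x = lab P y - P.p := by
  obtain ⟨x, hx, h⟩ := P.a_tight y.1
  refine ⟨(x, y.2 - φ x y.1), ⟨hx, by simp⟩, ?_⟩
  simp only [lab]
  linarith [mul_sub (P.q : ℤ) y.2 (φ x y.1)]

lemma drop {P : Pot A φ} {m η : ℕ} (h : Loc P m η) {j : ℕ} {x y : V × ℤ} (hj : 8 * j ≤ m)
    (hw : EM.Wk (⟨R A φ⟩ : Digraph (V × ℤ)) j x y) : lab P x ≤ lab P y + P.p * η := by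
  have h1 := h.drop _ _ _ _ (wk_wk hw) hj
  simp only [lab]
  linarith [mul_sub (P.q : ℤ) y.2 x.2]

/-! ### out-degrees and in-degrees -/

variable [Fintype V]

/-- out-neighbours in the cover -/
def out (A : V → V → Prop) (φ : V → V → ℤ) (x : V × ℤ) : Finset (V × ℤ) :=
  (Finset.univ.filter fun u => A x.1 u).image fun u => (u, x.2 + φ x.1 u)

/-- in-neighbours in the cover -/
def inn (A : V → V → Prop) (φ : V → V → ℤ) (y : V × ℤ) : Finset (V × ℤ) :=
  (Finset.univ.filter fun u => A u y.1).image fun u => (u, y.2 - φ u y.1)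

lemma mem_out {x y : V × ℤ} : y ∈ out A φ x ↔ R A φ x y := by
  simp only [out, Finset.mem_image, Finset.mem_filter, Finset.mem_univ, true_and, R]
  constructor
  · rintro ⟨u, hu, rfl⟩
    exact ⟨hu, rfl⟩
  · rintro ⟨h1, h2⟩
    exact ⟨y.1, h1, Prod.ext rfl h2.symm⟩

lemma mem_inn {x y : V × ℤ} : x ∈ inn A φ y ↔ R A φ x y := by
  simp only [inn, Finset.mem_image, Finset.mem_filter, Finset.mem_univ, true_and, R]
  constructor
  · rintro ⟨u, hu, rfl⟩
    exact ⟨hu, by simp⟩
  · rintro ⟨h1, h2⟩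
    exact ⟨x.1, h1, Prod.ext rfl (by rw [h2]; simp)⟩

lemma card_out (x : V × ℤ) : (out A φ x).card = (Finset.univ.filter fun u => A x.1 u).card :=
  Finset.card_image_of_injective _ fun u u' h => (Prod.mk.inj h).1

lemma card_inn (y : V × ℤ) : (inn A φ y).card = (Finset.univ.filter fun u => A u y.1).card :=
  Finset.card_image_of_injective _ fun u u' h => (Prod.mk.inj h).1

/-! ### windows -/

/-- the points with labels in `(l, l']` -/
def W (P : Pot A φ) (l l' : ℤ) : Finset (V × ℤ) :=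
  (Finset.univ : Finset V).biUnion fun v =>
    (Finset.Ioc ((l - P.a v) / P.q) ((l' - P.a v) / P.q)).image fun s => (v, s)

/-- the counting function of the labels -/
def F (P : Pot A φ) (l : ℤ) : ℤ := ∑ v : V, (l - P.a v) / P.q

lemma hq (P : Pot A φ) : (0 : ℤ) < P.q := by exact_mod_cast P.hq

lemma mem_W (P : Pot A φ) {l l' : ℤ} {x : V × ℤ} : x ∈ W P l l' ↔ l < lab P x ∧ lab P x ≤ l' := by
  have hq := hq P
  have h1 : x ∈ W P l l' ↔ x.2 ∈ Finset.Ioc ((l - P.a x.1) / P.q) ((l' - P.a x.1) / P.q) := by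
    simp only [W, Finset.mem_biUnion, Finset.mem_univ, true_and, Finset.mem_image]
    constructor
    · rintro ⟨v, s, hs, rfl⟩
      exact hs
    · intro h
      exact ⟨x.1, x.2, h, rfl⟩
  rw [h1, Finset.mem_Ioc, Int.ediv_lt_iff_lt_mul hq, Int.le_ediv_iff_mul_le hq]
  simp only [lab]
  constructor
  · rintro ⟨h2, h3⟩
    constructor <;> linarith [mul_comm x.2 (P.q : ℤ)]
  · rintro ⟨h2, h3⟩
    constructor <;> linarith [mul_comm x.2 (P.q : ℤ)]

lemma card_W (P : Pot A φ) {l l' : ℤ} (h : l ≤ l') : ((W P l l').card : ℤ) = F P l' - F P l := by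
  rw [W, Finset.card_biUnion, F, F, ← Finset.sum_sub_distrib]
  · push_cast
    refine Finset.sum_congr rfl fun v _ => ?_
    rw [Finset.card_image_of_injective _ fun s s' h => (Prod.mk.inj h).2, Int.card_Ioc]
    have h1 : (l - P.a v) / P.q ≤ (l' - P.a v) / P.q := Int.ediv_le_ediv (hq P) (by linarith)
    rw [Int.toNat_of_nonneg (by linarith)]
  · intro v _ v' _ hne
    rw [Function.onFun, Finset.disjoint_left]
    intro x hx hx'
    rw [Finset.mem_image] at hx hx'
    obtain ⟨s, _, rfl⟩ := hx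
    obtain ⟨s', _, h'⟩ := hx'
    exact hne (Prod.mk.inj h').1.symm

lemma F_q (P : Pot A φ) (l : ℤ) : F P (l + P.q) = F P l + Fintype.card V := by
  rw [F, F]
  have h1 : ∀ v : V, (l + P.q - P.a v) / P.q = (l - P.a v) / P.q + 1 := by
    intro v
    rw [show l + (P.q : ℤ) - P.a v = l - P.a v + P.q * 1 by ring, Int.add_mul_ediv_left _ _ (hq P).ne']
  rw [Finset.sum_congr rfl fun v _ => h1 v, Finset.sum_add_distrib]
  simp

lemma F_mono (P : Pot A φ) {l l' : ℤ} (h : l ≤ l') : F P l ≤ F P l' := by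
  have h1 := card_W P h
  have h2 : (0 : ℤ) ≤ ((W P l l').card : ℤ) := Int.natCast_nonneg _
  linarith

/-- every integer is a label -/
lemma exists_lab [Nonempty V] (P : Pot A φ) (l : ℤ) : ∃ x : V × ℤ, lab P x = l := by
  have h := occ_pot P l
  obtain ⟨v, hv⟩ := h
  obtain ⟨s, hs⟩ := hv
  exact ⟨(v, s), by simp only [lab]; linarith⟩

end Cov_

end Pool.Agent.Lib.MP_83608f_co.AV
end
end

section
/-!
# MP_83608f_co, part AV: balls, degrees and excesses in the AV class (helper63)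

`A` has no closed walk of length `1, .., m`, all out-degrees are at least `dp`, all in-degrees at least `dm` and
`2 n ≤ m (dp + dm)` (`K = dp + dm`).  Then all degrees are at most `46 K`, `m |dp - dm| ≤ 92 K`, and every nonempty set `F`
with `N⁺[F] ≠ V` satisfies `m (|F| + dp) ≤ m |N⁺[F]| + 552 K`.
-/
set_option autoImplicit false

open Classical

noncomputable section

namespace Pool.Agent.Lib.MP_83608f_co.AV

open Pool.Agent.Lib.MP_83608f_co.CN
open LAY_ (cb)

namespace Exc_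

variable {V : Type} [Fintype V] {A : V → V → Prop} {m : ℕ}

lemma ind_univ : DCH_.ind A Finset.univ = A := by
  funext u v
  unfold DCH_.ind
  simp

/-- the growth of the balls -/
theorem growth {dp : ℕ} (hcl : NoCl A m) (ho : ∀ v, dp ≤ (Finset.univ.filter fun u => A v u).card) (v : V) (j : ℕ)
    (hj : j ≤ m) : j * dp ≤ (cb A v j).card + 45 * dp := by
  have h := LIM.A2_.ball (A := A) (m := m) (δ := dp) Finset.univ v hcl (Finset.mem_univ v) (fun v _ => ho v) j hj
  rwa [ind_univ] at h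

/-- an in-neighbourhood is disjoint from the ball of radius `m - 1` -/
lemma in_ball {dp : ℕ} (hm : 1 ≤ m) (hcl : NoCl A m) (ho : ∀ v, dp ≤ (Finset.univ.filter fun u => A v u).card) (v : V) :
    (Finset.univ.filter fun u => A u v).card + m * dp ≤ Fintype.card V + 46 * dp := by
  have h1 : Disjoint (Finset.univ.filter fun u => A u v) (cb A v (m - 1)) := by
    rw [Finset.disjoint_left]
    intro u hu
    exact LAY_.in_notMem hcl v u (Finset.mem_filter.1 hu).2 (m - 1) (by omega)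
  have h2 := Finset.card_le_univ ((Finset.univ.filter fun u => A u v) ∪ cb A v (m - 1))
  rw [Finset.card_union_of_disjoint h1] at h2
  have h3 := growth hcl ho v (m - 1) (by omega)
  have h4 : (m - 1) * dp + dp = m * dp := by
    obtain ⟨m', rfl⟩ : ∃ m', m = m' + 1 := ⟨m - 1, by omega⟩
    simp only [Nat.add_sub_cancel]
    ring
  omega

/-- the size of a side of a cut, in terms of the smallest inner out-degree; `D` bounds the flux into a vertex of `S` -/
lemma side_deg {C q ε D : ℝ} {k : ℕ} (i j : ℕ) (hij : i + j + 2 ≤ m) (hk : 1 ≤ k) (hcl : NoCl A m)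
    (O S : Finset V) (hO : O.Nonempty) (hout : ∀ a ∈ O, k ≤ (Finset.univ.filter fun u => A a u).card)
    (hD : ∀ s ∈ S, ((O.filter fun a => A a s).card : ℝ) ≤ D) (e : ℕ) (hek : e ≤ k) (hε : 0 < ε) (hεe : ε ≤ e)
    (hC : 0 < C) (hq : q = 1 - 1 / C * (1 - ε / (2 * k))) (hq0 : 0 < q)
    (hG : (q ^ i + q ^ j) * (1 - 1 / C * (e / k)) ≤ 1)
    (hcut : ∀ a ∈ O, ∀ b, A a b → b ∈ O ∨ b ∈ S)
    (hdeg' : ∀ a ∈ O, e ≤ (O.filter fun v => A a v).card) :
    C * k ≤ O.card + D * S.card / (ε * q) := by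
  have hk0 : (0 : ℝ) < k := by exact_mod_cast (by omega : 0 < k)
  obtain ⟨dO, hdO⟩ : ∃ dO : V → ℝ, dO = fun u => ((O.filter fun v => A u v).card : ℝ) := ⟨_, rfl⟩
  have hdOv : ∀ a, dO a = ((O.filter fun v => A a v).card : ℝ) := fun a => by rw [hdO]
  have hsplit : ∀ a ∈ O, (k : ℝ) ≤ dO a + (S.filter fun v => A a v).card := by
    intro a ha
    have h1 : (Finset.univ.filter fun v => A a v) ⊆
        (O.filter fun v => A a v) ∪ (S.filter fun v => A a v) := by
      intro v hv
      rw [Finset.mem_filter] at hv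
      rw [Finset.mem_union, Finset.mem_filter, Finset.mem_filter]
      rcases hcut a ha v hv.2 with h | h
      · exact Or.inl ⟨h, hv.2⟩
      · exact Or.inr ⟨h, hv.2⟩
    have h2 := (hout a ha).trans ((Finset.card_le_card h1).trans (Finset.card_union_le _ _))
    rw [hdOv a]
    exact_mod_cast h2
  have hdeg : ∀ a ∈ O, (e : ℝ) ≤ dO a := by
    intro a ha
    rw [hdOv a]
    exact_mod_cast hdeg' a ha
  have hek' : (e : ℝ) ≤ k := by exact_mod_cast hek
  -- the function `d`
  obtain ⟨d, hd⟩ : ∃ d : V → ℝ, d = fun u => if u ∈ O then min (dO u) k else (k : ℝ) := ⟨_, rfl⟩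
  have hdO' : ∀ u ∈ O, d u = min (dO u) k := fun u hu => by
    rw [hd]
    simp only [if_pos hu]
  -- the deficits
  have hdefS : ∑ a ∈ O, ((k : ℝ) - d a) ≤ D * S.card := by
    have h0 : ∑ a ∈ O, ((k : ℝ) - d a) ≤ ∑ a ∈ O, ((S.filter fun v => A a v).card : ℝ) := by
      refine Finset.sum_le_sum fun a ha => ?_
      rw [hdO' a ha]
      have h1 := hsplit a ha
      have h2 : (0 : ℝ) ≤ (S.filter fun v => A a v).card := Nat.cast_nonneg _
      rcases le_total (dO a) k with h | h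
      · rw [min_eq_left h]
        linarith
      · rw [min_eq_right h]
        linarith
    have h1 : ∑ a ∈ O, (S.filter fun v => A a v).card = ∑ v ∈ S, (O.filter fun a => A a v).card := by
      simp only [Finset.card_filter]
      exact Finset.sum_comm
    have h1' : (∑ a ∈ O, ((S.filter fun v => A a v).card : ℝ)) = ∑ v ∈ S, ((O.filter fun a => A a v).card : ℝ) := by
      exact_mod_cast h1
    have h2 : ∑ v ∈ S, ((O.filter fun a => A a v).card : ℝ) ≤ S.card * D := by
      rw [← nsmul_eq_mul, ← Finset.sum_const]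
      exact Finset.sum_le_sum hD
    rw [mul_comm]
    linarith
  have hd1 : ∀ u, (e : ℝ) ≤ d u := by
    intro u
    by_cases hu : u ∈ O
    · rw [hdO' u hu]
      exact le_min (hdeg u hu) hek'
    · rw [hd]
      simp only [if_neg hu]
      exact hek'
  have hd2 : ∀ u, d u ≤ k := by
    intro u
    by_cases hu : u ∈ O
    · rw [hdO' u hu]
      exact min_le_right _ _
    · rw [hd]
      simp only [if_neg hu]
      exact le_refl _
  obtain ⟨lam, hlam⟩ : ∃ lam, lam = 1 / (ε * q) := ⟨_, rfl⟩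
  have hlam0 : 0 < lam := by
    rw [hlam]
    exact div_pos one_pos (mul_pos hε hq0)
  have hlq : lam * (ε * q) = 1 := by
    rw [hlam]
    exact div_mul_cancel₀ _ (mul_pos hε hq0).ne'
  have hγ0 : 0 < 1 / C := div_pos one_pos hC
  obtain ⟨u, hu, h1⟩ := dch (A := A) (m := m) (d := d) (K := (k : ℝ)) (e := (e : ℝ)) (ε := ε) (γ := 1 / C)
    (q := q) (lam := lam) hε hεe hek' hd1 hlam0.le hd2 hγ0 hq hq0 hlq hcl i j hij hG O hO
  have h2 : 0 < dO u := by linarith [hdeg u hu]
  have hdf0 : 0 ≤ ∑ a ∈ O, ((k : ℝ) - d a) := Finset.sum_nonneg fun a _ => by linarith [hd2 a]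
  have hmu0 : 0 ≤ 1 / C * mu lam (k : ℝ) d O := by
    refine mul_nonneg hγ0.le ?_
    rw [DCH_.mu_eq]
    have : DCH_.df (k : ℝ) d O = ∑ a ∈ O, ((k : ℝ) - d a) := rfl
    rw [this]
    positivity
  have h3 : (k : ℝ) * dO u ≤ 1 / C * mu lam (k : ℝ) d O * dO u := by
    rw [← hdOv u] at h1
    refine h1.trans (mul_le_mul_of_nonneg_left ?_ hmu0)
    rw [hdO' u hu]
    exact min_le_left _ _
  have h4 := le_of_mul_le_mul_right h3 h2
  rw [one_div, inv_mul_eq_div, le_div_iff₀ hC, DCH_.mu_eq] at h4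
  have h5 : DCH_.df (k : ℝ) d O = ∑ a ∈ O, ((k : ℝ) - d a) := rfl
  rw [h5] at h4
  have h6 := mul_le_mul_of_nonneg_left hdefS hlam0.le
  have h7 : lam * (D * S.card) = D * S.card / (ε * q) := by
    rw [hlam]
    ring
  rw [h7] at h6
  linarith

/-- the smallest inner out-degree of a small side of a cut -/
theorem a1 {k K e : ℕ} (hm : 5000 ≤ m) (hcl : NoCl A m) (hK : m * K ≤ (2 * m + 200) * k)
    (O S : Finset V) (hO : O.Nonempty) (hout : ∀ a ∈ O, k ≤ (Finset.univ.filter fun u => A a u).card)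
    (hD : ∀ s ∈ S, (Finset.univ.filter fun a => A a s).card ≤ 46 * K) (hS : S.card ≤ k) (h4 : 4 * O.card ≤ m * K)
    (hcut : ∀ a ∈ O, ∀ b, A a b → b ∈ O ∨ b ∈ S) (hek : e ≤ k)
    (hdeg : ∀ a ∈ O, e ≤ (O.filter fun v => A a v).card) : m * e ≤ 460 * K := by
  by_contra hcon
  push Not at hcon
  have he : 0 < e := by
    rcases Nat.eq_zero_or_pos e with h | h
    · rw [h] at hcon
      omega
    · exact h
  have hk : 1 ≤ k := by omega
  have hK1 : 1 ≤ K := by
    rcases Nat.eq_zero_or_pos K with h | h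
    · rw [h] at h4
      have := hO.card_pos
      omega
    · exact h
  have hk0 : (0 : ℝ) < k := by exact_mod_cast (by omega : 0 < k)
  have hK0 : (0 : ℝ) < K := by exact_mod_cast (by omega : 0 < K)
  have hm' : (5000 : ℝ) ≤ m := by exact_mod_cast hm
  have hm0 : (0 : ℝ) < m := by linarith
  have hKr : (m : ℝ) * K ≤ (2 * m + 200) * k := by exact_mod_cast hK
  have hlt : 460 * (K : ℝ) < m * e := by exact_mod_cast hcon
  obtain ⟨x, hx⟩ : ∃ x : ℝ, x = 0.72 * m - 1 := ⟨_, rfl⟩
  obtain ⟨ε, hεd⟩ : ∃ ε : ℝ, ε = 460 * K / m := ⟨_, rfl⟩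
  have hε : 0 < ε := by rw [hεd]; positivity
  have hεm : ε * m = 460 * K := by rw [hεd]; field_simp
  have hεe : ε ≤ e := by
    rw [hεd, div_le_iff₀ hm0]
    linarith
  have hek' : (e : ℝ) ≤ k := by exact_mod_cast hek
  have hx1 : 3599 ≤ x := by rw [hx]; linarith
  have hx0 : 0 < x := by linarith
  obtain ⟨i, j, hij, hG⟩ := LG_.pow_cond (m := m) (by omega) hx
  have hr : 0 < 1 - ε / (2 * k) := by
    rw [sub_pos, div_lt_one (by linarith)]
    linarith
  have hC : 0 < x * (1 - ε / (2 * k)) := mul_pos hx0 hr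
  have aux : ∀ r : ℝ, r ≠ 0 → 1 - 1 / x = 1 - 1 / (x * r) * r := fun r hr => by field_simp
  have hq := aux _ hr.ne'
  have hq0 : 0 < 1 - 1 / x := by
    rw [sub_pos, div_lt_one hx0]
    linarith
  have hG' : ((1 - 1 / x) ^ i + (1 - 1 / x) ^ j) * (1 - 1 / (x * (1 - ε / (2 * k))) * (e / k)) ≤ 1 := by
    have h1 : 0 ≤ (1 - 1 / x) ^ i + (1 - 1 / x) ^ j := add_nonneg (pow_nonneg hq0.le _) (pow_nonneg hq0.le _)
    have h2 : 0 ≤ 1 / (x * (1 - ε / (2 * k))) * (e / k) := by positivity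
    nlinarith
  have h := side_deg (A := A) (m := m) (C := x * (1 - ε / (2 * k))) (q := 1 - 1 / x) (ε := ε) (D := 46 * K) (k := k)
    i j hij hk hcl O S hO hout (fun s hs => by
      have h1 : (O.filter fun a => A a s).card ≤ (Finset.univ.filter fun a => A a s).card :=
        Finset.card_le_card (Finset.filter_subset_filter _ (Finset.subset_univ O))
      have h2 := h1.trans (hD s hs)
      exact_mod_cast h2) e hek hε hεe hC hq hq0 hG' hcut hdeg
  have e1 : x * (1 - ε / (2 * k)) * k = x * (k - ε / 2) := by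
    field_simp
  have hx1' : x - 1 ≠ 0 := by linarith
  have hS' : (S.card : ℝ) ≤ k := by exact_mod_cast hS
  have hO4 : 4 * (O.card : ℝ) ≤ m * K := by exact_mod_cast h4
  -- the flux term
  have e2 : 46 * (K : ℝ) * S.card / (ε * (1 - 1 / x)) ≤ 0.1 * m * k * (1 + 1 / 3000) := by
    have hden : 0 < ε * (1 - 1 / x) := mul_pos hε hq0
    rw [div_le_iff₀ hden]
    have h3 : 1 - 1 / 3599 ≤ 1 - 1 / x := by
      have : 1 / x ≤ 1 / 3599 := one_div_le_one_div_of_le (by norm_num) hx1
      linarith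
    have h5 : 46 * (K : ℝ) = 0.1 * (ε * m) := by rw [hεm]; ring
    calc 46 * (K : ℝ) * S.card ≤ 46 * K * k := by gcongr
      _ = 0.1 * m * k * ε := by rw [h5]; ring
      _ ≤ 0.1 * m * k * (1 + 1 / 3000) * (ε * (1 - 1 / x)) := by
        have h6 : (1 : ℝ) ≤ (1 + 1 / 3000) * (1 - 1 / x) := by nlinarith
        have h7 : 0 ≤ 0.1 * (m : ℝ) * k * ε := by positivity
        nlinarith
  rw [e1] at h
  have h8 : x * ε ≤ 0.72 * 460 * K := by
    rw [hx]
    nlinarith
  have hKk : (K : ℝ) ≤ 2.04 * k := by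
    have : (m : ℝ) * K ≤ m * (2.04 * k) := by nlinarith
    exact le_of_mul_le_mul_left this hm0
  have h9 : (O.card : ℝ) ≤ 0.5 * m * k + 50 * k := by linarith
  have h10 : x * (k - ε / 2) = 0.72 * m * k - k - x * ε / 2 := by
    rw [hx]
    ring
  rw [h10] at h
  have h11 : 5000 * (k : ℝ) ≤ m * k := by gcongr
  nlinarith

variable {dp dm : ℕ}

/-- the degrees of a member of the class -/
theorem degrees (hm : 5000 ≤ m) (hcl : NoCl A m) (ho : ∀ v, dp ≤ (Finset.univ.filter fun u => A v u).card)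
    (hi : ∀ v, dm ≤ (Finset.univ.filter fun u => A u v).card) (hn : 2 * Fintype.card V ≤ m * (dp + dm)) (v : V) :
    (Finset.univ.filter fun u => A v u).card ≤ 46 * (dp + dm) ∧
    (Finset.univ.filter fun u => A u v).card ≤ 46 * (dp + dm) ∧
    m * dp ≤ m * dm + 92 * dp ∧ m * dm ≤ m * dp + 92 * dm := by
  have h1 := in_ball (by omega) hcl ho v
  have h2 := in_ball (A := fun a b => A b a) (dp := dm) (by omega) (CUT_.nocl_flip hcl) hi v
  have h3 := hi v
  have h4 := ho v
  have e1 : m * (dp + dm) = m * dp + m * dm := by ring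
  rw [e1] at hn
  refine ⟨?_, ?_, ?_, ?_⟩ <;> omega

/-- **the excess is at most `552 K / m`** -/
theorem excess (hm : 5000 ≤ m) (hcl : NoCl A m) (ho : ∀ v, dp ≤ (Finset.univ.filter fun u => A v u).card)
    (hi : ∀ v, dm ≤ (Finset.univ.filter fun u => A u v).card) (hn : 2 * Fintype.card V ≤ m * (dp + dm))
    (F : Finset V) (hF : F.Nonempty) (hFu : outN A F ≠ Finset.univ) :
    m * (F.card + dp) ≤ m * (outN A F).card + 552 * (dp + dm) := by
  obtain ⟨v0, hv0⟩ := hF
  obtain ⟨-, -, hpm, hmp⟩ := degrees hm hcl ho hi hn v0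
  obtain ⟨S, hS⟩ : ∃ S, S = outN A F \ F := ⟨_, rfl⟩
  have hFsub : F ⊆ outN A F := fun x hx => FIN_.mem_outN.2 (Or.inl hx)
  have hcard : S.card + F.card = (outN A F).card := by
    rw [hS]
    exact Finset.card_sdiff_add_card_eq_card hFsub
  rcases Nat.lt_or_ge S.card dp with hlt | hge
  swap
  · have : F.card + dp ≤ (outN A F).card := by omega
    have := Nat.mul_le_mul_left m this
    omega
  obtain ⟨e, he⟩ : ∃ e, e + S.card = dp := ⟨dp - S.card, by omega⟩
  have hgoal : m * e ≤ 552 * (dp + dm) → m * (F.card + dp) ≤ m * (outN A F).card + 552 * (dp + dm) := by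
    intro h
    rw [← hcard, ← he]
    have : m * (F.card + (e + S.card)) = m * (S.card + F.card) + m * e := by ring
    rw [this]
    rw [← he] at h
    omega
  apply hgoal
  have hnV : (outN A F).card < Fintype.card V := by
    rw [← Finset.card_univ]
    exact Finset.card_lt_card (Finset.ssubset_univ_iff.2 hFu)
  have e1 : m * (dp + dm) = m * dp + m * dm := by ring
  have hKp : m * (dp + dm) ≤ (2 * m + 200) * dp := by
    have h1 : dm ≤ 2 * dp := by
      by_contra h
      push Not at h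
      have h2 : 5000 * dm ≤ m * dm := Nat.mul_le_mul_right _ hm
      have h3 : 2 * (m * dp) + m ≤ m * dm := by
        calc 2 * (m * dp) + m = m * (2 * dp + 1) := by ring
          _ ≤ m * dm := Nat.mul_le_mul_left m h
      omega
    have e2 : (2 * m + 200) * dp = 2 * (m * dp) + 200 * dp := by ring
    rw [e1, e2]
    omega
  have hKm : m * (dp + dm) ≤ (2 * m + 200) * dm := by
    have h1 : dp ≤ 2 * dm := by
      by_contra h
      push Not at h
      have h2 : 5000 * dp ≤ m * dp := Nat.mul_le_mul_right _ hm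
      have h3 : 2 * (m * dm) + m ≤ m * dp := by
        calc 2 * (m * dm) + m = m * (2 * dm + 1) := by ring
          _ ≤ m * dp := Nat.mul_le_mul_left m h
      omega
    have e2 : (2 * m + 200) * dm = 2 * (m * dm) + 200 * dm := by ring
    rw [e1, e2]
    omega
  rcases Nat.lt_or_ge (Fintype.card V) (2 * F.card) with hbig | hsmall
  · -- the other side
    rcases Nat.lt_or_ge dm S.card with h5 | h5
    · have h6 : m * S.card ≥ m * dm := Nat.mul_le_mul_left m (by omega)
      have h7 : m * (e + S.card) = m * e + m * S.card := by ring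
      rw [he] at h7
      omega
    · obtain ⟨e', he'⟩ : ∃ e', e' + S.card = dm := ⟨dm - S.card, by omega⟩
      obtain ⟨U, hU⟩ : ∃ U, U = Finset.univ \ outN A F := ⟨_, rfl⟩
      have hUc : U.card + (outN A F).card = Fintype.card V := by
        rw [hU, ← Finset.card_univ]
        exact Finset.card_sdiff_add_card_eq_card (Finset.subset_univ _)
      have hcut : ∀ a ∈ U, ∀ b, A b a → b ∈ U ∨ b ∈ S := by
        intro a ha b hab
        rw [hU, Finset.mem_sdiff] at ha
        by_cases hb : b ∈ outN A F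
        · refine Or.inr ?_
          rw [hS, Finset.mem_sdiff]
          exact ⟨hb, fun hbF => ha.2 (FIN_.mem_outN.2 (Or.inr ⟨b, hbF, hab⟩))⟩
        · refine Or.inl ?_
          rw [hU, Finset.mem_sdiff]
          exact ⟨Finset.mem_univ _, hb⟩
      have hdeg : ∀ a ∈ U, e' ≤ (U.filter fun v => A v a).card := by
        intro a ha
        have h1 : (Finset.univ.filter fun v => A v a) ⊆ (U.filter fun v => A v a) ∪ S := by
          intro v hv
          rw [Finset.mem_filter] at hv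
          rw [Finset.mem_union, Finset.mem_filter]
          rcases hcut a ha v hv.2 with h | h
          · exact Or.inl ⟨h, hv.2⟩
          · exact Or.inr h
        have h2 := (hi a).trans ((Finset.card_le_card h1).trans (Finset.card_union_le _ _))
        omega
      have hUne : U.Nonempty := by
        rw [← Finset.card_pos]
        omega
      have h6 := a1 (A := fun a b => A b a) (k := dm) (K := dp + dm) (e := e') hm (CUT_.nocl_flip hcl) hKm U S hUne
        (fun a _ => hi a) (fun s _ => (degrees hm hcl ho hi hn s).1) h5 (by omega) hcut (by omega) hdeg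
      have h7 : m * (e + S.card) = m * e + m * S.card := by ring
      have h8 : m * (e' + S.card) = m * e' + m * S.card := by ring
      rw [he] at h7
      rw [he'] at h8
      omega
  · have hcut : ∀ a ∈ F, ∀ b, A a b → b ∈ F ∨ b ∈ S := by
      intro a ha b hab
      by_cases hb : b ∈ F
      · exact Or.inl hb
      · refine Or.inr ?_
        rw [hS, Finset.mem_sdiff]
        exact ⟨FIN_.mem_outN.2 (Or.inr ⟨a, ha, hab⟩), hb⟩
    have hdeg : ∀ a ∈ F, e ≤ (F.filter fun v => A a v).card := by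
      intro a ha
      have h1 : (Finset.univ.filter fun v => A a v) ⊆ (F.filter fun v => A a v) ∪ S := by
        intro v hv
        rw [Finset.mem_filter] at hv
        rw [Finset.mem_union, Finset.mem_filter]
        rcases hcut a ha v hv.2 with h | h
        · exact Or.inl ⟨h, hv.2⟩
        · exact Or.inr h
      have h2 := (ho a).trans ((Finset.card_le_card h1).trans (Finset.card_union_le _ _))
      omega
    have h6 := a1 (A := A) (k := dp) (K := dp + dm) (e := e) hm hcl hKp F S ⟨v0, hv0⟩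
      (fun a _ => ho a) (fun s _ => (degrees hm hcl ho hi hn s).2.1) (by omega) (by omega) hcut (by omega) hdeg
    omega

/-- the dual statement -/
theorem excess' (hm : 5000 ≤ m) (hcl : NoCl A m) (ho : ∀ v, dp ≤ (Finset.univ.filter fun u => A v u).card)
    (hi : ∀ v, dm ≤ (Finset.univ.filter fun u => A u v).card) (hn : 2 * Fintype.card V ≤ m * (dp + dm))
    (F : Finset V) (hF : F.Nonempty) (hFu : outN (fun a b => A b a) F ≠ Finset.univ) :
    m * (F.card + dm) ≤ m * (outN (fun a b => A b a) F).card + 552 * (dp + dm) := by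
  have h := excess (A := fun a b => A b a) (dp := dm) (dm := dp) hm (CUT_.nocl_flip hcl) hi ho
    (by rw [add_comm dm dp]; exact hn) F hF hFu
  rwa [add_comm dm dp] at h

end Exc_

end Pool.Agent.Lib.MP_83608f_co.AV
end
end

section
/-!
# MP_83608f_co, part AV: macro positions, windings, and the localisation of the labels (helper3)

`m` is large, `A` has no closed walk of length `1, .., m`, out-degrees `≥ dp`, in-degrees `≥ dm`, `2 n ≤ m (dp + dm)`.
`η = m / h`.  There are positions `P : V → ℤ` and windings `φ : V → V → ℤ` such that a walk of length `L ≤ m / 2` and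
winding `W` from `x` to `y` satisfies `-η ≤ P y - P x + m W ≤ L + η`, and conversely.  For the labels of `Pot` a walk of
length at most `m / 2` drops at most `4 η` steps.
-/
set_option autoImplicit false

open Classical Finset

noncomputable section

namespace Pool.Agent.Lib.MP_83608f_co.AV

open Pool.Agent.Lib.MP_83608f_co.CN
open LAY_ (cb)

namespace Mac_

variable {V : Type} [Fintype V] {A : V → V → Prop} {m dp dm : ℕ}

/-- the distance (`0` if there is no walk) -/
def dst (A : V → V → Prop) (x y : V) : ℕ := sInf {j | y ∈ cb A x j}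

lemma mem_cb_trans {x y z : V} {i : ℕ} (hy : y ∈ cb A x i) : ∀ {j : ℕ}, z ∈ cb A y j → z ∈ cb A x (i + j)
  | 0, hz => by
    rw [cb, mem_singleton] at hz
    rw [hz]
    exact hy
  | j + 1, hz => by
    rcases FIN_.mem_outN.1 hz with h | ⟨w, hw, h⟩
    · exact LAY_.cb_sub x _ (mem_cb_trans hy h)
    · exact FIN_.mem_outN.2 (Or.inr ⟨w, mem_cb_trans hy hw, h⟩)

lemma exists_cb {x y : V} (h : Relation.ReflTransGen A x y) : ∃ j, y ∈ cb A x j := by
  induction h with
  | refl => exact ⟨0, by rw [cb, mem_singleton]⟩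
  | tail _ ha ih =>
    obtain ⟨j, hj⟩ := ih
    exact ⟨j + 1, FIN_.mem_outN.2 (Or.inr ⟨_, hj, ha⟩)⟩

variable (hconn : ∀ x y, Relation.ReflTransGen A x y)

include hconn in
lemma mem_dst (x y : V) : y ∈ cb A x (dst A x y) := Nat.sInf_mem (exists_cb (hconn x y))

include hconn in
lemma mem_cb_iff {x y : V} {t : ℕ} : y ∈ cb A x t ↔ dst A x y ≤ t :=
  ⟨fun h => Nat.sInf_le h, fun h => LIM.FIN_.cb_mono x h (mem_dst hconn x y)⟩

lemma wk_cb {φ : V → V → ℤ} {x y : V} {L : ℕ} {W : ℤ} (h : Wk A φ x y L W) : y ∈ cb A x L := by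
  induction h with
  | nil => rw [cb, mem_singleton]
  | snoc _ ha ih => exact FIN_.mem_outN.2 (Or.inr ⟨_, ih, ha⟩)

lemma cb_wk (φ : V → V → ℤ) {x y : V} : ∀ {j : ℕ}, y ∈ cb A x j → ∃ L W, L ≤ j ∧ Wk A φ x y L W
  | 0, h => by
    rw [cb, mem_singleton] at h
    rw [h]
    exact ⟨0, 0, le_rfl, Wk.nil x⟩
  | j + 1, h => by
    rcases FIN_.mem_outN.1 h with h | ⟨w, hw, h⟩
    · obtain ⟨L, W, h1, h2⟩ := cb_wk φ h
      exact ⟨L, W, by omega, h2⟩
    · obtain ⟨L, W, h1, h2⟩ := cb_wk φ hw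
      exact ⟨L + 1, W + φ w y, by omega, h2.snoc h⟩

omit [Fintype V] in
/-- no short closed walks -/
lemma nocl_wk {φ : V → V → ℤ} (hcl : NoCl A m) {x : V} {L : ℕ} {W : ℤ} (h : Wk A φ x x L W) (hL : 1 ≤ L) : m < L := by
  by_contra hm
  have key : ∀ {y z : V} {L : ℕ} {W : ℤ}, Wk A φ y z L W → EM.Wk (⟨A⟩ : Digraph V) L y z := by
    intro y z L W h
    induction h with
    | nil => rfl
    | snoc _ ha ih => exact EM.Wk.snoc ih ha
  exact hcl L hL (by omega) x (key h)

include hconn in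
lemma dst_tri (u v w : V) : dst A u w ≤ dst A u v + dst A v w :=
  (mem_cb_iff hconn).1 (mem_cb_trans (mem_dst hconn u v) (mem_dst hconn v w))

include hconn in
lemma dst_girth (hcl : NoCl A m) (u v : V) (h : u ≠ v) : m + 1 ≤ dst A u v + dst A v u := by
  obtain ⟨L, W, h1, h2⟩ := cb_wk (fun _ _ => 0) (mem_dst hconn u v)
  obtain ⟨L', W', h3, h4⟩ := cb_wk (fun _ _ => 0) (mem_dst hconn v u)
  have hL : 1 ≤ L := by
    by_contra hL
    have : L = 0 := by omega
    subst this
    cases h2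
    exact h rfl
  have := nocl_wk hcl (h2.append h4) (by omega)
  omega

include hconn in
lemma Bo_eq (v : V) (t : ℕ) : QMac.Bo (dst A) v t = cb A v t := by
  ext u
  rw [QMac.mem_Bo, mem_cb_iff hconn]

include hconn in
lemma Bi_eq (v : V) (t : ℕ) : QMac.Bi (dst A) v t = cb (fun a b => A b a) v t := by
  ext u
  rw [QMac.mem_Bi, ← mem_cb_iff hconn]
  exact ⟨fun h => LIM.FIN_.walk_flip (A := fun a b => A b a) t u v h, fun h => LIM.FIN_.walk_flip t v u h⟩

/-- the ball bounds, in one form -/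
lemma low (hm : 5000 ≤ m) (hcl : NoCl A m) (ho : ∀ v, dp ≤ (Finset.univ.filter fun u => A v u).card)
    (hi : ∀ v, dm ≤ (Finset.univ.filter fun u => A u v).card) (hn : 2 * Fintype.card V ≤ m * (dp + dm)) (v : V) (t : ℕ)
    (ht : t ≤ m) : t * (dp + dm) ≤ 2 * (cb A v t).card + 92 * (dp + dm) ∧
      t * (dp + dm) ≤ 2 * (cb (fun a b => A b a) v t).card + 92 * (dp + dm) := by
  obtain ⟨-, -, h1, h2⟩ := Exc_.degrees hm hcl ho hi hn v
  have h3 := Exc_.growth hcl ho v t ht
  have h4 := Exc_.growth (A := fun a b => A b a) (CUT_.nocl_flip hcl) hi v t ht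
  have e1 : t * dm ≤ t * dp + 92 * dm := by
    rcases Nat.le_total dm dp with h | h
    · have := Nat.mul_le_mul_left t h
      omega
    · obtain ⟨e, he⟩ := Nat.exists_eq_add_of_le h
      have h5 : m * e ≤ 92 * dm := by
        rw [he, mul_add] at h2
        rw [he]
        omega
      have h6 : t * e ≤ m * e := Nat.mul_le_mul_right e ht
      rw [he, mul_add, ← he]
      omega
  have e2 : t * dp ≤ t * dm + 92 * dp := by
    rcases Nat.le_total dp dm with h | h
    · have := Nat.mul_le_mul_left t h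
      omega
    · obtain ⟨e, he⟩ := Nat.exists_eq_add_of_le h
      have h5 : m * e ≤ 92 * dp := by
        rw [he, mul_add] at h1
        rw [he]
        omega
      have h6 : t * e ≤ m * e := Nat.mul_le_mul_right e ht
      rw [he, mul_add, ← he]
      omega
  rw [mul_add]
  constructor <;> omega

include hconn in
theorem qm [Nonempty V] (hm : 5000 ≤ m) (hcl : NoCl A m) (ho : ∀ v, dp ≤ (Finset.univ.filter fun u => A v u).card)
    (hi : ∀ v, dm ≤ (Finset.univ.filter fun u => A u v).card) (hn : 2 * Fintype.card V ≤ m * (dp + dm))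
    (hK : 1 ≤ dp + dm) : QMac.QM m (((dp + dm : ℕ) : ℝ) / 2) 94 (dst A) where
  self v := by
    have := (mem_cb_iff hconn (x := v) (y := v) (t := 0)).1 (by rw [cb, mem_singleton])
    omega
  tri := dst_tri hconn
  girth := dst_girth hconn hcl
  out_le v t ht := by
    rw [Bo_eq hconn]
    have h1 := LIM.FIN_.two hcl t (m - t) (by omega) v
    have h2 := (low hm hcl ho hi hn v (m - t) (by omega)).2
    have h3 : (m - t) * (dp + dm) + t * (dp + dm) = m * (dp + dm) := by
      rw [← add_mul]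
      congr 1
      omega
    have h4 : 2 * (cb A v t).card ≤ t * (dp + dm) + 94 * (dp + dm) := by omega
    have h5 : (2 : ℝ) * (cb A v t).card ≤ t * ((dp + dm : ℕ) : ℝ) + 94 * ((dp + dm : ℕ) : ℝ) := by exact_mod_cast h4
    push_cast at h5 ⊢
    linarith
  out_ge v t ht := by
    rw [Bo_eq hconn]
    have h2 := (low hm hcl ho hi hn v t ht).1
    have h5 : t * ((dp + dm : ℕ) : ℝ) ≤ 2 * ((cb A v t).card : ℝ) + 92 * ((dp + dm : ℕ) : ℝ) := by exact_mod_cast h2
    have h6 : (1 : ℝ) ≤ ((dp + dm : ℕ) : ℝ) := by exact_mod_cast hK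
    push_cast at h5 h6 ⊢
    linarith
  in_ge v t ht := by
    rw [Bi_eq hconn]
    have h2 := (low hm hcl ho hi hn v t ht).2
    have h5 : t * ((dp + dm : ℕ) : ℝ) ≤ 2 * ((cb (fun a b => A b a) v t).card : ℝ) + 92 * ((dp + dm : ℕ) : ℝ) := by
      exact_mod_cast h2
    have h6 : (1 : ℝ) ≤ ((dp + dm : ℕ) : ℝ) := by exact_mod_cast hK
    push_cast at h5 h6 ⊢
    linarith
  n_le := by
    have h5 : (2 : ℝ) * Fintype.card V ≤ m * ((dp + dm : ℕ) : ℝ) := by exact_mod_cast hn
    linarith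
  hκ := by
    have h6 : (1 : ℝ) ≤ ((dp + dm : ℕ) : ℝ) := by exact_mod_cast hK
    linarith
  hm := by omega

end Mac_

/-- **macro positions** with error `η` -/
structure Mac {V : Type} (A : V → V → Prop) (φ : V → V → ℤ) (m η : ℕ) (P : V → ℤ) : Prop where
  nonneg : ∀ u, 0 ≤ P u
  le : ∀ u, P u ≤ m + η
  lo : ∀ x y L W, Wk A φ x y L W → 2 * L ≤ m → -(η : ℤ) ≤ P y - P x + m * W
  up : ∀ x y L W, Wk A φ x y L W → 2 * L ≤ m → P y - P x + m * W ≤ L + η
  go : ∀ x y W, (η : ℤ) ≤ P y - P x + m * W → 4 * (P y - P x + m * W) ≤ m →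
    ∃ L : ℕ, (L : ℤ) ≤ P y - P x + m * W + η ∧ Wk A φ x y L W
  hit : ∀ t : ℕ, t + η ≤ m → ∃ u, (t : ℤ) ≤ P u ∧ P u ≤ t + η

namespace Mac_

variable {V : Type} [Fintype V] {A : V → V → Prop} {m dp dm : ℕ}

lemma eq_of_mul {m : ℕ} {k l : ℤ} (h1 : (m : ℤ) * k - m * l < m) (h2 : (m : ℤ) * l - m * k < m) : k = l := by
  rcases lt_trichotomy k l with h | h | h
  · exfalso
    have : (m : ℤ) * (k + 1) ≤ m * l := mul_le_mul_of_nonneg_left h (Int.natCast_nonneg m)
    rw [mul_add] at this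
    omega
  · exact h
  · exfalso
    have : (m : ℤ) * (l + 1) ≤ m * k := mul_le_mul_of_nonneg_left h (Int.natCast_nonneg m)
    rw [mul_add] at this
    omega

theorem exists_mac (h : ℕ) (hh : 32 ≤ h) : ∃ M1 : ℕ, ∀ (V : Type) [Fintype V] (A : V → V → Prop) (m dp dm : ℕ),
    M1 ≤ m → NoCl A m → (∀ v, dp ≤ (Finset.univ.filter fun u => A v u).card) →
    (∀ v, dm ≤ (Finset.univ.filter fun u => A u v).card) → 2 * Fintype.card V ≤ m * (dp + dm) → 1 ≤ dp + dm →
    Nonempty V → (∀ x y, Relation.ReflTransGen A x y) → ∃ (φ : V → V → ℤ) (P : V → ℤ), Mac A φ m (m / h) P := by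
  obtain ⟨M0, hM0⟩ := QMac.exists_pos 94 h (by omega)
  refine ⟨M0 + 5000 + 200 * h, fun V _ A m dp dm hm hcl ho hi hn hK hne hconn => ?_⟩
  have Q := qm hconn (by omega) hcl ho hi hn hK
  obtain ⟨P, hP0, hP1, hPs, hP, hJ⟩ := hM0 V m _ _ (by omega) Q hne
  obtain ⟨η, hη⟩ : ∃ η, η = m / h := ⟨_, rfl⟩
  rw [← hη] at hPs hP hJ ⊢
  have hη1 : 200 ≤ η := by
    rw [hη, Nat.le_div_iff_mul_le (by omega)]
    omega
  have hη2 : 32 * η ≤ m := by
    calc 32 * η ≤ h * η := Nat.mul_le_mul_right _ hh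
      _ ≤ m := by rw [hη]; exact Nat.mul_div_le _ _
  choose j hj1 hj2 hj3 hj4 using hJ
  have hirr : ∀ x, ¬ A x x := fun x hx => by
    have := nocl_wk (φ := fun _ _ => 0) hcl (Wk.one hx) le_rfl
    omega
  obtain ⟨φ, hφ⟩ : ∃ φ : V → V → ℤ, φ = fun x y => if hxy : x ≠ y then j x y hxy else 0 := ⟨_, rfl⟩
  have main : ∀ x y L W, Wk A φ x y L W → 2 * L ≤ m → -(η : ℤ) ≤ P y - P x + m * W ∧
      P y - P x + m * W ≤ L + η := by
    intro x y L W hw
    induction hw with
    | nil =>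
      intro _
      rw [mul_zero]
      omega
    | @snoc y z L W hw ha ih =>
      intro hL
      obtain ⟨ih1, ih2⟩ := ih (by omega)
      have hyz : y ≠ z := fun h => hirr z (h ▸ ha)
      have hxz : x ≠ z := fun h => by
        subst h
        have := nocl_wk hcl (hw.snoc ha) (by omega)
        omega
      have d1 : dst A y z ≤ 1 := (mem_cb_iff hconn).1 (wk_cb (φ := φ) (Wk.one ha))
      have d2 : dst A x z ≤ L + 1 := (mem_cb_iff hconn).1 (wk_cb (hw.snoc ha))
      have a1 := hj3 y z hyz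
      have a2 := hj4 y z hyz
      have b1 := hj3 x z hxz
      have b2 := hj4 x z hxz
      have e1 : φ y z = j y z hyz := by rw [hφ]; simp only [dif_pos hyz]
      rw [e1, mul_add]
      have key : W + j y z hyz = j x z hxz := by
        apply eq_of_mul (m := m) <;> rw [mul_add] <;> omega
      rw [← mul_add, key]
      push_cast at *
      omega
  refine ⟨φ, P, hP0, fun u => (hP1 u).trans (by omega), fun x y L W h1 h2 => (main x y L W h1 h2).1,
    fun x y L W h1 h2 => (main x y L W h1 h2).2, ?_, hPs⟩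
  intro x y W h1 h2
  have p1 := hP0 x
  have p2 := hP0 y
  have p3 := hP1 x
  have p4 := hP1 y
  have hW0 : 0 ≤ W := by
    by_contra hW
    have : (m : ℤ) * W ≤ m * (-1) := mul_le_mul_of_nonneg_left (by omega) (Int.natCast_nonneg m)
    omega
  have hW1 : W ≤ 1 := by
    by_contra hW
    have : (m : ℤ) * 2 ≤ m * W := mul_le_mul_of_nonneg_left (by omega) (Int.natCast_nonneg m)
    omega
  have hd : (dst A x y : ℤ) ≤ P y - P x + m * W + η := by
    refine hP x y _ ?_ h1 (by omega)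
    rcases (by omega : W = 0 ∨ W = 1) with h | h
    · left
      rw [h]
      ring
    · right
      rw [h]
      ring
  obtain ⟨L, W', hL, hw⟩ := cb_wk φ (mem_dst hconn x y)
  have hLm : 2 * L ≤ m := by omega
  obtain ⟨g1, g2⟩ := main x y L W' hw hLm
  have : W' = W := by
    apply eq_of_mul (m := m) <;> omega
  subst this
  exact ⟨L, by omega, hw⟩

end Mac_

namespace Mac

variable {V : Type} {A : V → V → Prop} {φ : V → V → ℤ} {m η : ℕ} {P : V → ℤ}

/-- short walks with the same ends have the same winding -/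
theorem wind_unique (M : Mac A φ m η P) (hη : 32 * η ≤ m) (hm : 1 ≤ m) {x y : V} {L L' : ℕ} {W W' : ℤ}
    (h : Wk A φ x y L W) (h' : Wk A φ x y L' W') (hL : 2 * L ≤ m) (hL' : 2 * L' ≤ m) : W = W' := by
  have h1 := M.lo _ _ _ _ h hL
  have h2 := M.up _ _ _ _ h hL
  have h3 := M.lo _ _ _ _ h' hL'
  have h4 := M.up _ _ _ _ h' hL'
  apply Mac_.eq_of_mul (m := m) <;> omega

/-- an intermediate vertex at displacement about `m / 8` -/
theorem mid (M : Mac A φ m η P) (hη : 32 * η ≤ m) (hη1 : 1 ≤ η) (x : V) : ∃ z W, m ≤ 8 * (P z - P x + m * W) ∧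
    8 * (P z - P x + m * W) ≤ m + 16 * η + 8 := by
  obtain ⟨s, hs⟩ : ∃ s, s = m / 8 + 1 := ⟨_, rfl⟩
  have hs1 : m ≤ 8 * s := by omega
  have hs2 : 8 * s ≤ m + 8 := by omega
  have p1 := M.nonneg x
  have p2 := M.le x
  obtain ⟨px, hpx⟩ := Int.eq_ofNat_of_zero_le p1
  rw [hpx] at p2 ⊢
  by_cases c1 : px + s + η ≤ m
  · obtain ⟨z, h1, h2⟩ := M.hit (px + s) c1
    exact ⟨z, 0, by push_cast at *; omega, by push_cast at *; omega⟩
  by_cases c2 : px + s ≤ m
  · obtain ⟨z, h1, h2⟩ := M.hit 0 (by omega)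
    exact ⟨z, 1, by push_cast at *; omega, by push_cast at *; omega⟩
  · obtain ⟨z, h1, h2⟩ := M.hit (px + s - m) (by omega)
    exact ⟨z, 1, by omega, by omega⟩

theorem go_far (M : Mac A φ m η P) (hη : 32 * η ≤ m) (hη1 : 1 ≤ η) : ∀ (k : ℕ) (x y : V) (W : ℤ),
    (η : ℤ) ≤ P y - P x + m * W → 8 * (P y - P x + m * W) ≤ (2 + k) * m →
    ∃ L : ℕ, (L : ℤ) ≤ P y - P x + m * W + (k + 1) * η ∧ Wk A φ x y L W := by
  intro k
  induction k with
  | zero =>
    intro x y W h1 h2
    obtain ⟨L, h3, h4⟩ := M.go x y W h1 (by push_cast at h2; omega)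
    exact ⟨L, by push_cast; omega, h4⟩
  | succ k ih =>
    intro x y W h1 h2
    by_cases c : 4 * (P y - P x + m * W) ≤ m
    · obtain ⟨L, h3, h4⟩ := M.go x y W h1 c
      refine ⟨L, ?_, h4⟩
      have : (0 : ℤ) ≤ (k + 1) * η := by positivity
      push_cast
      linarith
    · obtain ⟨z, W1, h3, h4⟩ := M.mid hη hη1 x
      obtain ⟨D1, hD1⟩ : ∃ D1, D1 = P z - P x + m * W1 := ⟨_, rfl⟩
      obtain ⟨D, hD⟩ : ∃ D, D = P y - P x + m * W := ⟨_, rfl⟩
      have e1 : P y - P z + m * (W - W1) = D - D1 := by rw [hD, hD1]; ring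
      rw [← hD] at h1 h2 c ⊢
      rw [← hD1] at h3 h4
      obtain ⟨L1, h5, h6⟩ := M.go x z W1 (by rw [← hD1]; omega) (by rw [← hD1]; omega)
      obtain ⟨L2, h7, h8⟩ := ih z y (W - W1) (by rw [e1]; omega) (by
        rw [e1]
        push_cast at h2
        have : ((2 : ℤ) + (k + 1)) * m = (2 + k) * m + m := by ring
        rw [this] at h2
        omega)
      rw [← hD1] at h5
      rw [e1] at h7
      refine ⟨L1 + L2, ?_, ?_⟩
      · push_cast
        linarith
      · have := h6.append h8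
        rwa [add_sub_cancel] at this

/-- **(A3)** a short walk can be closed to a lap -/
theorem back (M : Mac A φ m η P) (hη : 32 * η ≤ m) (hη1 : 1 ≤ η) {x y : V} {L : ℕ} {W : ℤ} (h : Wk A φ x y L W)
    (hL : 4 * L ≤ m) : ∃ L', L' ≤ m + 9 * η ∧ Wk A φ y x L' (1 - W) := by
  have h1 := M.lo _ _ _ _ h (by omega)
  have h2 := M.up _ _ _ _ h (by omega)
  have e : P x - P y + m * (1 - W) = m - (P y - P x + m * W) := by ring
  obtain ⟨L', h3, h4⟩ := M.go_far hη hη1 7 y x (1 - W) (by rw [e]; omega) (by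
    rw [e]
    push_cast
    omega)
  rw [e] at h3
  push_cast at h3
  exact ⟨L', by omega, h4⟩

/-- a closed walk of winding one -/
theorem lap (M : Mac A φ m η P) (hη : 32 * η ≤ m) (hη1 : 1 ≤ η) (x : V) : ∃ L', L' ≤ m + 9 * η ∧ Wk A φ x x L' 1 := by
  obtain ⟨L', h1, h2⟩ := M.back hη hη1 (Wk.nil x) (by omega)
  exact ⟨L', h1, by simpa using h2⟩

theorem exists_pos_wind (M : Mac A φ m η P) (hη : 32 * η ≤ m) (hη1 : 1 ≤ η) [Nonempty V] :
    ∃ x L W, Wk A φ x x L W ∧ 0 < W := by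
  obtain ⟨L, _, h⟩ := M.lap hη hη1 (Classical.arbitrary V)
  exact ⟨_, L, 1, h, one_pos⟩

/-- splitting off the last `s` arcs -/
theorem split_last {x : V} {L : ℕ} : ∀ (s : ℕ) {y : V} {W : ℤ}, Wk A φ x y (L + s) W →
    ∃ z W1 W2, Wk A φ x z L W1 ∧ Wk A φ z y s W2 ∧ W1 + W2 = W
  | 0, y, W, h => ⟨y, W, 0, h, Wk.nil y, add_zero W⟩
  | s + 1, y, W, h => by
    cases h with
    | snoc h ha =>
      obtain ⟨z, W1, W2, h1, h2, h3⟩ := split_last s h
      exact ⟨z, W1, _, h1, h2.snoc ha, by rw [← h3]; ring⟩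

/-- the speed of long walks -/
theorem speed (M : Mac A φ m η P) (s : ℕ) (hs : 2 * s ≤ m) (hs1 : 1 ≤ s) : ∀ (k : ℕ) (x y : V) (L : ℕ) (W : ℤ),
    L ≤ s * k → Wk A φ x y L W → (s : ℤ) * (P y - P x + m * W) ≤ (s + η) * L + s * η := by
  intro k
  induction k with
  | zero =>
    intro x y L W h1 h2
    have : L = 0 := by omega
    subst this
    cases h2
    simp
    positivity
  | succ k ih =>
    intro x y L W h1 h2
    rcases Nat.lt_or_ge L s with c | c
    · have h3 := M.up _ _ _ _ h2 (by omega)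
      have h4 : (s : ℤ) * (P y - P x + m * W) ≤ s * (L + η) := mul_le_mul_of_nonneg_left h3 (Int.natCast_nonneg s)
      have h5 : (0 : ℤ) ≤ η * L := by positivity
      linarith
    · obtain ⟨L', rfl⟩ : ∃ L', L = L' + s := ⟨L - s, by omega⟩
      obtain ⟨z, W1, W2, h3, h4, h5⟩ := split_last s h2
      have h6 := ih x z L' W1 (by rw [Nat.mul_succ] at h1; omega) h3
      have h7 := M.up _ _ _ _ h4 hs
      have h8 : (s : ℤ) * (P y - P z + m * W2) ≤ s * (s + η) := mul_le_mul_of_nonneg_left h7 (Int.natCast_nonneg s)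
      have e : P y - P x + m * W = (P z - P x + m * W1) + (P y - P z + m * W2) := by rw [← h5]; ring
      rw [e]
      push_cast
      linarith

theorem repeat_wk {x : V} {L : ℕ} {W : ℤ} (h : Wk A φ x x L W) : ∀ r : ℕ, Wk A φ x x (r * L) (r * W)
  | 0 => by simpa using Wk.nil x
  | r + 1 => by
    have := (repeat_wk h r).append h
    have e1 : r * L + L = (r + 1) * L := by ring
    have e2 : (r : ℤ) * W + W = ((r + 1 : ℕ) : ℤ) * W := by push_cast; ring
    rwa [e1, e2] at this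

theorem speed_closed (M : Mac A φ m η P) (s : ℕ) (hs : 2 * s ≤ m) (hs1 : 1 ≤ s) {x : V} {L : ℕ} {W : ℤ}
    (h : Wk A φ x x L W) : (s : ℤ) * (m * W) ≤ (s + η) * L := by
  by_contra hcon
  push Not at hcon
  obtain ⟨r, hr⟩ : ∃ r : ℕ, r = s * η + 1 := ⟨_, rfl⟩
  have h1 := M.speed s hs hs1 (r * L) x x (r * L) (r * W) (Nat.le_mul_of_pos_left _ hs1) (repeat_wk h r)
  rw [sub_self, zero_add] at h1
  have h2 : (r : ℤ) * ((s + η) * L + 1) ≤ r * (s * (m * W)) := mul_le_mul_of_nonneg_left hcon (Int.natCast_nonneg r)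
  have h3 : (r : ℤ) = s * η + 1 := by rw [hr]; push_cast; ring
  push_cast at h1
  nlinarith

/-- **(A2)** windings are at most `(1 + 3/h) L / m` -/
theorem wind_le (M : Mac A φ m η P) (h : ℕ) (hη : η * h ≤ m) (hm : 3 ≤ m) {x : V} {L : ℕ} {W : ℤ}
    (hw : Wk A φ x x L W) : (h : ℤ) * (m * W) ≤ (h + 3) * L := by
  obtain ⟨s, hs⟩ : ∃ s, s = m / 2 := ⟨_, rfl⟩
  have h1 := M.speed_closed s (by omega) (by omega) hw
  have h2 : m ≤ 3 * s := by omega
  have h3 : (0 : ℤ) < s := by
    have : 1 ≤ s := by omega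
    exact_mod_cast this
  have h4 : ((η : ℤ) * h) ≤ 3 * s := by exact_mod_cast hη.trans h2
  have h5 : (h : ℤ) * (s * (m * W)) ≤ h * ((s + η) * L) := mul_le_mul_of_nonneg_left h1 (Int.natCast_nonneg h)
  have h6 : ((η : ℤ) * h) * L ≤ 3 * s * L := mul_le_mul_of_nonneg_right h4 (Int.natCast_nonneg L)
  have h7 : (s : ℤ) * (h * (m * W)) ≤ s * ((h + 3) * L) := by nlinarith
  exact le_of_mul_le_mul_left h7 h3

/-- the tight predecessor -/
def pred (T : Pot A φ) (y : V) : V := (T.a_tight y).choose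

theorem pred_adj (T : Pot A φ) (y : V) : A (pred T y) y := (T.a_tight y).choose_spec.1

theorem pred_tight (T : Pot A φ) (y : V) : T.a y + T.q * φ (pred T y) y = T.a (pred T y) + T.p :=
  (T.a_tight y).choose_spec.2

/-- the tight backward walk from `y`, with its winding -/
def bk (T : Pot A φ) (y : V) : ℕ → V × ℤ
  | 0 => (y, 0)
  | i + 1 => (pred T (bk T y i).1, (bk T y i).2 + φ (pred T (bk T y i).1) (bk T y i).1)

theorem bk_wk (T : Pot A φ) (y : V) : ∀ i, Wk A φ (bk T y i).1 y i (bk T y i).2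
  | 0 => Wk.nil y
  | i + 1 => by
    have := (bk_wk T y i).cons (pred_adj T (bk T y i).1)
    rw [add_comm] at this
    simpa [bk, add_comm] using this

theorem bk_a (T : Pot A φ) (y : V) : ∀ i, T.a y + T.q * (bk T y i).2 = T.a (bk T y i).1 + T.p * i
  | 0 => by simp [bk]
  | i + 1 => by
    have h1 := bk_a T y i
    have h2 := pred_tight T (bk T y i).1
    simp only [bk]
    push_cast
    linarith [mul_add (T.q : ℤ) (bk T y i).2 (φ (pred T (bk T y i).1) (bk T y i).1)]

/-- **(M4)** a short walk drops at most `4 η` steps -/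
theorem drop [Fintype V] (M : Mac A φ m η P) (hη : 32 * η ≤ m) (hη1 : 1 ≤ η) (T : Pot A φ) {x y : V} {L : ℕ} {W : ℤ}
    (hw : Wk A φ x y L W) (hL : 2 * L ≤ m) : T.a x ≤ T.a y + T.q * W + T.p * (4 * η) := by
  -- the lifted positions of the backward walk
  obtain ⟨S, hS⟩ : ∃ S : ℕ → ℤ, S = fun i => P (bk T y i).1 - m * (bk T y i).2 := ⟨_, rfl⟩
  obtain ⟨X, hX⟩ : ∃ X : ℤ, X = P x - m * W - η := ⟨_, rfl⟩
  have hq : (0 : ℤ) < T.q := by exact_mod_cast T.hq
  have hp : (0 : ℤ) < T.p := by exact_mod_cast T.hp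
  have hm : (0 : ℤ) < m := by
    have : 0 < m := by omega
    exact_mod_cast this
  have hex : ∃ i, S i ≤ X := by
    obtain ⟨B, hB⟩ : ∃ B : ℤ, ∀ v, |T.a v| ≤ B :=
      ⟨∑ v, |T.a v|, fun v => single_le_sum (f := fun v => |T.a v|) (fun _ _ => abs_nonneg _) (mem_univ v)⟩
    -- choose `i` with `p i` large
    obtain ⟨C, hC⟩ : ∃ C : ℕ, (m : ℤ) + η - X ≤ C := ⟨(m + η - X).toNat, Int.self_le_toNat _⟩
    obtain ⟨i, hi⟩ : ∃ i : ℕ, i = T.q * C + 2 * B.toNat := ⟨_, rfl⟩
    refine ⟨i, ?_⟩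
    have h1 := bk_a T y i
    have h2 := abs_le.1 (hB y)
    have h3 := abs_le.1 (hB (bk T y i).1)
    have h4 := Int.self_le_toNat B
    have h5 : (i : ℤ) = T.q * C + 2 * B.toNat := by rw [hi]; push_cast; ring
    have h6 : (i : ℤ) ≤ T.p * i := by
      have : (0 : ℤ) ≤ i := Int.natCast_nonneg i
      nlinarith
    have h7 : (T.q : ℤ) * C ≤ T.q * (bk T y i).2 := by linarith [h2.1, h2.2, h3.1, h3.2]
    have h8 : (C : ℤ) ≤ (bk T y i).2 := le_of_mul_le_mul_left h7 hq
    have h9 : (C : ℤ) ≤ m * (bk T y i).2 := by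
      have hC0 : (0 : ℤ) ≤ C := Int.natCast_nonneg C
      nlinarith
    have h10 := M.le (bk T y i).1
    rw [hS]
    simp only
    linarith
  obtain ⟨i, hi⟩ : ∃ i, i = Nat.find hex := ⟨_, rfl⟩
  have hi1 : S i ≤ X := hi ▸ Nat.find_spec hex
  have hi2 : X ≤ S i + η + 1 := by
    rcases Nat.eq_zero_or_pos i with h0 | h0
    · have h1 := M.lo _ _ _ _ hw hL
      have h2 : S i = P y := by
        rw [h0, hS]
        simp [bk]
      rw [h2, hX]
      linarith [Int.natCast_nonneg η]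
    · obtain ⟨k, rfl⟩ : ∃ k, i = k + 1 := ⟨i - 1, by omega⟩
      have h1 : ¬ S k ≤ X := Nat.find_min hex (by rw [← hi]; omega)
      have h2 := M.up _ _ _ _ (Wk.one (φ := φ) (pred_adj T (bk T y k).1)) (by omega)
      have h3 : S (k + 1) = S k - (P (bk T y k).1 - P (pred T (bk T y k).1) + m * φ (pred T (bk T y k).1) (bk T y k).1) := by
        rw [hS]
        simp only [bk]
        ring
      push_cast at h2
      omega
  have e : P x - P (bk T y i).1 + m * ((bk T y i).2 - W) = X + η - S i := by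
    rw [hX, hS]
    ring
  obtain ⟨L', h1, h2⟩ := M.go (bk T y i).1 x ((bk T y i).2 - W) (by rw [e]; omega) (by rw [e]; omega)
  rw [e] at h1
  have h3 := h2.le_pot T.a_le
  have h4 := bk_a T y i
  have h5 : (T.p : ℤ) * L' ≤ T.p * (4 * η) := mul_le_mul_of_nonneg_left (by omega) hp.le
  have h6 : (0 : ℤ) ≤ T.p * i := by positivity
  rw [mul_sub] at h3
  linarith

/-- the period of the labels -/
theorem q_le (M : Mac A φ m η P) (hη : 32 * η ≤ m) (hη1 : 1 ≤ η) [Nonempty V] (T : Pot A φ) :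
    T.q ≤ T.p * (m + 9 * η) := by
  obtain ⟨L, h1, h2⟩ := M.lap hη hη1 (Classical.arbitrary V)
  have h3 := T.closed_le _ _ _ h2
  rw [mul_one] at h3
  have h4 : T.q ≤ T.p * L := by exact_mod_cast h3
  exact h4.trans (Nat.mul_le_mul_left _ h1)

/-- the critical speed is at most `(1 + 3/h) / m` -/
theorem p_le (M : Mac A φ m η P) (h : ℕ) (hη : η * h ≤ m) (hm : 3 ≤ m) (T : Pot A φ) :
    h * (m * T.p) ≤ (h + 3) * T.q := by
  have h1 : Wk A φ (T.c 0) (T.c 0) (T.q * T.g) (T.p * T.g) := by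
    have h2 := Wk.of_fun (A := A) (φ := φ) T.c (T.q * T.g) fun i _ => T.c_adj i
    have h3 := T.c_wind 0
    have h4 := T.c_per 0
    simp only [zero_add] at h3 h4
    rwa [h3, h4] at h2
  have h2 := M.wind_le h hη hm h1
  push_cast at h2
  have hg : (0 : ℤ) < T.g := by exact_mod_cast T.hg
  have h3 : ((h : ℤ) * (m * T.p)) * T.g ≤ ((h + 3) * T.q) * T.g := by nlinarith
  have h4 := le_of_mul_le_mul_right h3 hg
  exact_mod_cast h4

end Mac

end Pool.Agent.Lib.MP_83608f_co.AV
end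
end
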