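import Pool.Agent.Lib.MP_83608f_co.AV.Min
import Pool.Agent.Lib.MP_83608f_co.AV.Macro

/-!
# MP_83608f_co, part AV: Specs (helper50) of the LOC part; text: /team-store/MP_83608f_h87_LOC.md

Conventions: `K = dp + dm`, `Vio A m dp dm` (module Min) = minimal violator, `P : Pot A φ` (module Pot), `p = P.p`, `q = P.q`,
`a = P.a`.  The vertex `x` on the sheet `s` has the label `a x + q s`; an arc `x → y` goes from the sheet `s` to the sheet
`s + φ x y`.  `PP a p q l = |labels (l, l+p]|`, `QQ a p q l = |labels (l-p, l]|`, `EE P dp dm l = K - PP - QQ` = the surplus of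
the front `l` (the cut between the labels `≤ l` and the labels `> l`); everything has the period `q` in `l`.
Class order of the fronts: `l, l + p, l + 2p, ...`.
Module XXX = file AV/XXX.lean, `import ...AV.Spec`, namespace `Pool.Agent.Lib.MP_83608f_co.AV.S` (the names of this file are in
`AV.S`, because `Viol`, `SpecROT` also occur in other files of `AV`), own lemmas in `namespace XXX_`, final theorem
`specXXX : SpecXXX` (or from the Specs named in its docstring).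
-/

set_option autoImplicit false

open Classical

noncomputable section

namespace Pool.Agent.Lib.MP_83608f_co.AV.S

open Pool.Agent.Lib.MP_83608f_co.CN
open LAY_ (cb)
open SD_ (rs)

variable {V : Type} {A : V → V → Prop} {φ : V → V → ℤ}

/-- The output of the macro part for the labels of a `Pot` (`AV.Loc`, file AV/Loc.lean: `drop`: a walk of length `≤ m/8` drops the
label by at most `η p`; `speed`, `period`: the critical speed is close to `1/m`), and `10 ≤ η`. -/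
structure Loc (P : Pot A φ) (m η : ℕ) : Prop extends AV.Loc P m η where
  ten : 10 ≤ η

/-- the front `l` is violated: a walk of length `≤ m/16` goes from a label `> l + r p` to a label `≤ l` -/
def Viol (P : Pot A φ) (m r : ℕ) (l : ℤ) : Prop :=
  ∃ x y L W, Wk A φ x y L W ∧ 16 * L ≤ m ∧ ∃ s : ℤ, l + r * P.p < P.a x + P.q * s ∧ P.a y + P.q * (s + W) ≤ l

/-- the surplus of the front `l` -/
def EE [Fintype V] (P : Pot A φ) (dp dm : ℕ) (l : ℤ) : ℤ := (dp : ℤ) + dm - PP P.a P.p P.q l - QQ P.a P.p P.q l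

/-- MAC (helper3). -/
def SpecMAC : Prop := ∀ N : ℕ, ∃ M : ℕ, ∀ (V : Type) [Fintype V] [Nonempty V] (A : V → V → Prop) (m dp dm : ℕ), M ≤ m →
  NoCl A m → (∀ v, dp ≤ (Finset.univ.filter fun u => A v u).card) → (∀ v, dm ≤ (Finset.univ.filter fun u => A u v).card) →
  1 ≤ dp + dm → 2 * Fintype.card V ≤ m * (dp + dm) →
  ∃ (φ : V → V → ℤ) (η : ℕ), N * η ≤ m ∧ (∃ x L W, Wk A φ x x L W ∧ 0 < W) ∧ ∀ P : Pot A φ, Loc P m η

/-- GRO (growth inside a set, also used in ROT2): if every vertex reached from `x` inside `Q` in less than `j` steps has at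
least `δ` out-neighbours in `Q`, then the ball of radius `j` of `x` in `D[Q]` has at least `(j - c) δ` vertices.
[`LIMA2_.ball_all` / `LIM.specA2` and its twin trick: give the vertices at distance `j` arcs to `m + 1 - j` layers of `δ` twins.] -/
def SpecGRO : Prop := ∃ c : ℕ, ∀ (V : Type) [Fintype V] (A : V → V → Prop) (m δ j : ℕ) (Q : Finset V) (x : V),
  NoCl A m → x ∈ Q → j ≤ m → (∀ i < j, ∀ v ∈ cb (rs A Q) x i, δ ≤ (Q.filter fun u => A v u).card) →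
  j * δ ≤ (cb (rs A Q) x j).card + c * δ

/-- VIO (helper87), section 2 (V).  `x` above `l + r p`, `y` at or below `l`, `x ⇝ y` of length `≤ m/16`.  `B_t(y)` has labels
`≤ l + t p`, and `> l + r p - t' p` by `drop` from `x`; dually `B⁻_t'(x)`; they are disjoint in the base (girth), and
`m |B_t(y)| ≥ m t dp - 552 t K` (`Exc_.excess`). -/
def SpecVIO : Prop := ∀ (V : Type) [Fintype V] (A : V → V → Prop) (φ : V → V → ℤ) (m dp dm η : ℕ) (P : Pot A φ),
  Vio A m dp dm → 5000 ≤ m → Loc P m η → ∀ (r : ℕ) (l : ℤ), 1 ≤ r → Viol P m r l →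
  ∀ t t' : ℕ, η ≤ t → η ≤ t' → 32 * t ≤ m → 32 * t' ≤ m →
    (m : ℤ) * (t * dp + t' * dm) ≤
      m * (win P.a P.q (l + r * P.p - t' * P.p) (l + t * P.p)).card + 552 * (t + t') * (dp + dm)

/-- The bad set `U` of fronts: a union of blocks (in class order) around the violated fronts. `SU` = sum of the surplus over
`U`, `NO` = total negative surplus outside `U` (one period each). -/
def SU [Fintype V] (P : Pot A φ) (dp dm : ℕ) (U : ℤ → Prop) : ℤ :=
  ∑ l ∈ (Finset.Ico (0 : ℤ) P.q).filter U, EE P dp dm l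

def NO [Fintype V] (P : Pot A φ) (dp dm : ℕ) (U : ℤ → Prop) : ℤ :=
  ∑ l ∈ (Finset.Ico (0 : ℤ) P.q).filter (fun l => ¬ U l), max 0 (-EE P dp dm l)

/-- The properties of the bad set. `vio`: fronts within class distance 3 of a front outside `U` are not violated;
`gap`: `U` has no gaps of length 1 or 2 in class order; `siz`, `big`: the blocks have surplus `≤ - (1 - small) K`, and length
`≤ 8 η + 20`; `tot`: the AV-sum over `J = {l ∉ U, 0 ≤ EE l}` (all these fronts are clean by BACK). -/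
structure Fro [Fintype V] (P : Pot A φ) (m dp dm η : ℕ) (U : ℤ → Prop) : Prop where
  per : ∀ l, U (l + P.q) ↔ U l
  vio : ∀ l, ¬ U l → ∀ i : ℤ, |i| ≤ 3 → ¬ Viol P m 1 (l + i * P.p)
  gap : ∀ l, U l → ¬ U (l + P.p) → ¬ U (l + 2 * P.p) ∧ ¬ U (l + 3 * P.p)
  siz : 9 * ((dp : ℤ) + dm) * ((Finset.Ico (0 : ℤ) P.q).filter U).card ≤ 10 * (8 * (η : ℤ) + 20) * (-SU P dp dm U)
  big : (∃ l, U l) → ((dp : ℤ) + dm) * ((m : ℤ) - 100000 * η) ≤ (m : ℤ) * (-SU P dp dm U)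
  tot : NO P dp dm U - SU P dp dm U + P.q * ((dp : ℤ) + dm) < (dp + dm) + 2 * (P.p * Fintype.card V)

/-- CLU (helper87), pure: `e` and `Λ` have period `q` (index = class order), the blocks `[k - t', k + t]`, `h ≤ t, t' ≤ T`, around
`k ∈ Λ` have sum `≤ -θ`, `20 h ≤ T`: there is a periodic `U` which contains everything within distance `h` of `Λ`, has no gaps of
length 1 or 2, and consists of `b` blocks: sum over one period of `e` on `U` `≤ - θ b`, `|U| ≤ (8h+4) b`, `1 ≤ b` if `Λ ≠ ∅`,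
`U = ∅` if `Λ = ∅`. (Helper87 may change the form; only FRO uses it.) -/
def SpecCLU : Prop := ∀ (q h T : ℕ) (e : ℤ → ℤ) (Λ : ℤ → Prop) (θ : ℤ), 4 ≤ h → 20 * h ≤ T → 20 * h ≤ q → 0 ≤ θ →
  (∀ i, e (i + q) = e i) → (∀ i, Λ (i + q) ↔ Λ i) →
  (∀ k, Λ k → ∀ t t' : ℕ, h ≤ t → t ≤ T → h ≤ t' → t' ≤ T →
    ∑ i ∈ Finset.range (t + t' + 1), e (k - t' + i) ≤ -θ) →
  ∃ (U : ℤ → Prop) (b : ℕ), (∀ i, U (i + q) ↔ U i) ∧ (∀ k i : ℤ, Λ k → |i| ≤ (h : ℤ) → U (k + i)) ∧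
    (∀ i, U i → ¬ U (i + 1) → ¬ U (i + 2) ∧ ¬ U (i + 3)) ∧
    ∑ i ∈ (Finset.Ico (0 : ℤ) q).filter U, e i ≤ -(θ * b) ∧
    ((Finset.Ico (0 : ℤ) q).filter U).card ≤ (8 * h + 10) * b ∧ ((∃ i, Λ i) → 1 ≤ b) ∧ ((∃ i, U i) → ∃ i, Λ i)

/-- BAK (helper14), section 2 (BACK), `l` and `l - p` not violated. (i) `0 ≤ EE l` implies `Clean`. (ii) the vertices above `l`
which dominate a vertex at or below `l` are few; dual. (iii) the form for an arc `u → u'` over `l` (used for critical arcs).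
[(ii): `N⁺[z]` and `N⁻[X]` are disjoint and have labels in `(l-p, l+p]`; some `x ∈ X` has at most `2|X|/m` in-neighbours in `X`
by `Vio.ih`; (iii): `N⁺[Y]`, `N⁻[X]`; if `Y` is empty use `N⁺[u]`.] -/
def SpecBAK : Prop := ∀ (V : Type) [Fintype V] (A : V → V → Prop) (φ : V → V → ℤ) (m dp dm η : ℕ) (P : Pot A φ),
  Vio A m dp dm → 5000 ≤ m → Loc P m η → 1000 * η ≤ m → ∀ l : ℤ, ¬ Viol P m 1 l → ¬ Viol P m 1 (l - P.p) →
  (0 ≤ EE P dp dm l → Clean A P.a φ P.q l) ∧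
  (∀ (z : V) (s : ℤ), P.a z + P.q * s ≤ l →
    ((m : ℤ) - 2) * (Finset.univ.filter fun x => A x z ∧ l < P.a x + P.q * (s - φ x z)).card ≤ m * max 0 (-EE P dp dm l)) ∧
  (∀ (y : V) (s : ℤ), l < P.a y + P.q * s →
    ((m : ℤ) - 2) * (Finset.univ.filter fun z => A y z ∧ P.a z + P.q * (s + φ y z) ≤ l).card ≤ m * max 0 (-EE P dp dm l)) ∧
  (∀ (u u' : V) (s : ℤ), A u u' → P.a u + P.q * s ≤ l → l < P.a u' + P.q * (s + φ u u') →
    ((m : ℤ) - 2) * ((Finset.univ.filter fun x => A x u ∧ l < P.a x + P.q * (s - φ x u)).card +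
      (Finset.univ.filter fun z => A u' z ∧ P.a z + P.q * (s + φ u u' + φ u' z) ≤ l).card) ≤ m * max 0 (-EE P dp dm l))

/-- FRO (helper14 / helper87) from VIO, CLU, BAK and `bad_lt`.  Block sums of `EE` over `l + i p`, `-t' ≤ i ≤ t`, around a violated
front are `≤ -K + small` (half sum of the windows `(t+1, t'+1)` and `(t, t'+2)` of VIO, `|dp - dm| ≤ 92 K / m`). -/
def SpecFRO : Prop := ∃ N M : ℕ, ∀ (V : Type) [Fintype V] (A : V → V → Prop) (φ : V → V → ℤ) (m dp dm η : ℕ) (P : Pot A φ),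
  Vio A m dp dm → M ≤ m → Loc P m η → N * η ≤ m → ∃ U : ℤ → Prop, Fro P m dp dm η U

/-- ROA (helper89 / helper43), section 4: `q < p m` is impossible; from BAK and FRO. -/
def SpecROA : Prop := ∃ N M : ℕ, ∀ (V : Type) [Fintype V] (A : V → V → Prop) (φ : V → V → ℤ) (m dp dm η : ℕ) (P : Pot A φ)
  (U : ℤ → Prop), Vio A m dp dm → M ≤ m → Loc P m η → N * η ≤ m → Fro P m dp dm η U → ¬ P.q < P.p * m

/-! ### Section 5: `p = 1`, `q = m`.  The level `i` = vertices with a lift of label `i`, `XX P i` = its size. -/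

/-- size of the level `i` (case `p = 1`) -/
def XX [Fintype V] (P : Pot A φ) (i : ℤ) : ℤ := ((win P.a P.q (i - 1) i).card : ℤ)

/-- a front outside `U` whose surplus is at least `- K / (100 m)` -/
def Nice [Fintype V] (P : Pot A φ) (m dp dm : ℕ) (U : ℤ → Prop) (l : ℤ) : Prop :=
  ¬ U l ∧ 100 * (m : ℤ) * (-EE P dp dm l) ≤ dp + dm

/-- LOHA (helper72), the local inequality, from BAK.  `p = 1`, `q = m`; if the fronts `i-1, i, i+1, i+2` are nice then
`(m-46)(K - X(i-1) - X(i+3)) ≤ X(i) + X(i+1) + X(i+2) - K + K/49`.  PROOF.  `u = P.c j` with `j ≡ i (mod m)`, on the sheet where its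
label is `i`, and `w = P.c (j + 2 + (g-1) m + ...)` such that `w ⇝ u` in `m - 2` critical steps; label of the relevant lift of `w`
is `i + 2`; `N⁺(u) ∩ N⁻(w) = ∅` (closed walk of length `m`).  `N⁺(u)` has labels `≤ i+1`; labels `≤ i-1`: at most `b := K/(98m)`
vertices (BAK (ii), front `i-1`, nice); so `dp ≤ |N⁺(u) ∩ P_(i+1)| + o + b`, `o = |N⁺(u) ∩ P_i|`; dually (front `i+2`)
`dm ≤ |N⁻(w) ∩ P_(i+1)| + o' + b`, `o' = |N⁻(w) ∩ P_(i+2)|`; hence `K ≤ X(i+1) + o + o' + 2b`.  In `D[P_i]` all in-degrees are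
`≥ dm - X(i-1) - b` (front `i`), so the inner in-ball of radius `m-1` of `u` has `≥ (m-46)(dm - X(i-1) - b)` vertices
(`LIM.specA2`, constant 45) and misses `N⁺(u)`: `o ≤ X(i) - (m-46)(dm - X(i-1) - b)`; dually (front `i+1`)
`o' ≤ X(i+2) - (m-46)(dp - X(i+3) - b)`. -/
def SpecLOHA : Prop := ∃ N M : ℕ, ∀ (V : Type) [Fintype V] (A : V → V → Prop) (φ : V → V → ℤ) (m dp dm η : ℕ) (P : Pot A φ)
  (U : ℤ → Prop), Vio A m dp dm → M ≤ m → Loc P m η → N * η ≤ m → Fro P m dp dm η U → P.p = 1 → P.q = m →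
  ∀ i : ℤ, Nice P m dp dm U (i - 1) → Nice P m dp dm U i → Nice P m dp dm U (i + 1) → Nice P m dp dm U (i + 2) →
    49 * (((m : ℤ) - 46) * ((dp : ℤ) + dm - XX P (i - 1) - XX P (i + 3))) ≤
      49 * (XX P i + XX P (i + 1) + XX P (i + 2) - ((dp : ℤ) + dm)) + (dp + dm)

/-- LOHB (helper36), the pointwise bound, from GRO.  `p = 1`, `q = m`; if the front `j - 2` or the front `j + 1` is not in `U` then
`m (K - 2 X(j)) ≤ C K`.  PROOF (front `j-2 ∉ U`; the other case is the same for the reversed digraph, or with in-balls):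
`v` a vertex with label `j-1`, `Q = P_(j-1) ∪ P_(j-2)`, `|Q| = K - EE (j-2) < 2K` since `-EE (j-2) ≤ NO < K` (`Fro.tot`, `siz`, `2n ≤ mK`).
A vertex reached from `v` inside `Q` in `< r₀ := m/16` steps has no out-neighbour with label `≤ j-3` (front `j-3` is not violated,
`Fro.vio`), so at least `dp - X(j)` in `Q`; GRO: `(r₀ - c)(dp - X(j)) ≤ 2K`; and `|dp - dm| ≤ 92 K / m` (`Exc_.degrees`). -/
def SpecLOHB : Prop := ∃ C N M : ℕ, ∀ (V : Type) [Fintype V] (A : V → V → Prop) (φ : V → V → ℤ) (m dp dm η : ℕ) (P : Pot A φ)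
  (U : ℤ → Prop), Vio A m dp dm → M ≤ m → Loc P m η → N * η ≤ m → Fro P m dp dm η U → P.p = 1 → P.q = m →
  ∀ j : ℤ, (¬ U (j - 2) ∨ ¬ U (j + 1)) → (m : ℤ) * ((dp : ℤ) + dm - 2 * XX P j) ≤ C * (dp + dm)

/-- LOHC (helper43), pure summation: `X` has period `m`, `E l = K - X l - X (l+1)`; from the conclusions of LOHA, LOHB and the
properties of `U` one gets that `U` is empty.  PROOF.  `Y = K - 2X`, `2 E l = Y l + Y (l+1)`, `Σ Y = mK - 2n ≥ 0` (one period), `S` = sum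
of `E` over `U`.  Suppose `U ≠ ∅`: `m(-S) ≥ K (m - 10^5 η)`, and by the total `-S < K`, `NO < K + S ≤ 10^5 η K/m`; so at most `10^7 η`
fronts outside `U` are not nice, and `|U| ≤ 12 η` (`siz`).  `G` = set of the `i` such that the fronts `i-1, .., i+2` are nice.
(1) `2 Σ_(i ∈ G) (K - X(i-1) - X(i+3)) = Σ_j c_j Y_j`, `c_j = [j..j+3 nice] + [j-4..j-1 nice]`; `Σ_j ([U j] + [U (j-1)]) Y_j = 2 S`;
`r_j := 2 - c_j - [U j] - [U (j-1)] ≥ 0`, `r_j = 0` if `U j` and `U (j-1)`; if not both, `Y_j ≤ C K/m` by LOHB (`gap`: `U (j-2)`,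
`¬ U (j-1)` imply `¬ U j`, `¬ U (j+1)`; and `U (j-1)`, `¬ U j` imply `¬ U (j+1)`).  `r_j > 0` only if one of the fronts `j-4, .., j+3` is
not nice.  So `Σ c_j Y_j = 2 Σ Y - 2 S - Σ r_j Y_j ≥ 2K - small K`.  (2) sum LOHA over `G`: left side `≥ 49 (m-46) K (1 - small)`; right
side `≤ 49 (3n - |G| K) + m K ≤ 49 (3mK/2 - mK + small) + mK`, as `X ≥ 0`, `Σ X = n`.  Contradiction (`49 > 49/2 + 1`). -/
def SpecLOHC : Prop := ∀ C : ℕ, ∃ N M : ℕ, ∀ (m η n : ℕ) (K : ℤ) (X : ℤ → ℤ) (U : ℤ → Prop), M ≤ m → 10 ≤ η → N * η ≤ m → 1 ≤ K →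
  2 * (n : ℤ) ≤ m * K → (∀ i, X (i + m) = X i) → (∀ i, 0 ≤ X i) → ∑ i ∈ Finset.Ico (0 : ℤ) m, X i = n →
  (∀ l, U (l + m) ↔ U l) → (∀ l, U l → ¬ U (l + 1) → ¬ U (l + 2) ∧ ¬ U (l + 3)) →
  9 * K * ((Finset.Ico (0 : ℤ) m).filter U).card ≤
    10 * (8 * (η : ℤ) + 20) * (-∑ l ∈ (Finset.Ico (0 : ℤ) m).filter U, (K - X l - X (l + 1))) →
  ((∃ l, U l) → K * ((m : ℤ) - 100000 * η) ≤ (m : ℤ) * (-∑ l ∈ (Finset.Ico (0 : ℤ) m).filter U, (K - X l - X (l + 1)))) →
  ∑ l ∈ (Finset.Ico (0 : ℤ) m).filter (fun l => ¬ U l), max 0 (-(K - X l - X (l + 1))) -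
    ∑ l ∈ (Finset.Ico (0 : ℤ) m).filter U, (K - X l - X (l + 1)) + m * K < K + 2 * n →
  (∀ i, (∀ l, i - 1 ≤ l → l ≤ i + 2 → ¬ U l ∧ 100 * (m : ℤ) * (-(K - X l - X (l + 1))) ≤ K) →
    49 * (((m : ℤ) - 46) * (K - X (i - 1) - X (i + 3))) ≤ 49 * (X i + X (i + 1) + X (i + 2) - K) + K) →
  (∀ j, (¬ U (j - 2) ∨ ¬ U (j + 1)) → (m : ℤ) * (K - 2 * X j) ≤ C * K) →
  ∀ l, ¬ U l

/-- LOH (helper50) from LOHA, LOHB, LOHC: `p = 1`, `q = m`: no front is violated. -/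
def SpecLOH : Prop := ∃ N M : ℕ, ∀ (V : Type) [Fintype V] (A : V → V → Prop) (φ : V → V → ℤ) (m dp dm η : ℕ) (P : Pot A φ)
  (U : ℤ → Prop), Vio A m dp dm → M ≤ m → Loc P m η → N * η ≤ m → Fro P m dp dm η U → P.p = 1 → P.q = m →
  ∀ l : ℤ, ¬ Viol P m 1 l

/-- ROT2 (helper47, SpecR.lean). -/
def SpecROT : Prop := ∃ N M : ℕ, ∀ (V : Type) [Fintype V] (A : V → V → Prop) (φ : V → V → ℤ) (m dp dm η : ℕ) (P : Pot A φ),
  Vio A m dp dm → M ≤ m → Loc P m η → N * η ≤ m → P.p = 1 → P.q = m → (∀ l : ℤ, ¬ Viol P m 1 l) → False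

/-- TOP (helper50) from MAC, FRO, ROA, LOH, ROT: the average form for all large `m`. -/
def SpecTOP : Prop := ∃ M : ℕ, ∀ m, M ≤ m → AVm m

end Pool.Agent.Lib.MP_83608f_co.AV.S
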