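import Pool.Agent.Lib.MP_83608f_co.AV.Spec
import Pool.Agent.Lib.MP_83608f_co.AV.Macro
import Pool.Agent.Lib.MP_83608f_co.EXA.TOP

section
/-! # MP_83608f_co, part AV: module MAC (helper3): `SpecMAC` from `Macro`. -/
set_option autoImplicit false

open Classical

noncomputable section

namespace Pool.Agent.Lib.MP_83608f_co.AV.S

open Pool.Agent.Lib.MP_83608f_co.CN
open LAY_ (cb)

namespace MAC_

variable {V : Type} [Fintype V] {A : V → V → Prop} {m dp dm : ℕ}

lemma conn (hm : 5000 ≤ m) (hcl : NoCl A m) (ho : ∀ v, dp ≤ (Finset.univ.filter fun u => A v u).card)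
    (hi : ∀ v, dm ≤ (Finset.univ.filter fun u => A u v).card) (hK : 1 ≤ dp + dm)
    (hn : 2 * Fintype.card V ≤ m * (dp + dm)) (x y : V) : Relation.ReflTransGen A x y := by
  have h1 := (Mac_.low hm hcl ho hi hn x m le_rfl).1
  have h2 := (Mac_.low hm hcl ho hi hn y 200 (by omega)).2
  have h3 : ¬ Disjoint (cb A x m) (cb (fun a b => A b a) y 200) := by
    intro h
    have h4 := Finset.card_le_univ (cb A x m ∪ cb (fun a b => A b a) y 200)
    rw [Finset.card_union_of_disjoint h] at h4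
    omega
  rw [Finset.not_disjoint_iff] at h3
  obtain ⟨z, hz1, hz2⟩ := h3
  exact (Min_.reach_cb x m z hz1).trans (Min_.reach_cb' y 200 z hz2)

end MAC_

theorem specMAC : SpecMAC := by
  intro N
  obtain ⟨h, hh⟩ : ∃ h, h = 9 * N + 32 := ⟨_, rfl⟩
  obtain ⟨M1, hM1⟩ := Mac_.exists_mac h (by omega)
  refine ⟨M1 + 5000 + 10 * h, fun V _ _ A m dp dm hm hcl ho hi hK hn => ?_⟩
  have hconn := MAC_.conn (by omega) hcl ho hi hK hn
  obtain ⟨φ, P, M⟩ := hM1 V A m dp dm (by omega) hcl ho hi hn hK inferInstance hconn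
  obtain ⟨η, hη⟩ : ∃ η, η = m / h := ⟨_, rfl⟩
  rw [← hη] at M
  have h1 : 10 ≤ η := by
    rw [hη, Nat.le_div_iff_mul_le (by omega)]
    omega
  have h2 : h * η ≤ m := by rw [hη]; exact Nat.mul_div_le _ _
  have h3 : m < h * (η + 1) := by rw [hη]; exact Nat.lt_mul_div_succ m (by omega)
  have h4 : 32 * η ≤ m := (Nat.mul_le_mul_right _ (by omega)).trans h2
  refine ⟨φ, 9 * η, ?_, M.exists_pos_wind h4 (by omega), fun T => ⟨⟨?_, ?_, ?_⟩, by omega⟩⟩
  · calc N * (9 * η) = 9 * N * η := by ring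
      _ ≤ h * η := Nat.mul_le_mul_right _ (by omega)
      _ ≤ m := h2
  · intro x y L W hw hL
    have h5 := M.drop h4 (by omega) T hw (by omega)
    have h6 : (T.p : ℤ) * (4 * η) ≤ T.p * (9 * η) := mul_le_mul_of_nonneg_left (by omega) (Int.natCast_nonneg _)
    push_cast
    linarith
  · have h5 := M.p_le h (by rw [mul_comm]; exact h2) (by omega) T
    have h6 := M.q_le h4 (by omega) T
    have h7 : 3 * (m + 9 * η) ≤ h * (9 * η) := by
      have h8 : 32 * η ≤ h * η := Nat.mul_le_mul_right _ (by omega)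
      have h9 : h * 10 ≤ h * η := Nat.mul_le_mul_left _ h1
      have e1 : h * (9 * η) = 9 * (h * η) := by ring
      have e2 : h * (η + 1) = h * η + h := by ring
      rw [e1]
      rw [e2] at h3
      omega
    have h8 : h * (T.p * m) ≤ h * (T.q + T.p * (9 * η)) := by
      calc h * (T.p * m) = h * (m * T.p) := by ring
        _ ≤ (h + 3) * T.q := h5
        _ = h * T.q + 3 * T.q := by ring
        _ ≤ h * T.q + 3 * (T.p * (m + 9 * η)) := by omega
        _ = h * T.q + T.p * (3 * (m + 9 * η)) := by ring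
        _ ≤ h * T.q + T.p * (h * (9 * η)) := by
          have := Nat.mul_le_mul_left T.p h7
          omega
        _ = h * (T.q + T.p * (9 * η)) := by ring
    exact Nat.le_of_mul_le_mul_left h8 (by omega)
  · exact M.q_le h4 (by omega) T

end Pool.Agent.Lib.MP_83608f_co.AV.S
end
end

section
/-! MP_83608f_co, part AV: LOH and TOP (helper50). -/
set_option autoImplicit false

open Classical

noncomputable section

namespace Pool.Agent.Lib.MP_83608f_co.AV.S

open Pool.Agent.Lib.MP_83608f_co.CN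
open LAY_ (cb)
open SD_ (rs)

namespace Top_

variable {V : Type} [Fintype V] {A : V → V → Prop} {φ : V → V → ℤ}

lemma pp_xx {P : Pot A φ} (h : P.p = 1) (l : ℤ) : PP P.a P.p P.q l = XX P (l + 1) := by
  unfold PP XX
  rw [h]
  push_cast
  rw [show l + 1 - 1 = l by ring]

lemma qq_xx {P : Pot A φ} (h : P.p = 1) (l : ℤ) : QQ P.a P.p P.q l = XX P l := by
  unfold QQ XX
  rw [h]
  push_cast
  rfl

lemma ee_xx {P : Pot A φ} (h : P.p = 1) (dp dm : ℕ) (l : ℤ) :
    EE P dp dm l = (dp : ℤ) + dm - XX P l - XX P (l + 1) := by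
  unfold EE
  rw [pp_xx h, qq_xx h]
  ring

lemma sum_xx {P : Pot A φ} (h : P.p = 1) (c : ℤ) :
    ∑ l ∈ Finset.Ico (0 : ℤ) P.q, XX P (l + c) = Fintype.card V := by
  have h1 := sum_PP (a := P.a) (p := P.p) (q := P.q) P.hq (by rw [h]; exact P.hq) (c - 1)
  rw [h] at h1
  push_cast at h1
  rw [one_mul] at h1
  rw [← h1]
  apply Finset.sum_congr rfl
  intro l _
  have h2 := pp_xx h (l + (c - 1))
  rw [h] at h2
  rw [h2, show l + (c - 1) + 1 = l + c by ring]

end Top_

open Top_

theorem specLOH (hA : SpecLOHA) (hB : SpecLOHB) (hC : SpecLOHC) : SpecLOH := by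
  obtain ⟨N1, M1, hA⟩ := hA
  obtain ⟨C, N2, M2, hB⟩ := hB
  obtain ⟨N3, M3, hC⟩ := hC C
  refine ⟨N1 + N2 + N3, M1 + M2 + M3, ?_⟩
  intro V _ A φ m dp dm η P U hV hM hL hN hF hp hq
  have e1 : N1 * η ≤ m := le_trans (Nat.mul_le_mul_right η (by omega)) hN
  have e2 : N2 * η ≤ m := le_trans (Nat.mul_le_mul_right η (by omega)) hN
  have e3 : N3 * η ≤ m := le_trans (Nat.mul_le_mul_right η (by omega)) hN
  have hA := hA V A φ m dp dm η P U hV (by omega) hL e1 hF hp hq
  have hB := hB V A φ m dp dm η P U hV (by omega) hL e2 hF hp hq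
  have hsum := sum_xx (P := P) hp 0
  have hEE : ∀ l, EE P dp dm l = ((dp : ℤ) + dm) - XX P l - XX P (l + 1) := ee_xx hp dp dm
  have hper : ∀ i, XX P (i + m) = XX P i := by
    intro i
    unfold XX
    have := win_shift P.a P.q (i - 1) i 1
    rw [mul_one] at this
    rw [← this, hq, show i + (m : ℤ) - 1 = i - 1 + m by ring]
  have hK : (1 : ℤ) ≤ (dp : ℤ) + dm := by exact_mod_cast hV.hK
  have hn : (2 : ℤ) * (Fintype.card V : ℤ) ≤ m * ((dp : ℤ) + dm) := by exact_mod_cast hV.hn
  have h1 := hC m η (Fintype.card V) ((dp : ℤ) + dm) (XX P) U (by omega) hL.ten e3 hK hn hper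
    (fun i => by unfold XX; exact Int.natCast_nonneg _)
    (by
      rw [hq] at hsum
      simpa using hsum)
    (by
      intro l
      have := hF.per l
      rwa [hq] at this)
    (by
      intro l hl hl'
      have h2 := hF.gap l hl (by rw [hp]; push_cast; exact hl')
      rw [hp] at h2
      simpa using h2)
    (by
      have h2 := hF.siz
      unfold SU at h2
      rw [hq] at h2
      simpa only [hEE] using h2)
    (by
      intro h3
      have h2 := hF.big h3
      unfold SU at h2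
      rw [hq] at h2
      simpa only [hEE] using h2)
    (by
      have h2 := hF.tot
      unfold SU NO at h2
      rw [hq, hp] at h2
      simp only [hEE] at h2
      push_cast at h2
      rw [one_mul] at h2
      exact h2)
    (by
      intro i hi
      have hnice : ∀ l, i - 1 ≤ l → l ≤ i + 2 → Nice P m dp dm U l := by
        intro l h2 h3
        obtain ⟨h4, h5⟩ := hi l h2 h3
        exact ⟨h4, by rw [hEE]; exact h5⟩
      exact hA i (hnice _ (by omega) (by omega)) (hnice _ (by omega) (by omega)) (hnice _ (by omega) (by omega))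
        (hnice _ (by omega) (by omega)))
    hB
  intro l hl
  have h2 := hF.vio l (h1 l) 0 (by simp)
  rw [zero_mul, add_zero] at h2
  exact h2 hl

theorem specTOP (hMAC : SpecMAC) (hFRO : SpecFRO) (hROA : SpecROA) (hLOH : SpecLOH) (hROT : SpecROT) : SpecTOP := by
  obtain ⟨N1, M1, hFRO⟩ := hFRO
  obtain ⟨N2, M2, hROA⟩ := hROA
  obtain ⟨N3, M3, hLOH⟩ := hLOH
  obtain ⟨N4, M4, hROT⟩ := hROT
  obtain ⟨M5, hMAC⟩ := hMAC (N1 + N2 + N3 + N4)
  refine ⟨M1 + M2 + M3 + M4 + M5 + 91, ?_⟩
  intro m hm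
  apply av_of_noVio (by omega)
  intro V _ A dp dm hV
  have : Nonempty V := Fintype.card_pos_iff.1 hV.hne
  obtain ⟨φ, η, hη, hpos, hloc⟩ := hMAC V A m dp dm (by omega) hV.hcl hV.hout hV.hin hV.hK hV.hn
  obtain ⟨P⟩ := exists_pot (A := A) (φ := φ) (conn hV) hpos
  have hL := hloc P
  have e1 : N1 * η ≤ m := le_trans (Nat.mul_le_mul_right η (by omega)) hη
  have e2 : N2 * η ≤ m := le_trans (Nat.mul_le_mul_right η (by omega)) hη
  have e3 : N3 * η ≤ m := le_trans (Nat.mul_le_mul_right η (by omega)) hη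
  have e4 : N4 * η ≤ m := le_trans (Nat.mul_le_mul_right η (by omega)) hη
  obtain ⟨U, hF⟩ := hFRO V A φ m dp dm η P hV (by omega) hL e1
  rcases lt_trichotomy P.q (P.p * m) with h | h | h
  · exact hROA V A φ m dp dm η P U hV (by omega) hL e2 hF h
  · have hp : P.p = 1 := by
      have h1 := P.cop
      rw [h] at h1
      exact Nat.Coprime.eq_one_of_dvd h1 (Nat.dvd_mul_right _ _)
    have hq : P.q = m := by rw [h, hp, one_mul]
    exact hROT V A φ m dp dm η P hV (by omega) hL e4 hp hq (hLOH V A φ m dp dm η P U hV (by omega) hL e3 hF hp hq)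
  · have h1 := hF.tot
    have h2 : 0 ≤ NO P dp dm U := Finset.sum_nonneg fun l _ => le_max_left _ _
    have hK : (1 : ℤ) ≤ (dp : ℤ) + dm := by exact_mod_cast hV.hK
    have h3 : 0 ≤ -SU P dp dm U := by
      have h4 := hF.siz
      have h5 : (0 : ℤ) ≤ 9 * ((dp : ℤ) + dm) * ((Finset.Ico (0 : ℤ) P.q).filter U).card := by positivity
      by_contra h6
      push Not at h6
      have h7 : (0 : ℤ) < 10 * (8 * (η : ℤ) + 20) := by positivity
      have := mul_neg_of_pos_of_neg h7 h6
      linarith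
    have hn : (2 : ℤ) * (Fintype.card V : ℤ) ≤ m * ((dp : ℤ) + dm) := by exact_mod_cast hV.hn
    have h4 : (2 : ℤ) * (P.p * Fintype.card V) ≤ P.p * m * ((dp : ℤ) + dm) := by
      have := mul_le_mul_of_nonneg_left hn (Int.natCast_nonneg P.p)
      linarith
    have h5 : (P.p : ℤ) * m + 1 ≤ P.q := by exact_mod_cast h
    have h6 := mul_le_mul_of_nonneg_right h5 (by linarith : (0 : ℤ) ≤ (dp : ℤ) + dm)
    linarith

end Pool.Agent.Lib.MP_83608f_co.AV.S
end
end

section
/-! MP_83608f_co, part AV: from the average form to digraphs of given girth (helper50). -/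
set_option autoImplicit false

open Classical

noncomputable section

namespace Pool.Agent.Lib.MP_83608f_co.AV.S

open Pool.Agent.Lib.MP_83608f_co.CN

lemma Fin_.out_card {V : Type} [Fintype V] {G : Digraph V} {r : ℕ} (h : ∀ v, r ≤ Nat.card {u // G.Adj v u}) (v : V) :
    r ≤ (Finset.univ.filter fun u => G.Adj v u).card := by
  have h1 := h v
  rw [Nat.card_eq_fintype_card, Fintype.card_subtype] at h1
  exact h1

lemma Fin_.in_card {V : Type} [Fintype V] {G : Digraph V} {r : ℕ} (h : ∀ v, r ≤ Nat.card {u // G.Adj u v}) (v : V) :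
    r ≤ (Finset.univ.filter fun u => G.Adj u v).card := by
  have h1 := h v
  rw [Nat.card_eq_fintype_card, Fintype.card_subtype] at h1
  exact h1

/-- the bound for all large girths, with minimum out-degree `r` and minimum in-degree `s` -/
theorem bcw (hTOP : SpecTOP) : ∃ g₀ : ℕ, ∀ (V : Type) [Finite V] [Nonempty V] (G : Digraph V) (r s g : ℕ), g₀ ≤ g →
    (∀ v, r ≤ Nat.card {u // G.Adj v u}) → (∀ v, s ≤ Nat.card {u // G.Adj u v}) → EM.GirthGe G g →
    (g - 1) * (r + s) < 2 * Nat.card V := by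
  obtain ⟨M, h⟩ := hTOP
  refine ⟨M + 1, fun V _ _ G r s g hg hout hin hgirth => ?_⟩
  have := Fintype.ofFinite V
  obtain ⟨m, rfl⟩ : ∃ m, g = m + 1 := ⟨g - 1, by omega⟩
  rw [Nat.card_eq_fintype_card, Nat.add_sub_cancel]
  exact h m (by omega) V G.Adj r s Fintype.card_pos (Top_.noCl hgirth) (Fin_.out_card hout) (Fin_.in_card hin)

end Pool.Agent.Lib.MP_83608f_co.AV.S
end
end
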