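import Mathlib
import Pool.Agent.Lib.MP_83608f_co.CN.DCH
import Pool.Agent.Lib.MP_83608f_co.LIM.A2

section
/-!
# MP_83608f_co, part AV: the max-plus potential of a digraph with winding numbers (helper63)

`φ : V → V → ℤ` is a winding number on the arcs of `A`.  For a strongly connected finite digraph with a closed walk of
positive winding let `p / q` (in lowest terms) be the largest ratio winding / length of a closed walk.  Then there are
labels `a` (arrival labels) and `b ≤ a` (departure labels) which increase by at most `p` along an arc, after the correction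
`q φ`, and a critical closed walk `c` of minimal winding `p g` and length `q g`, all arcs of which are tight.
-/
set_option autoImplicit false

open Classical Finset

namespace Pool.Agent.Lib.MP_83608f_co.AV

variable {V : Type}

/-- `Wk A φ x y L W`: there is a walk of length `L` and winding `W` from `x` to `y`. -/
inductive Wk (A : V → V → Prop) (φ : V → V → ℤ) : V → V → ℕ → ℤ → Prop
  | nil (x : V) : Wk A φ x x 0 0
  | snoc {x y z : V} {L : ℕ} {W : ℤ} : Wk A φ x y L W → A y z → Wk A φ x z (L + 1) (W + φ y z)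

namespace Wk

variable {A : V → V → Prop} {φ : V → V → ℤ} {x y z : V} {L L' : ℕ} {W W' : ℤ}

theorem one (h : A x y) : Wk A φ x y 1 (φ x y) := by
  have := (Wk.nil (A := A) (φ := φ) x).snoc h
  simpa using this

theorem append (h : Wk A φ x y L W) (h' : Wk A φ y z L' W') : Wk A φ x z (L + L') (W + W') := by
  induction h' with
  | nil => simpa using h
  | snoc _ ha ih =>
    have := ih.snoc ha
    rwa [add_assoc, add_assoc] at this

theorem cons (h : A x y) (h' : Wk A φ y z L W) : Wk A φ x z (L + 1) (φ x y + W) := by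
  have := (Wk.one (φ := φ) h).append h'
  rwa [add_comm 1 L] at this

theorem of_fun (c : ℕ → V) : ∀ (L : ℕ), (∀ i < L, A (c i) (c (i + 1))) →
    Wk A φ (c 0) (c L) L (∑ i ∈ range L, φ (c i) (c (i + 1)))
  | 0, _ => by simpa using Wk.nil (c 0)
  | L + 1, h => by
    rw [sum_range_succ]
    exact (of_fun c L fun i hi => h i (by omega)).snoc (h L (by omega))

/-- the part of a walk between two times -/
theorem of_fun' (c : ℕ → V) {i j : ℕ} (hij : i ≤ j) (h : ∀ k, i ≤ k → k < j → A (c k) (c (k + 1))) :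
    Wk A φ (c i) (c j) (j - i) (∑ k ∈ Ico i j, φ (c k) (c (k + 1))) := by
  have h1 := of_fun (A := A) (φ := φ) (fun k => c (i + k)) (j - i) (fun k hk => h (i + k) (by omega) (by omega))
  have h2 : i + (j - i) = j := by omega
  simp only [add_zero, h2] at h1
  convert h1 using 1
  rw [sum_Ico_eq_sum_range]
  rfl

theorem to_fun (h : Wk A φ x y L W) : ∃ c : ℕ → V, c 0 = x ∧ c L = y ∧ (∀ i < L, A (c i) (c (i + 1))) ∧
    W = ∑ i ∈ range L, φ (c i) (c (i + 1)) := by
  induction h with
  | nil => exact ⟨fun _ => x, rfl, rfl, fun i hi => absurd hi (by omega), by simp⟩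
  | @snoc y z L W h ha ih =>
    obtain ⟨c, h0, hL, hc, hW⟩ := ih
    refine ⟨fun i => if i ≤ L then c i else z, ?_, ?_, ?_, ?_⟩
    · simp [h0]
    · simp
    · intro i hi
      rcases Nat.lt_or_ge i L with h1 | h1
      · have h2 : i ≤ L := by omega
        have h3 : i + 1 ≤ L := by omega
        simp only [h2, h3, if_true]
        exact hc i h1
      · have h2 : i = L := by omega
        subst h2
        simp only [le_refl, if_true, Nat.not_succ_le_self, if_false]
        rw [hL]
        exact ha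
    · rw [sum_range_succ]
      simp only [le_refl, if_true, Nat.not_succ_le_self, if_false]
      rw [hL, hW]
      congr 1
      refine sum_congr rfl fun i hi => ?_
      have h1 : i < L := mem_range.1 hi
      have h2 : i ≤ L := by omega
      have h3 : i + 1 ≤ L := by omega
      simp only [h2, h3, if_true]

/-- a closed walk longer than the number of vertices splits into two closed walks -/
theorem split [Fintype V] (h : Wk A φ x x L W) (hL : Fintype.card V < L) :
    ∃ y L₁ W₁ L₂ W₂, 1 ≤ L₁ ∧ 1 ≤ L₂ ∧ L₁ + L₂ = L ∧ W₁ + W₂ = W ∧ Wk A φ y y L₁ W₁ ∧ Wk A φ x x L₂ W₂ := by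
  obtain ⟨c, h0, hLx, hc, hW⟩ := h.to_fun
  have h1 : ∃ i j, i < j ∧ j < L ∧ c i = c j := by
    have h2 : ¬ Function.Injective fun i : Fin L => c i := by
      intro hinj
      have := Fintype.card_le_of_injective _ hinj
      simp at this
      omega
    simp only [Function.Injective, not_forall] at h2
    obtain ⟨i, j, hij, hne⟩ := h2
    have hne' : (i : ℕ) ≠ j := fun h => hne (Fin.ext h)
    rcases lt_or_gt_of_ne hne' with h3 | h3
    · exact ⟨i, j, h3, j.2, hij⟩
    · exact ⟨j, i, h3, i.2, hij.symm⟩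
  obtain ⟨i, j, hij, hjL, hcc⟩ := h1
  have w1 := of_fun' (A := A) (φ := φ) c (i := 0) (j := i) (by omega) (fun k _ hk => hc k (by omega))
  have w2 := of_fun' (A := A) (φ := φ) c (i := i) (j := j) (by omega) (fun k _ hk => hc k (by omega))
  have w3 := of_fun' (A := A) (φ := φ) c (i := j) (j := L) (by omega) (fun k _ hk => hc k (by omega))
  rw [h0] at w1
  rw [hLx] at w3
  rw [← hcc] at w2 w3
  refine ⟨c i, _, _, _, _, ?_, ?_, ?_, ?_, w2, w1.append w3⟩
  · omega
  · omega
  · omega
  · rw [hW, ← Nat.Ico_zero_eq_range, ← sum_Ico_consecutive _ (Nat.zero_le i) (by omega : i ≤ L),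
      ← sum_Ico_consecutive _ (by omega : i ≤ j) (by omega : j ≤ L)]
    ring

/-- bound for the winding -/
theorem abs_le {M : ℤ} (hM : ∀ x y, |φ x y| ≤ M) (h : Wk A φ x y L W) : |W| ≤ L * M := by
  induction h with
  | nil => simp
  | @snoc y z L W h ha ih =>
    have := hM y z
    have h3 := abs_add_le W (φ y z)
    push_cast
    linarith

/-- a potential bounds the walks -/
theorem le_pot {p q : ℤ} {a : V → ℤ} (ha : ∀ x y, A x y → a y + q * φ x y ≤ a x + p) (h : Wk A φ x y L W) :
    a y + q * W ≤ a x + p * L := by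
  induction h with
  | nil => simp
  | @snoc y z L W h hA ih =>
    have := ha y z hA
    push_cast
    linarith

theorem reach_of_pos (h : Wk A φ x y L W) (hL : 0 < L) : ∃ z, A x z ∧ Relation.ReflTransGen A z y := by
  induction h with
  | nil => omega
  | @snoc y z L W h hA ih =>
    rcases Nat.eq_zero_or_pos L with h0 | h0
    · subst h0
      cases h
      exact ⟨z, hA, Relation.ReflTransGen.refl⟩
    · obtain ⟨u, h1, h2⟩ := ih h0
      exact ⟨u, h1, h2.tail hA⟩

theorem of_reach (h : Relation.ReflTransGen A x y) : ∃ L W, Wk A φ x y L W := by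
  induction h with
  | refl => exact ⟨0, 0, Wk.nil _⟩
  | tail _ ha ih =>
    obtain ⟨L, W, h⟩ := ih
    exact ⟨_, _, h.snoc ha⟩

/-- reversal -/
theorem rev (h : Wk A φ x y L W) : Wk (fun u v => A v u) (fun u v => φ v u) y x L W := by
  induction h with
  | nil => exact Wk.nil _
  | @snoc y z L W h hA ih =>
    have := Wk.cons (A := fun u v => A v u) (φ := fun u v => φ v u) (x := z) (y := y) hA ih
    rwa [add_comm (φ y z) W] at this

end Wk

/-- The largest ratio winding / length of a closed walk. -/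
theorem exists_ratio [Fintype V] {A : V → V → Prop} {φ : V → V → ℤ} (hp : ∃ x L W, Wk A φ x x L W ∧ 0 < W) :
    ∃ p q : ℕ, 0 < p ∧ 0 < q ∧ Nat.Coprime p q ∧ (∀ x L W, Wk A φ x x L W → q * W ≤ p * L) ∧
      ∃ x L W, 1 ≤ L ∧ Wk A φ x x L W ∧ q * W = p * L := by
  set n := Fintype.card V with hn
  set M : ℤ := ∑ x, ∑ y, |φ x y| with hM
  have hMb : ∀ x y, |φ x y| ≤ M := by
    intro x y
    calc |φ x y| ≤ ∑ y, |φ x y| := single_le_sum (f := fun y => |φ x y|) (fun _ _ => abs_nonneg _) (mem_univ y)
      _ ≤ M := single_le_sum (f := fun x => ∑ y, |φ x y|) (fun _ _ => sum_nonneg fun _ _ => abs_nonneg _) (mem_univ x)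
  have hM0 : 0 ≤ M := sum_nonneg fun _ _ => sum_nonneg fun _ _ => abs_nonneg _
  -- a short closed walk of positive winding
  have hs : ∀ N : ℕ, ∀ x L W, L ≤ N → Wk A φ x x L W → 0 < W → ∃ y L' W', L' ≤ n ∧ Wk A φ y y L' W' ∧ 0 < W' := by
    intro N
    induction N with
    | zero =>
      intro x L W hL h hW
      exact ⟨x, L, W, by omega, h, hW⟩
    | succ N ih =>
      intro x L W hL h hW
      by_cases h1 : L ≤ n
      · exact ⟨x, L, W, h1, h, hW⟩
      · obtain ⟨y, L₁, W₁, L₂, W₂, h2, h3, h4, h5, h6, h7⟩ := h.split (by omega)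
        rcases lt_or_ge 0 W₁ with h8 | h8
        · exact ih y L₁ W₁ (by omega) h6 h8
        · exact ih x L₂ W₂ (by omega) h7 (by omega)
  obtain ⟨x0, L0, W0, h0, hW0⟩ := hp
  obtain ⟨x1, L1, W1, hL1, h1, hW1⟩ := hs L0 x0 L0 W0 le_rfl h0 hW0
  have hL1' : 1 ≤ L1 := by
    rcases Nat.eq_zero_or_pos L1 with h | h
    · subst h
      cases h1
      omega
    · exact h
  set S : Finset (ℕ × ℤ) := ((range (n + 1)) ×ˢ (Icc (-(n * M)) (n * M))).filter
    (fun t => 1 ≤ t.1 ∧ ∃ x, Wk A φ x x t.1 t.2) with hS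
  have hmem : ∀ x L W, 1 ≤ L → L ≤ n → Wk A φ x x L W → (L, W) ∈ S := by
    intro x L W hL1 hL h
    have h2 := h.abs_le hMb
    have h3 : (L : ℤ) * M ≤ n * M := mul_le_mul_of_nonneg_right (by exact_mod_cast hL) hM0
    have h4 := abs_le.1 (h2.trans h3)
    rw [hS, mem_filter, mem_product, mem_range, mem_Icc]
    exact ⟨⟨by simp; omega, h4⟩, hL1, x, h⟩
  obtain ⟨t, ht, hmax⟩ := S.exists_max_image (fun t => (t.2 : ℚ) / t.1) ⟨_, hmem x1 L1 W1 hL1' hL1 h1⟩
  have ht' := (mem_filter.1 ht).2
  obtain ⟨ht1, xt, hxt⟩ := ht'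
  set r : ℚ := (t.2 : ℚ) / t.1 with hr
  have ht1q : (0 : ℚ) < t.1 := by exact_mod_cast ht1
  have hr0 : 0 < r := by
    have h2 := hmax _ (hmem x1 L1 W1 hL1' hL1 h1)
    refine lt_of_lt_of_le ?_ h2
    have : (0 : ℚ) < L1 := by exact_mod_cast hL1'
    have h3 : (0 : ℚ) < W1 := by exact_mod_cast hW1
    exact div_pos h3 this
  have hnum : 0 < r.num := Rat.num_pos.2 hr0
  have hnat : ((r.num.natAbs : ℕ) : ℤ) = r.num := Int.natAbs_of_nonneg hnum.le
  have hrq : r * r.den = r.num := by exact_mod_cast Rat.mul_den_eq_num r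
  have hdenq : (0 : ℚ) < r.den := by exact_mod_cast r.den_pos
  have key : ∀ (L : ℕ) (W : ℤ), 1 ≤ L → (W : ℚ) / L ≤ r → (r.den : ℤ) * W ≤ (r.num.natAbs : ℕ) * L := by
    intro L W hL h
    have hLq : (0 : ℚ) < L := by exact_mod_cast hL
    rw [div_le_iff₀ hLq] at h
    have h2 : (r.den : ℚ) * W ≤ r.num * L := by
      calc (r.den : ℚ) * W ≤ r.den * (r * L) := mul_le_mul_of_nonneg_left h hdenq.le
        _ = (r * r.den) * L := by ring
        _ = r.num * L := by rw [hrq]
    rw [hnat]
    exact_mod_cast h2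
  refine ⟨r.num.natAbs, r.den, ?_, r.den_pos, r.reduced, ?_, xt, t.1, t.2, ht1, hxt, ?_⟩
  · omega
  · have hall : ∀ N : ℕ, ∀ x L W, L ≤ N → Wk A φ x x L W → (r.den : ℤ) * W ≤ (r.num.natAbs : ℕ) * L := by
      intro N
      induction N with
      | zero =>
        intro x L W hL h
        have : L = 0 := by omega
        subst this
        cases h
        simp
      | succ N ih =>
        intro x L W hL h
        rcases Nat.eq_zero_or_pos L with hL0 | hL0
        · subst hL0
          cases h
          simp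
        by_cases h1 : L ≤ n
        · exact key L W hL0 (hmax _ (hmem x L W hL0 h1 h))
        · obtain ⟨y, L₁, W₁, L₂, W₂, h2, h3, h4, h5, h6, h7⟩ := h.split (by omega)
          have h8 := ih y L₁ W₁ (by omega) h6
          have h9 := ih x L₂ W₂ (by omega) h7
          rw [← h4, ← h5]
          push_cast at h8 h9 ⊢
          linarith
    intro x L W h
    exact hall L x L W le_rfl h
  · have h2 : (r.den : ℚ) * t.2 = r.num * t.1 := by
      have h3 : (t.2 : ℚ) = r * t.1 := by
        rw [hr, div_mul_cancel₀ _ ht1q.ne']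
      rw [h3, ← mul_assoc, mul_comm (r.den : ℚ) r, hrq]
    rw [hnat]
    exact_mod_cast h2

/-- Labels and a critical closed walk of a digraph with winding numbers. -/
structure Pot (A : V → V → Prop) (φ : V → V → ℤ) where
  p : ℕ
  q : ℕ
  g : ℕ
  hp : 0 < p
  hq : 0 < q
  hg : 0 < g
  cop : Nat.Coprime p q
  /-- arrival labels -/
  a : V → ℤ
  /-- departure labels -/
  b : V → ℤ
  /-- the critical closed walk -/
  c : ℕ → V
  a_le : ∀ x y, A x y → a y + q * φ x y ≤ a x + p
  a_tight : ∀ y, ∃ x, A x y ∧ a y + q * φ x y = a x + p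
  b_le : ∀ x y, A x y → b y + q * φ x y ≤ b x + p
  b_tight : ∀ x, ∃ y, A x y ∧ b y + q * φ x y = b x + p
  b_le_a : ∀ x, b x ≤ a x
  c_adj : ∀ i, A (c i) (c (i + 1))
  c_per : ∀ i, c (i + q * g) = c i
  c_wind : ∀ i, ∑ k ∈ range (q * g), φ (c (i + k)) (c (i + k + 1)) = p * g
  c_tight : ∀ i, a (c (i + 1)) + q * φ (c i) (c (i + 1)) = a (c i) + p
  c_eq : ∀ i, a (c i) = b (c i)
  c_zero : a (c 0) = 0
  /-- no critical closed walk has smaller winding -/
  g_min : ∀ x h, 0 < h → Wk A φ x x (q * h) (p * h) → g ≤ h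
  closed_le : ∀ x L W, Wk A φ x x L W → q * W ≤ p * L

theorem exists_pot [Fintype V] {A : V → V → Prop} {φ : V → V → ℤ} (hconn : ∀ x y, Relation.ReflTransGen A x y)
    (hp : ∃ x L W, Wk A φ x x L W ∧ 0 < W) : Nonempty (Pot A φ) := by
  obtain ⟨p, q, hp0, hq0, hcop, hcl, x0, L0, W0, hL0, hw0, hcrit⟩ := exists_ratio hp
  -- the critical closed walk of minimal winding
  have hex : ∃ h, 0 < h ∧ ∃ x, Wk A φ x x (q * h) (p * h) := by
    have h1 : (q : ℤ) ∣ L0 := by
      have h2 : (q : ℤ) ∣ p * L0 := ⟨W0, hcrit.symm⟩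
      exact (Int.isCoprime_iff_gcd_eq_one.2 (by
        rw [Int.gcd_natCast_natCast]
        exact Nat.Coprime.symm hcop)).dvd_of_dvd_mul_left h2
    have h1' : q ∣ L0 := by exact_mod_cast h1
    obtain ⟨h, hh⟩ := h1'
    have hW : W0 = p * h := by
      rw [hh] at hcrit
      push_cast at hcrit
      have h3 : (q : ℤ) * W0 = q * (p * h) := by rw [hcrit]; ring
      have hq' : (q : ℤ) ≠ 0 := by exact_mod_cast hq0.ne'
      exact mul_left_cancel₀ hq' h3
    refine ⟨h, ?_, x0, ?_⟩
    · rcases Nat.eq_zero_or_pos h with h4 | h4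
      · subst h4
        simp at hh
        omega
      · exact h4
    · rw [← hh, ← hW]
      exact hw0
  set g := Nat.find hex with hgdef
  obtain ⟨hg0, xc, hxc⟩ := Nat.find_spec hex
  rw [← hgdef] at hg0 hxc
  have hqg : 0 < q * g := Nat.mul_pos hq0 hg0
  obtain ⟨d, hd0, hdL, hdc, hdW⟩ := hxc.to_fun
  set c : ℕ → V := fun i => d (i % (q * g)) with hcdef
  have hcstep : ∀ i, c (i + 1) = d (i % (q * g) + 1) := by
    intro i
    simp only [hcdef]
    rcases Nat.lt_or_ge (i % (q * g) + 1) (q * g) with h | h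
    · rw [Nat.add_mod, Nat.mod_eq_of_lt (by omega : 1 < q * g), Nat.mod_eq_of_lt h]
    · have h1 : i % (q * g) + 1 = q * g := by
        have := Nat.mod_lt i hqg
        omega
      have h2 : (i + 1) % (q * g) = 0 := by
        rw [Nat.add_mod]
        rcases Nat.lt_or_ge 1 (q * g) with h3 | h3
        · rw [Nat.mod_eq_of_lt h3, h1, Nat.mod_self]
        · have : q * g = 1 := by omega
          rw [this]
          simp [Nat.mod_one]
      rw [h2, h1, hd0, hdL]
  have hcadj : ∀ i, A (c i) (c (i + 1)) := by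
    intro i
    rw [hcstep]
    exact hdc _ (Nat.mod_lt _ hqg)
  have hcper : ∀ i, c (i + q * g) = c i := by
    intro i
    simp [hcdef]
  have hsum0 : ∑ k ∈ range (q * g), φ (c k) (c (k + 1)) = p * g := by
    rw [hdW]
    refine sum_congr rfl fun k hk => ?_
    rw [hcstep]
    simp only [hcdef]
    rw [Nat.mod_eq_of_lt (mem_range.1 hk)]
  have hshift : ∀ i, ∑ k ∈ range (q * g), φ (c (i + k)) (c (i + k + 1)) = p * g := by
    intro i
    induction i with
    | zero => simpa using hsum0
    | succ i ih =>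
      have h1 : ∀ f : ℕ → ℤ, (∀ j, f (j + q * g) = f j) →
          ∑ k ∈ range (q * g), f (i + 1 + k) = ∑ k ∈ range (q * g), f (i + k) := by
        intro f hf
        have h2 := sum_range_succ (fun k => f (i + k)) (q * g)
        have h3 := sum_range_succ' (fun k => f (i + k)) (q * g)
        rw [h2] at h3
        simp only [add_zero] at h3
        rw [hf i] at h3
        have h4 : ∑ k ∈ range (q * g), f (i + (k + 1)) = ∑ k ∈ range (q * g), f (i + 1 + k) :=
          sum_congr rfl fun k _ => by rw [show i + (k + 1) = i + 1 + k by ring]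
        rw [h4] at h3
        linarith
      have h5 := h1 (fun j => φ (c j) (c (j + 1))) (fun j => by
        show φ (c (j + q * g)) (c (j + q * g + 1)) = φ (c j) (c (j + 1))
        rw [show j + q * g + 1 = (j + 1) + q * g by ring, hcper, hcper])
      rw [← ih]
      exact h5
  set c0 := c 0 with hc0
  have hcw : ∀ i, Wk A φ (c i) (c i) (q * g) (p * g) := by
    intro i
    have h1 := Wk.of_fun (A := A) (φ := φ) (fun k => c (i + k)) (q * g) (fun k _ => hcadj (i + k))
    simp only [add_zero, hcper] at h1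
    have h2 := hshift i
    rw [← h2]
    convert h1 using 1
    simp only [add_assoc]
  have hwk : ∀ x y, ∃ L W, Wk A φ x y L W := fun x y => Wk.of_reach (hconn x y)
  -- arrival labels
  have ha : ∀ y, ∃ t : ℤ, (∃ L W, Wk A φ c0 y L W ∧ t = p * L - q * W) ∧
      ∀ z : ℤ, (∃ L W, Wk A φ c0 y L W ∧ z = p * L - q * W) → t ≤ z := by
    intro y
    obtain ⟨L', W', h'⟩ := hwk y c0
    refine Int.exists_least_of_bdd (P := fun z => ∃ L W, Wk A φ c0 y L W ∧ z = p * L - q * W)
      ⟨-(p * L' - q * W'), ?_⟩ ?_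
    · rintro z ⟨L, W, h, rfl⟩
      have := hcl _ _ _ (h.append h')
      push_cast at this
      linarith
    · obtain ⟨L, W, h⟩ := hwk c0 y
      exact ⟨_, L, W, h, rfl⟩
  choose a ha1 ha2 using ha
  have hb : ∀ x, ∃ t : ℤ, (∃ L W, Wk A φ x c0 L W ∧ t = q * W - p * L) ∧
      ∀ z : ℤ, (∃ L W, Wk A φ x c0 L W ∧ z = q * W - p * L) → z ≤ t := by
    intro x
    obtain ⟨L', W', h'⟩ := hwk c0 x
    refine Int.exists_greatest_of_bdd (P := fun z => ∃ L W, Wk A φ x c0 L W ∧ z = q * W - p * L)
      ⟨p * L' - q * W', ?_⟩ ?_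
    · rintro z ⟨L, W, h, rfl⟩
      have := hcl _ _ _ (h.append h')
      push_cast at this
      linarith
    · obtain ⟨L, W, h⟩ := hwk x c0
      exact ⟨_, L, W, h, rfl⟩
  choose b hb1 hb2 using hb
  have a_le : ∀ x y, A x y → a y + q * φ x y ≤ a x + p := by
    intro x y hA
    obtain ⟨L, W, h, hx⟩ := ha1 x
    have := ha2 y _ ⟨L + 1, W + φ x y, h.snoc hA, rfl⟩
    push_cast at this
    linarith
  have b_le : ∀ x y, A x y → b y + q * φ x y ≤ b x + p := by
    intro x y hA
    obtain ⟨L, W, h, hx⟩ := hb1 y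
    have := hb2 x _ ⟨L + 1, φ x y + W, Wk.cons hA h, rfl⟩
    push_cast at this
    linarith
  have a0 : a c0 = 0 := by
    refine le_antisymm ?_ ?_
    · exact ha2 c0 0 ⟨0, 0, Wk.nil _, by simp⟩
    · obtain ⟨L, W, h, hx⟩ := ha1 c0
      have := hcl _ _ _ h
      linarith
  have b0 : b c0 = 0 := by
    refine le_antisymm ?_ ?_
    · obtain ⟨L, W, h, hx⟩ := hb1 c0
      have := hcl _ _ _ h
      linarith
    · exact hb2 c0 0 ⟨0, 0, Wk.nil _, by simp⟩
  have a_tight : ∀ y, ∃ x, A x y ∧ a y + q * φ x y = a x + p := by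
    intro y
    have hpos : ∃ L W, 0 < L ∧ Wk A φ c0 y L W ∧ a y = p * L - q * W := by
      obtain ⟨L, W, h, hx⟩ := ha1 y
      refine ⟨q * g + L, p * g + W, by omega, (hcw 0).append h, ?_⟩
      rw [hx]
      push_cast
      ring
    obtain ⟨L, W, hL, h, hx⟩ := hpos
    cases h with
    | nil => omega
    | @snoc x _ L W h hA =>
      refine ⟨x, hA, le_antisymm (a_le x y hA) ?_⟩
      have := ha2 x _ ⟨L, W, h, rfl⟩
      rw [hx]
      push_cast
      linarith
  have b_tight : ∀ x, ∃ y, A x y ∧ b y + q * φ x y = b x + p := by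
    intro x
    have hpos : ∃ L W, 0 < L ∧ Wk A φ x c0 L W ∧ b x = q * W - p * L := by
      obtain ⟨L, W, h, hx⟩ := hb1 x
      refine ⟨L + q * g, W + p * g, by omega, h.append (hcw 0), ?_⟩
      rw [hx]
      push_cast
      ring
    obtain ⟨L, W, hL, h, hx⟩ := hpos
    obtain ⟨e, he0, heL, hec, heW⟩ := h.to_fun
    obtain ⟨L, rfl⟩ : ∃ L', L = L' + 1 := ⟨L - 1, by omega⟩
    have h1 := hec 0 (by omega)
    rw [he0] at h1
    refine ⟨e 1, h1, le_antisymm (b_le _ _ h1) ?_⟩
    have h2 := Wk.of_fun (A := A) (φ := φ) (fun k => e (k + 1)) L (fun k hk => hec (k + 1) (by omega))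
    simp only [zero_add, heL] at h2
    have h3 := hb2 _ _ ⟨L, _, h2, rfl⟩
    rw [hx, heW, sum_range_succ', he0]
    push_cast
    try simp only [zero_add]
    linarith
  have b_le_a : ∀ x, b x ≤ a x := by
    intro x
    obtain ⟨L, W, h, hx⟩ := ha1 x
    obtain ⟨L', W', h', hx'⟩ := hb1 x
    have := hcl _ _ _ (h.append h')
    push_cast at this
    rw [hx, hx']
    linarith
  -- tightness on the critical walk, for any potential
  have tight : ∀ f : V → ℤ, (∀ x y, A x y → f y + q * φ x y ≤ f x + p) →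
      ∀ i, f (c (i + 1)) + q * φ (c i) (c (i + 1)) = f (c i) + p := by
    intro f hf i
    have h1 : ∑ k ∈ range (q * g), (f (c (i + k)) + p - (f (c (i + k + 1)) + q * φ (c (i + k)) (c (i + k + 1)))) = 0 := by
      have h2 : ∑ k ∈ range (q * g), (f (c (i + k)) - f (c (i + k + 1))) = 0 := by
        have := sum_range_sub' (fun k => f (c (i + k))) (q * g)
        simp only [add_zero, hcper, sub_self] at this
        exact this
      have h3 : ∑ k ∈ range (q * g), (f (c (i + k)) + p - (f (c (i + k + 1)) + q * φ (c (i + k)) (c (i + k + 1))))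
          = ∑ k ∈ range (q * g), (f (c (i + k)) - f (c (i + k + 1))) + (q * g : ℕ) * (p : ℤ)
            - q * ∑ k ∈ range (q * g), φ (c (i + k)) (c (i + k + 1)) := by
        rw [mul_sum, ← nsmul_eq_mul, ← card_range (q * g), ← sum_const, card_range, ← sum_add_distrib, ← sum_sub_distrib]
        refine sum_congr rfl fun k _ => by ring
      rw [h3, h2, hshift]
      push_cast
      ring
    have h4 : ∀ k ∈ range (q * g), 0 ≤ (f (c (i + k)) + p - (f (c (i + k + 1)) + q * φ (c (i + k)) (c (i + k + 1)))) := by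
      intro k _
      have := hf _ _ (hcadj (i + k))
      linarith
    have h5 := (sum_eq_zero_iff_of_nonneg h4).1 h1 0 (mem_range.2 hqg)
    simp only [add_zero] at h5
    linarith
  have c_eq : ∀ i, a (c i) = b (c i) := by
    intro i
    induction i with
    | zero => rw [← hc0, a0, b0]
    | succ i ih =>
      have h1 := tight a a_le i
      have h2 := tight b b_le i
      linarith
  exact ⟨⟨p, q, g, hp0, hq0, hg0, hcop, a, b, c, a_le, a_tight, b_le, b_tight, b_le_a, hcadj, hcper, hshift,
    tight a a_le, c_eq, a0, fun x h h0 hw => Nat.find_min' hex ⟨h0, x, hw⟩, hcl⟩⟩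

end Pool.Agent.Lib.MP_83608f_co.AV
end

section
/-!
# MP_83608f_co, part AV: label windows (helper63)

`a : V → ℤ` labels, period `q`: the vertex `x` of the sheet `s` of the `ℤ`-cover has the label `a x + q s`.
`win a q l l'` = the vertices which have a lift with label in `(l, l']`.
-/
set_option autoImplicit false

open Classical Finset

noncomputable section

namespace Pool.Agent.Lib.MP_83608f_co.AV

variable {V : Type} [Fintype V]

/-- the vertices with a lift of label in `(l, l']` -/
def win (a : V → ℤ) (q : ℕ) (l l' : ℤ) : Finset V :=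
  univ.filter fun x => ∃ s : ℤ, l < a x + q * s ∧ a x + q * s ≤ l'

theorem mem_win {a : V → ℤ} {q : ℕ} {l l' : ℤ} {x : V} :
    x ∈ win a q l l' ↔ ∃ s : ℤ, l < a x + q * s ∧ a x + q * s ≤ l' := by
  simp [win]

theorem win_shift (a : V → ℤ) (q : ℕ) (l l' t : ℤ) : win a q (l + q * t) (l' + q * t) = win a q l l' := by
  ext x
  rw [mem_win, mem_win]
  constructor
  · rintro ⟨s, h1, h2⟩
    exact ⟨s - t, by linarith [mul_sub (q : ℤ) s t], by linarith [mul_sub (q : ℤ) s t]⟩
  · rintro ⟨s, h1, h2⟩
    exact ⟨s + t, by linarith [mul_add (q : ℤ) s t], by linarith [mul_add (q : ℤ) s t]⟩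

theorem win_mono (a : V → ℤ) (q : ℕ) {l l' k k' : ℤ} (h : k ≤ l) (h' : l' ≤ k') : win a q l l' ⊆ win a q k k' := by
  intro x hx
  obtain ⟨s, h1, h2⟩ := mem_win.1 hx
  exact mem_win.2 ⟨s, by linarith, by linarith⟩

theorem win_union (a : V → ℤ) (q : ℕ) {l l' l'' : ℤ} (h : l ≤ l') (h' : l' ≤ l'') :
    win a q l l' ∪ win a q l' l'' = win a q l l'' := by
  ext x
  rw [mem_union, mem_win, mem_win, mem_win]
  constructor
  · rintro (⟨s, h1, h2⟩ | ⟨s, h1, h2⟩)
    · exact ⟨s, h1, h2.trans h'⟩
    · exact ⟨s, lt_of_le_of_lt h h1, h2⟩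
  · rintro ⟨s, h1, h2⟩
    rcases le_or_gt (a x + q * s) l' with h3 | h3
    · exact Or.inl ⟨s, h1, h3⟩
    · exact Or.inr ⟨s, h3, h2⟩

/-- at most one lift has its label in a window of length at most `q` -/
theorem lift_unique {q : ℕ} {l l' : ℤ} {t s s' : ℤ} (hl : l' ≤ l + q) (h1 : l < t + q * s) (h2 : t + q * s ≤ l')
    (h3 : l < t + q * s') (h4 : t + q * s' ≤ l') : q * s = q * s' := by
  rcases lt_trichotomy s s' with h | h | h
  · have h5 : (q : ℤ) * s + q ≤ q * s' := by
      have := mul_le_mul_of_nonneg_left (show s + 1 ≤ s' by omega) (Int.natCast_nonneg q)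
      linarith [mul_add (q : ℤ) s 1]
    omega
  · rw [h]
  · have h5 : (q : ℤ) * s' + q ≤ q * s := by
      have := mul_le_mul_of_nonneg_left (show s' + 1 ≤ s by omega) (Int.natCast_nonneg q)
      linarith [mul_add (q : ℤ) s' 1]
    omega

theorem win_disj (a : V → ℤ) (q : ℕ) {l l' k k' : ℤ} (h : l' ≤ k) (h' : k' ≤ l + q) :
    Disjoint (win a q l l') (win a q k k') := by
  rw [disjoint_left]
  intro x hx hy
  obtain ⟨s, h1, h2⟩ := mem_win.1 hx
  obtain ⟨s', h3, h4⟩ := mem_win.1 hy
  have := lift_unique (q := q) (l := l) (l' := k') (t := a x) (s := s) (s' := s') h' h1 (by linarith) (by linarith) h4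
  omega

theorem card_win_add (a : V → ℤ) (q : ℕ) {l l' l'' : ℤ} (h : l ≤ l') (h' : l' ≤ l'') (h'' : l'' ≤ l + q) :
    (win a q l l'').card = (win a q l l').card + (win a q l' l'').card := by
  rw [← win_union a q h h', card_union_of_disjoint (win_disj a q le_rfl h'')]

theorem win_full (a : V → ℤ) {q : ℕ} (hq : 0 < q) (l : ℤ) : win a q l (l + q) = univ := by
  ext x
  simp only [mem_win, mem_univ, iff_true]
  have hq' : (q : ℤ) ≠ 0 := by exact_mod_cast hq.ne'
  have h1 := Int.emod_nonneg (a x - l - 1) hq'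
  have h2 := Int.emod_lt_of_pos (a x - l - 1) (by exact_mod_cast hq : (0 : ℤ) < q)
  have h3 := Int.mul_ediv_add_emod (a x - l - 1) q
  refine ⟨-((a x - l - 1) / q), ?_, ?_⟩
  · rw [mul_neg]
    linarith
  · rw [mul_neg]
    linarith

theorem mem_win_iff_emod (a : V → ℤ) {q : ℕ} (hq : 0 < q) (l : ℤ) {r : ℕ} (hr : r ≤ q) (x : V) :
    x ∈ win a q l (l + r) ↔ (a x - l - 1) % q < r := by
  have hq' : (q : ℤ) ≠ 0 := by exact_mod_cast hq.ne'
  have h1 := Int.emod_nonneg (a x - l - 1) hq'
  have h2 := Int.emod_lt_of_pos (a x - l - 1) (by exact_mod_cast hq : (0 : ℤ) < q)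
  have h3 := Int.mul_ediv_add_emod (a x - l - 1) q
  rw [mem_win]
  constructor
  · rintro ⟨s, h4, h5⟩
    have h6 : (a x - l - 1) % q = a x + q * s - l - 1 := by
      rw [show a x - l - 1 = (a x + q * s - l - 1) + q * (-s) by ring, Int.add_mul_emod_self_left]
      exact Int.emod_eq_of_lt (by linarith) (by
        have : (r : ℤ) ≤ q := by exact_mod_cast hr
        linarith)
    rw [h6]
    linarith
  · intro h
    refine ⟨-((a x - l - 1) / q), ?_, ?_⟩
    · rw [mul_neg]
      linarith
    · rw [mul_neg]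
      linarith

/-- in a period, every vertex is in exactly `r` of the windows `(l, l + r]` -/
theorem card_emod (c : ℤ) {q : ℕ} (hq : 0 < q) {r : ℕ} (hr : r ≤ q) :
    ((range q).filter fun l : ℕ => (c - l) % (q : ℤ) < r).card = r := by
  have hq' : (q : ℤ) ≠ 0 := by exact_mod_cast hq.ne'
  have hq0 : (0 : ℤ) < q := by exact_mod_cast hq
  have inv : ∀ j : ℕ, j < q → ((c - (((c - j) % (q : ℤ)).toNat : ℕ)) % (q : ℤ)) = j := by
    intro j hj
    rw [Int.toNat_of_nonneg (Int.emod_nonneg _ hq')]
    have h3 := Int.mul_ediv_add_emod (c - j) q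
    rw [show c - (c - j) % (q : ℤ) = j + q * ((c - j) / q) by linarith, Int.add_mul_emod_self_left]
    exact Int.emod_eq_of_lt (by positivity) (by exact_mod_cast hj)
  calc ((range q).filter fun l : ℕ => (c - l) % (q : ℤ) < r).card = (range r).card := by
        refine card_nbij' (fun l => ((c - l) % (q : ℤ)).toNat) (fun j => ((c - j) % (q : ℤ)).toNat) ?_ ?_ ?_ ?_
        · intro l hl
          have hl := mem_filter.1 (mem_coe.1 hl)
          have h1 := Int.emod_nonneg (c - l) hq'
          refine mem_coe.2 (mem_range.2 ?_)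
          have := hl.2
          simp only
          omega
        · intro j hj
          have hj := mem_range.1 (mem_coe.1 hj)
          have h1 := Int.emod_nonneg (c - j) hq'
          have h2 := Int.emod_lt_of_pos (c - j) hq0
          refine mem_coe.2 (mem_filter.2 ⟨mem_range.2 ?_, ?_⟩)
          · simp only
            omega
          · simp only
            rw [inv j (by omega)]
            exact_mod_cast hj
        · intro l hl
          have hl := mem_filter.1 (mem_coe.1 hl)
          have := inv l (mem_range.1 hl.1)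
          simp only
          rw [this]
          simp
        · intro j hj
          have hj := mem_range.1 (mem_coe.1 hj)
          have := inv j (by omega)
          simp only
          rw [this]
          simp
    _ = r := card_range r

theorem sum_card_win (a : V → ℤ) {q : ℕ} (hq : 0 < q) {r : ℕ} (hr : r ≤ q) :
    ∑ l ∈ range q, (win a q l (l + r)).card = r * Fintype.card V := by
  have h1 : ∀ l ∈ range q, (win a q l (l + r)).card = ∑ x : V, if (a x - 1 - (l : ℤ)) % q < r then 1 else 0 := by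
    intro l _
    rw [← card_filter]
    congr 1
    ext x
    rw [mem_win_iff_emod a hq l hr x, mem_filter]
    simp only [mem_univ, true_and]
    rw [show a x - l - 1 = a x - 1 - l by ring]
  rw [sum_congr rfl h1, sum_comm]
  have h2 : ∀ x : V, (∑ l ∈ range q, if (a x - 1 - (l : ℤ)) % q < r then 1 else 0) = r := by
    intro x
    rw [← card_filter]
    exact card_emod (a x - 1) hq hr
  rw [sum_congr rfl fun x _ => h2 x, sum_const, card_univ, smul_eq_mul, mul_comm]

end Pool.Agent.Lib.MP_83608f_co.AV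
end
end

section
/-!
# MP_83608f_co, part AV: the interface between the macroscopic geometry and the rest (helper63)

`Loc P m η`: a walk of length at most `m / 8` drops the arrival label by at most `η` steps (`p η`), and the period `q` is
`p m` up to `p η`.  `η` is a small constant times `m`.
-/
set_option autoImplicit false

namespace Pool.Agent.Lib.MP_83608f_co.AV

variable {V : Type} {A : V → V → Prop} {φ : V → V → ℤ}

structure Loc (P : Pot A φ) (m η : ℕ) : Prop where
  drop : ∀ x y L W, Wk A φ x y L W → 8 * L ≤ m → P.a x ≤ P.a y + P.q * W + P.p * η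
  speed : P.p * m ≤ P.q + P.p * η
  period : P.q ≤ P.p * (m + η)

/-- two short walks with the same ends have the same winding -/
theorem Loc.wind {P : Pot A φ} {m η : ℕ} (h : Loc P m η) (hη : 4 * η ≤ m) (hm : 1 ≤ m) {x y : V} {L L' : ℕ} {W W' : ℤ}
    (h1 : Wk A φ x y L W) (h2 : Wk A φ x y L' W') (hL : 8 * L ≤ m) (hL' : 8 * L' ≤ m) : W = W' := by
  have key : ∀ {L L' : ℕ} {W W' : ℤ}, Wk A φ x y L W → Wk A φ x y L' W' → 8 * L ≤ m → 8 * L' ≤ m → W' ≤ W := by
    intro L L' W W' h1 h2 hL hL'
    by_contra hcon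
    push Not at hcon
    have h3 := h.drop _ _ _ _ h1 hL
    have h4 := h2.le_pot P.a_le
    have h5 : (P.q : ℤ) * W + P.q ≤ P.q * W' := by
      have := mul_le_mul_of_nonneg_left (show W + 1 ≤ W' by omega) (Int.natCast_nonneg P.q)
      linarith [mul_add (P.q : ℤ) W 1]
    have h6 : (P.q : ℤ) ≤ P.p * L' + P.p * η := by linarith
    have h7 : (P.p : ℤ) * m ≤ P.q + P.p * η := by exact_mod_cast h.speed
    have hp : (0 : ℤ) < P.p := by exact_mod_cast P.hp
    have h8 : (P.p : ℤ) * m ≤ P.p * (L' + 2 * η) := by linarith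
    have h9 : (m : ℤ) ≤ L' + 2 * η := le_of_mul_le_mul_left h8 hp
    omega
  exact le_antisymm (key h2 h1 hL' hL) (key h1 h2 hL hL')

end Pool.Agent.Lib.MP_83608f_co.AV
end

section
/-! MP_83608f_co, part AV, module SUM (helper14): the window sum over clean labels.

`a : V → ℤ` labels, `φ : V → V → ℤ` winding numbers of the arcs, `a y + q φ(x,y) ≤ a x + p` on arcs; the vertex
`(v, s)` of the cover has the label `a v + q s`; `win a q l l'` = vertices with a lift of label in `(l, l']` (module LVL).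
`PP a p q l` = number of vertices with a lift of label in `(l, l+p]`, `QQ a p q l` = same for `(l-p, l]`. -/
set_option autoImplicit false

open Classical

noncomputable section

namespace Pool.Agent.Lib.MP_83608f_co.AV

open Pool.Agent.Lib.MP_83608f_co.CN

/-- the number of vertices with a lift of label in `(l, l+p]` -/
def PP {V : Type} [Fintype V] (a : V → ℤ) (p q : ℕ) (l : ℤ) : ℤ := ((win a q l (l + p)).card : ℤ)

/-- the number of vertices with a lift of label in `(l-p, l]` -/
def QQ {V : Type} [Fintype V] (a : V → ℤ) (p q : ℕ) (l : ℤ) : ℤ := ((win a q (l - p) l).card : ℤ)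

/-- no arc of the cover goes from a label above `l` to a label at most `l` -/
def Clean {V : Type} (A : V → V → Prop) (a : V → ℤ) (φ : V → V → ℤ) (q : ℕ) (l : ℤ) : Prop :=
  ∀ x y, A x y → ∀ i : ℤ, l < a x + q * i → l < a y + q * (i + φ x y)

/-- labels: arcs raise the label by at most `p` -/
def Lab {V : Type} (A : V → V → Prop) (a : V → ℤ) (φ : V → V → ℤ) (p q : ℕ) : Prop :=
  ∀ x y, A x y → a y + q * φ x y ≤ a x + p

/-- the average form of the Behzad-Chartrand-Wall bound for the proper subsets -/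
def Sub {V : Type} [Fintype V] (A : V → V → Prop) (m dp dm : ℕ) : Prop :=
  ∀ S : Finset V, S.Nonempty → S ≠ Finset.univ →
    (m : ℤ) * (((dp : ℤ) - (outN A S \ S).card) + ((dm : ℤ) - (inN A S \ S).card)) < 2 * S.card

/-- every residue class of labels is occupied -/
def Occ {V : Type} (a : V → ℤ) (q : ℕ) : Prop := ∀ l : ℤ, ∃ v : V, (q : ℤ) ∣ l - a v

namespace Sum_

variable {V : Type} [Fintype V] {A : V → V → Prop} {a : V → ℤ} {φ : V → V → ℤ} {p q m dp dm : ℕ}

lemma mem_win' {l l' : ℤ} {v : V} (t : ℤ) (h1 : l < t) (h2 : t ≤ l') (h3 : (q : ℤ) ∣ t - a v) : v ∈ win a q l l' := by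
  obtain ⟨s, hs⟩ := h3
  have : t = a v + q * s := by linarith
  exact mem_win.2 ⟨s, by rw [← this]; exact h1, by rw [← this]; exact h2⟩

lemma PP_add (l : ℤ) : PP a p q (l + q) = PP a p q l := by
  unfold PP
  have := win_shift a q l (l + p) 1
  rw [mul_one] at this
  rw [← this, show l + (q : ℤ) + p = l + p + q by ring]

lemma QQ_eq (l : ℤ) : QQ a p q l = PP a p q (l - p) := by
  unfold QQ PP
  rw [sub_add_cancel]

lemma QQ_add (l : ℤ) : QQ a p q (l + q) = QQ a p q l := by
  rw [QQ_eq, QQ_eq, show l + (q : ℤ) - p = l - p + q by ring, PP_add]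

lemma PP_pos (hp : 1 ≤ p) (hne : Occ a q) (l : ℤ) : 1 ≤ PP a p q l := by
  unfold PP
  obtain ⟨v, hv⟩ := hne (l + 1)
  have hp' : (1 : ℤ) ≤ p := by exact_mod_cast hp
  have h : v ∈ win a q l (l + p) := mem_win' (l + 1) (by linarith) (by linarith) hv
  exact_mod_cast Finset.card_pos.2 ⟨v, h⟩

lemma QQ_pos (hp : 1 ≤ p) (hne : Occ a q) (l : ℤ) : 1 ≤ QQ a p q l := by
  rw [QQ_eq]
  exact PP_pos hp hne _

lemma occ_bd (hne : Occ a q) (l l' : ℤ) (hl : l' < l + q) : win a q l l' ≠ Finset.univ := by
  intro h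
  obtain ⟨w, hw⟩ := hne (l' + 1)
  have h2 : w ∈ win a q l l' := by rw [h]; exact Finset.mem_univ w
  obtain ⟨s, h3, h4⟩ := mem_win.1 h2
  obtain ⟨s', hs'⟩ := hw
  have e : l' + 1 = a w + q * s' := by linarith
  have := lift_unique (q := q) (l := l) (l' := l' + 1) (t := a w) (s := s) (s' := s') (by linarith) h3 (by linarith)
    (by linarith) (by linarith)
  linarith

/-- the window between two clean labels -/
lemma win_bound (hL : Lab A a φ p q) (hsub : Sub A m dp dm) (hne : Occ a q) {l l' : ℤ} (h0 : l < l')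
    (h1 : l' < l + q) (hc : Clean A a φ q l) (hc' : Clean A a φ q l') :
    (m : ℤ) * (((dp : ℤ) - PP a p q l') + ((dm : ℤ) - QQ a p q l)) + 1 ≤ 2 * ((win a q l l').card : ℤ) := by
  obtain ⟨v₀, hv₀⟩ := hne l'
  have hS1 : (win a q l l').Nonempty := ⟨v₀, mem_win' l' h0 (le_refl _) hv₀⟩
  have hS2 : win a q l l' ≠ Finset.univ := occ_bd hne l l' h1
  have h2 := hsub _ hS1 hS2
  have h3 : ((outN A (win a q l l') \ win a q l l').card : ℤ) ≤ PP a p q l' := by
    have h4 : outN A (win a q l l') \ win a q l l' ⊆ win a q l' (l' + p) := by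
      intro y hy
      rw [Finset.mem_sdiff, FIN_.mem_outN] at hy
      obtain ⟨hy1, hy2⟩ := hy
      rcases hy1 with hy1 | ⟨x, hx, hxy⟩
      · exact absurd hy1 hy2
      · obtain ⟨i, h5, h6⟩ := mem_win.1 hx
        have h7 := hc x y hxy i h5
        have h8 := hL x y hxy
        have h9 : ¬ (a y + q * (i + φ x y) ≤ l') := fun h10 => hy2 (mem_win.2 ⟨_, h7, h10⟩)
        refine mem_win.2 ⟨i + φ x y, by linarith, ?_⟩
        have h11 : a y + q * (i + φ x y) = (a y + q * φ x y) + q * i := by ring
        rw [h11]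
        linarith
    unfold PP
    exact_mod_cast Finset.card_le_card h4
  have h4 : ((inN A (win a q l l') \ win a q l l').card : ℤ) ≤ QQ a p q l := by
    have h4 : inN A (win a q l l') \ win a q l l' ⊆ win a q (l - p) l := by
      intro x hx
      rw [Finset.mem_sdiff] at hx
      obtain ⟨hx1, hx2⟩ := hx
      unfold inN at hx1
      rw [Finset.mem_filter] at hx1
      rcases hx1.2 with hx1 | ⟨y, hy, hxy⟩
      · exact absurd hx1 hx2
      · obtain ⟨j, h5, h6⟩ := mem_win.1 hy
        have h8 := hL x y hxy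
        have e1 : j = (j - φ x y) + φ x y := by ring
        have h9 : a x + q * (j - φ x y) ≤ l' := by
          by_contra h10
          have h11 := hc' x y hxy (j - φ x y) (by linarith)
          rw [← e1] at h11
          linarith
        have h10 : ¬ (l < a x + q * (j - φ x y)) := fun h10 => hx2 (mem_win.2 ⟨_, h10, h9⟩)
        refine mem_win.2 ⟨j - φ x y, ?_, by linarith⟩
        have h11 : a x + q * (j - φ x y) = a x - q * φ x y + q * j := by ring
        rw [h11]
        linarith
    unfold QQ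
    exact_mod_cast Finset.card_le_card h4
  have h6 : (m : ℤ) * (((dp : ℤ) - PP a p q l') + ((dm : ℤ) - QQ a p q l)) ≤
      (m : ℤ) * (((dp : ℤ) - (outN A (win a q l l') \ win a q l l').card) +
        ((dm : ℤ) - (inN A (win a q l l') \ win a q l l').card)) := by
    apply mul_le_mul_of_nonneg_left _ (Int.natCast_nonneg m)
    linarith
  linarith

/-- induction over the clean labels -/
lemma chain (hL : Lab A a φ p q) (hsub : Sub A m dp dm) (hne : Occ a q) (J : Finset ℤ) (lo : ℤ)
    (hlo : lo ∈ J) (hJ : ∀ j ∈ J, Clean A a φ q j) (hmin : ∀ j ∈ J, lo ≤ j)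
    (hgap : ∀ j ∈ J, ∀ j' ∈ J, j < j' → (∀ c ∈ J, ¬ (j < c ∧ c < j')) → j' < j + q) :
    ∀ N : ℕ, N ≤ q → ∀ hi ∈ J, hi = lo + N →
    (m : ℤ) * (∑ j ∈ J.filter (fun j => lo < j ∧ j ≤ hi), ((dp : ℤ) - PP a p q j) +
      ∑ j ∈ J.filter (fun j => j < hi), ((dm : ℤ) - QQ a p q j)) + (J.filter fun j => j < hi).card ≤
      2 * ((win a q lo hi).card : ℤ) := by
  intro N
  induction N using Nat.strong_induction_on with
  | _ N ih =>
    intro hNq hi hhi hN
    rcases Nat.eq_zero_or_pos N with h0 | h0
    · subst h0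
      have h1 : hi = lo := by simpa using hN
      subst h1
      have e1 : J.filter (fun j => hi < j ∧ j ≤ hi) = ∅ := by
        apply Finset.filter_false_of_mem
        intro j _ h
        linarith [h.1, h.2]
      have e2 : J.filter (fun j => j < hi) = ∅ := by
        apply Finset.filter_false_of_mem
        intro j hj h
        linarith [hmin j hj]
      rw [e1, e2]
      simp
    · have hlt : lo < hi := by
        rw [hN]
        have : (0 : ℤ) < N := by exact_mod_cast h0
        linarith
      have hF : (J.filter fun j => j < hi).Nonempty := ⟨lo, Finset.mem_filter.2 ⟨hlo, hlt⟩⟩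
      obtain ⟨h', hh', hmax⟩ := Finset.exists_max_image (J.filter fun j => j < hi) (fun j => j) hF
      rw [Finset.mem_filter] at hh'
      obtain ⟨hh1, hh2⟩ := hh'
      have hh3 := hmin h' hh1
      have hno : ∀ c ∈ J, ¬ (h' < c ∧ c < hi) := by
        intro c hc h
        have := hmax c (Finset.mem_filter.2 ⟨hc, h.2⟩)
        linarith [h.1]
      obtain ⟨M, hM⟩ : ∃ M : ℕ, h' = lo + M := by
        obtain ⟨M, hM⟩ := Int.eq_ofNat_of_zero_le (show 0 ≤ h' - lo by linarith)
        exact ⟨M, by linarith⟩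
      have hMN : M < N := by
        have : (M : ℤ) < N := by linarith
        exact_mod_cast this
      have h1 := ih M hMN (by omega) h' hh1 hM
      have h2 := win_bound hL hsub hne hh2 (hgap h' hh1 hi hhi hh2 hno) (hJ h' hh1) (hJ hi hhi)
      have e1 : J.filter (fun j => lo < j ∧ j ≤ hi) = insert hi (J.filter (fun j => lo < j ∧ j ≤ h')) := by
        ext j
        rw [Finset.mem_insert, Finset.mem_filter, Finset.mem_filter]
        constructor
        · rintro ⟨h3, h4, h5⟩
          rcases lt_or_eq_of_le h5 with h6 | h6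
          · exact Or.inr ⟨h3, h4, hmax j (Finset.mem_filter.2 ⟨h3, h6⟩)⟩
          · exact Or.inl h6
        · rintro (h3 | ⟨h3, h4, h5⟩)
          · rw [h3]
            exact ⟨hhi, hlt, le_refl _⟩
          · exact ⟨h3, h4, by linarith⟩
      have e2 : J.filter (fun j => j < hi) = insert h' (J.filter (fun j => j < h')) := by
        ext j
        rw [Finset.mem_insert, Finset.mem_filter, Finset.mem_filter]
        constructor
        · rintro ⟨h3, h4⟩
          rcases lt_or_eq_of_le (hmax j (Finset.mem_filter.2 ⟨h3, h4⟩)) with h6 | h6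
          · exact Or.inr ⟨h3, h6⟩
          · exact Or.inl h6
        · rintro (h3 | ⟨h3, h4⟩)
          · rw [h3]
            exact ⟨hh1, hh2⟩
          · exact ⟨h3, by linarith⟩
      have n1 : hi ∉ J.filter (fun j => lo < j ∧ j ≤ h') := by
        rw [Finset.mem_filter]
        rintro ⟨_, _, h⟩
        linarith
      have n2 : h' ∉ J.filter (fun j => j < h') := by
        rw [Finset.mem_filter]
        rintro ⟨_, h⟩
        linarith
      have hNq' : (N : ℤ) ≤ q := by exact_mod_cast hNq
      have e3 : ((win a q lo hi).card : ℤ) = (win a q lo h').card + (win a q h' hi).card := by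
        exact_mod_cast card_win_add a q hh3 hh2.le (by linarith)
      rw [e1, e2, Finset.sum_insert n1, Finset.sum_insert n2, Finset.card_insert_of_notMem n2, e3]
      push_cast
      linarith

/-- at least two clean labels -/
lemma sum_two (hL : Lab A a φ p q) (hsub : Sub A m dp dm) (hne : Occ a q) (J : Finset ℤ)
    (hJ0 : ∀ j ∈ J, 0 ≤ j ∧ j < q) (hJ : ∀ j ∈ J, Clean A a φ q j) (h2 : 2 ≤ J.card) :
    (m : ℤ) * ∑ j ∈ J, ((dp : ℤ) + dm - PP a p q j - QQ a p q j) + J.card ≤ 2 * (Fintype.card V : ℤ) := by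
  have hne' : J.Nonempty := Finset.card_pos.1 (by omega)
  obtain ⟨lo, hlo, hmin⟩ := Finset.exists_min_image J (fun j => j) hne'
  obtain ⟨u, hu, hu'⟩ : ∃ u ∈ J, u ≠ lo := by
    by_contra h
    push Not at h
    have h3 : J ⊆ {lo} := fun j hj => Finset.mem_singleton.2 (h j hj)
    have := Finset.card_le_card h3
    rw [Finset.card_singleton] at this
    omega
  have hq : (0 : ℤ) < q := by
    have := hJ0 lo hlo
    linarith [this.1, this.2]
  have hlou : lo < u := lt_of_le_of_ne (hmin u hu) (Ne.symm hu')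
  have hn : lo + (q : ℤ) ∉ J := by
    intro h
    have h3 := (hJ0 _ h).2
    have h4 := (hJ0 lo hlo).1
    linarith
  have hcl : Clean A a φ q (lo + q) := by
    intro x y hxy i hi
    have h3 := hJ lo hlo x y hxy (i - 1) (by linarith)
    have e : a y + q * (i + φ x y) = a y + q * (i - 1 + φ x y) + q := by ring
    rw [e]
    linarith
  have h3 := chain (J := insert (lo + q) J) hL hsub hne lo (Finset.mem_insert_of_mem hlo)
    (by
      intro j hj
      rcases Finset.mem_insert.1 hj with h | h
      · rw [h]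
        exact hcl
      · exact hJ j h)
    (by
      intro j hj
      rcases Finset.mem_insert.1 hj with h | h
      · rw [h]
        linarith
      · exact hmin j h)
    (by
      intro j hj j' hj' hlt hno
      rcases Finset.mem_insert.1 hj' with h | h
      · rcases Finset.mem_insert.1 hj with h' | h'
        · rw [h, h'] at hlt
          exact absurd hlt (lt_irrefl _)
        · rcases lt_or_eq_of_le (hmin j h') with h5 | h5
          · rw [h]
            linarith
          · exfalso
            apply hno u (Finset.mem_insert_of_mem hu)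
            rw [h, ← h5]
            refine ⟨hlou, ?_⟩
            have := (hJ0 u hu).2
            have := (hJ0 lo hlo).1
            linarith
      · have h5 := (hJ0 j' h).2
        rcases Finset.mem_insert.1 hj with h' | h'
        · rw [h'] at hlt
          have := (hJ0 lo hlo).1
          linarith
        · have := (hJ0 j h').1
          linarith)
    q (le_refl _) (lo + q) (Finset.mem_insert_self _ _) rfl
  have e1 : (insert (lo + (q : ℤ)) J).filter (fun j => lo < j ∧ j ≤ lo + q) = insert (lo + (q : ℤ)) (J.erase lo) := by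
    ext j
    rw [Finset.mem_filter, Finset.mem_insert, Finset.mem_insert, Finset.mem_erase]
    constructor
    · rintro ⟨h4 | h4, h5, h6⟩
      · exact Or.inl h4
      · exact Or.inr ⟨ne_of_gt h5, h4⟩
    · rintro (h4 | ⟨h4, h5⟩)
      · rw [h4]
        exact ⟨Or.inl rfl, by linarith, le_refl _⟩
      · have h6 := hJ0 j h5
        have h7 := hJ0 lo hlo
        exact ⟨Or.inr h5, lt_of_le_of_ne (hmin j h5) (Ne.symm h4), by linarith⟩
  have e2 : (insert (lo + (q : ℤ)) J).filter (fun j => j < lo + q) = J := by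
    ext j
    rw [Finset.mem_filter, Finset.mem_insert]
    constructor
    · rintro ⟨h4 | h4, h5⟩
      · rw [h4] at h5
        exact absurd h5 (lt_irrefl _)
      · exact h4
    · intro h4
      have h6 := hJ0 j h4
      have h7 := hJ0 lo hlo
      exact ⟨Or.inr h4, by linarith⟩
  rw [e1, e2, Finset.sum_insert (by
    intro h
    exact hn (Finset.mem_of_mem_erase h)), PP_add] at h3
  have e3 := Finset.add_sum_erase J (fun j => ((dp : ℤ) - PP a p q j)) hlo
  have e4 : ((win a q lo (lo + q)).card : ℤ) ≤ (Fintype.card V : ℤ) := by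
    exact_mod_cast Finset.card_le_univ _
  have e5 : ∑ j ∈ J, ((dp : ℤ) + dm - PP a p q j - QQ a p q j) =
      ∑ j ∈ J, ((dp : ℤ) - PP a p q j) + ∑ j ∈ J, ((dm : ℤ) - QQ a p q j) := by
    rw [← Finset.sum_add_distrib]
    apply Finset.sum_congr rfl
    intro j _
    ring
  rw [e5, ← e3]
  linarith

/-- change of the index set from `range q` to `Ico 0 q` in `ℤ` -/
lemma sum_Ico (f : ℤ → ℤ) : ∑ l ∈ Finset.Ico (0 : ℤ) q, f l = ∑ l ∈ Finset.range q, f l := by
  symm
  apply Finset.sum_bij (fun (i : ℕ) _ => (i : ℤ))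
  · intro i hi
    rw [Finset.mem_range] at hi
    rw [Finset.mem_Ico]
    exact ⟨Int.natCast_nonneg i, by exact_mod_cast hi⟩
  · intro i _ j _ h
    exact_mod_cast h
  · intro t ht
    rw [Finset.mem_Ico] at ht
    obtain ⟨i, hi⟩ := Int.eq_ofNat_of_zero_le ht.1
    refine ⟨i, ?_, hi.symm⟩
    rw [Finset.mem_range]
    have : (i : ℤ) < q := by linarith [ht.2]
    exact_mod_cast this
  · intro i _
    rfl

lemma win_trans (c l l' : ℤ) : win (fun v => a v - c) q l l' = win a q (l + c) (l' + c) := by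
  ext v
  rw [mem_win, mem_win]
  constructor
  · rintro ⟨s, h1, h2⟩
    exact ⟨s, by linarith, by linarith⟩
  · rintro ⟨s, h1, h2⟩
    exact ⟨s, by linarith, by linarith⟩

end Sum_

open Sum_

variable {V : Type} [Fintype V] {A : V → V → Prop} {a : V → ℤ} {φ : V → V → ℤ} {p q m dp dm : ℕ}

/-- THE WINDOW SUM: for any set `J` of clean labels the total surplus is smaller than `K = dp + dm`. -/
theorem sumJ (hL : Lab A a φ p q) (hsub : Sub A m dp dm) (hne : Occ a q) (hp : 1 ≤ p)
    (hm : 1 ≤ m) (hK : 1 ≤ dp + dm) (hn : 2 * Fintype.card V ≤ m * (dp + dm)) (J : Finset ℤ)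
    (hJ0 : J ⊆ Finset.Ico (0 : ℤ) q) (hJ : ∀ j ∈ J, Clean A a φ q j) :
    ∑ j ∈ J, ((dp : ℤ) + dm - PP a p q j - QQ a p q j) < dp + dm := by
  have hK' : (1 : ℤ) ≤ dp + dm := by exact_mod_cast hK
  rcases Nat.lt_or_ge J.card 2 with h | h
  · interval_cases hc : J.card
    · rw [Finset.card_eq_zero] at hc
      rw [hc, Finset.sum_empty]
      linarith
    · rw [Finset.card_eq_one] at hc
      obtain ⟨j, hj⟩ := hc
      rw [hj, Finset.sum_singleton]
      have h1 := PP_pos (a := a) hp hne j
      have h2 := QQ_pos (a := a) hp hne j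
      linarith
  · have h1 := sum_two hL hsub hne J (fun j hj => Finset.mem_Ico.1 (hJ0 hj)) hJ h
    have h2 : (2 : ℤ) * Fintype.card V ≤ m * (dp + dm) := by exact_mod_cast hn
    have h3 : (0 : ℤ) < J.card := by
      have : 0 < J.card := by omega
      exact_mod_cast this
    have hm' : (0 : ℤ) < m := by exact_mod_cast hm
    by_contra h4
    push Not at h4
    have h5 := mul_le_mul_of_nonneg_left h4 hm'.le
    linarith

/-- the total of all `PP` over one period -/
theorem sum_PP (hq : 1 ≤ q) (hpq : p ≤ q) (c : ℤ) :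
    ∑ l ∈ Finset.Ico (0 : ℤ) q, PP a p q (l + c) = p * Fintype.card V := by
  rw [sum_Ico (fun l => PP a p q (l + c))]
  have h1 := sum_card_win (fun v => a v - c) (show 0 < q by omega) hpq
  have h2 : ∀ l ∈ Finset.range q, PP a p q (l + c) = ((win (fun v => a v - c) q l (l + p)).card : ℤ) := by
    intro l _
    unfold PP
    rw [win_trans, show (l : ℤ) + c + p = l + p + c by ring]
  rw [Finset.sum_congr rfl h2]
  exact_mod_cast h1

/-- TOT: the total of the surpluses over one period -/
theorem sum_tot (hq : 1 ≤ q) (hpq : p ≤ q) :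
    ∑ l ∈ Finset.Ico (0 : ℤ) q, ((dp : ℤ) + dm - PP a p q l - QQ a p q l) =
    q * (dp + dm) - 2 * (p * Fintype.card V) := by
  have h1 := sum_PP (a := a) (p := p) hq hpq 0
  have h2 := sum_PP (a := a) (p := p) hq hpq (-(p : ℤ))
  have e1 : ∑ l ∈ Finset.Ico (0 : ℤ) q, ((dp : ℤ) + dm - PP a p q l - QQ a p q l) =
      ∑ l ∈ Finset.Ico (0 : ℤ) q, ((dp : ℤ) + dm) - ∑ l ∈ Finset.Ico (0 : ℤ) q, PP a p q (l + 0) -
        ∑ l ∈ Finset.Ico (0 : ℤ) q, PP a p q (l + (-(p : ℤ))) := by
    rw [← Finset.sum_sub_distrib, ← Finset.sum_sub_distrib]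
    apply Finset.sum_congr rfl
    intro l _
    rw [add_zero, QQ_eq, sub_eq_add_neg l]
  rw [e1, h1, h2, Finset.sum_const, Int.card_Ico]
  simp only [sub_zero, Int.toNat_natCast, nsmul_eq_mul]
  ring

/-- the total deficit of the labels which are not in `J` -/
theorem bad_lt (hL : Lab A a φ p q) (hsub : Sub A m dp dm) (hne : Occ a q) (hp : 1 ≤ p)
    (hq : 1 ≤ q) (hpq : p ≤ q) (hm : 1 ≤ m) (hK : 1 ≤ dp + dm) (hn : 2 * Fintype.card V ≤ m * (dp + dm))
    (J : Finset ℤ) (hJ0 : J ⊆ Finset.Ico (0 : ℤ) q) (hJ : ∀ j ∈ J, Clean A a φ q j) :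
    ∑ j ∈ Finset.Ico (0 : ℤ) q \ J, (PP a p q j + QQ a p q j - ((dp : ℤ) + dm)) <
      (dp + dm) + 2 * (p * Fintype.card V) - q * (dp + dm) := by
  have h1 := sumJ hL hsub hne hp hm hK hn J hJ0 hJ
  have h2 := sum_tot (a := a) (p := p) (dp := dp) (dm := dm) hq hpq
  have h3 := Finset.sum_sdiff (f := fun l => ((dp : ℤ) + dm - PP a p q l - QQ a p q l)) hJ0
  have h4 : ∑ j ∈ Finset.Ico (0 : ℤ) q \ J, (PP a p q j + QQ a p q j - ((dp : ℤ) + dm)) =
      - ∑ j ∈ Finset.Ico (0 : ℤ) q \ J, ((dp : ℤ) + dm - PP a p q j - QQ a p q j) := by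
    rw [← Finset.sum_neg_distrib]
    apply Finset.sum_congr rfl
    intro j _
    ring
  rw [h4]
  linarith

/-- RHO: if `q ≥ p m + 1` the labels not chosen have a positive total surplus -/
theorem rho_lt (hL : Lab A a φ p q) (hsub : Sub A m dp dm) (hne : Occ a q) (hp : 1 ≤ p)
    (hq : p * m + 1 ≤ q) (hm : 1 ≤ m) (hK : 1 ≤ dp + dm) (hn : 2 * Fintype.card V ≤ m * (dp + dm)) (J : Finset ℤ)
    (hJ0 : J ⊆ Finset.Ico (0 : ℤ) q) (hJ : ∀ j ∈ J, Clean A a φ q j) :
    0 < ∑ j ∈ Finset.Ico (0 : ℤ) q \ J, ((dp : ℤ) + dm - PP a p q j - QQ a p q j) := by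
  have hpm : p * 1 ≤ p * m := Nat.mul_le_mul_left p hm
  have h1 := bad_lt hL hsub hne hp (by omega) (by omega) hm hK hn J hJ0 hJ
  have h4 : ∑ j ∈ Finset.Ico (0 : ℤ) q \ J, (PP a p q j + QQ a p q j - ((dp : ℤ) + dm)) =
      - ∑ j ∈ Finset.Ico (0 : ℤ) q \ J, ((dp : ℤ) + dm - PP a p q j - QQ a p q j) := by
    rw [← Finset.sum_neg_distrib]
    apply Finset.sum_congr rfl
    intro j _
    ring
  rw [h4] at h1
  have h2 : (2 : ℤ) * Fintype.card V ≤ m * (dp + dm) := by exact_mod_cast hn
  have h3 : (p : ℤ) * m + 1 ≤ q := by exact_mod_cast hq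
  have h5 : (p : ℤ) * (2 * Fintype.card V) ≤ p * (m * (dp + dm)) := mul_le_mul_of_nonneg_left h2 (Int.natCast_nonneg p)
  have h6 : ((p : ℤ) * m + 1) * (dp + dm) ≤ q * (dp + dm) := mul_le_mul_of_nonneg_right h3 (by positivity)
  nlinarith

/-- every set of vertices having a lift in the band `(l-p, l+p]` has at most `PP + QQ` elements -/
theorem band_card (l : ℤ) (U : Finset V) (hU : U ⊆ win a q (l - p) (l + p)) :
    (U.card : ℤ) ≤ PP a p q l + QQ a p q l := by
  have hp : (0 : ℤ) ≤ p := Int.natCast_nonneg p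
  have h1 := Finset.card_le_card hU
  rw [← win_union a q (show l - (p : ℤ) ≤ l by linarith) (show l ≤ l + (p : ℤ) by linarith)] at h1
  have h2 := h1.trans (Finset.card_union_le _ _)
  unfold PP QQ
  have h3 : (U.card : ℤ) ≤ ((win a q (l - p) l).card : ℤ) + (win a q l (l + p)).card := by exact_mod_cast h2
  linarith

/-- BACK, general form: disjoint sets of vertices with lifts in the band `(l-p, l+p]` -/
theorem band_two (l : ℤ) (U W : Finset V) (hd : Disjoint U W) (hU : U ⊆ win a q (l - p) (l + p))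
    (hW : W ⊆ win a q (l - p) (l + p)) : (U.card : ℤ) + W.card ≤ PP a p q l + QQ a p q l := by
  have h1 := band_card (a := a) (p := p) (q := q) l (U ∪ W) (Finset.union_subset hU hW)
  rw [Finset.card_union_of_disjoint hd] at h1
  push_cast at h1
  exact h1

/-- BACK: an arc `x → y` backwards over `l`, with the local hypothesis at `l` only -/
theorem back (hL : Lab A a φ p q) (hcl : NoCl A 3) (hout : ∀ v, dp ≤ (Finset.univ.filter fun u => A v u).card)
    (hin : ∀ v, dm ≤ (Finset.univ.filter fun u => A u v).card) (l : ℤ) (x y : V) (hxy : A x y) (i : ℤ)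
    (h1 : l < a x + q * i) (h2 : a y + q * (i + φ x y) ≤ l)
    (hy1 : l - p < a y + q * (i + φ x y)) (hx1 : a x + q * i ≤ l + p)
    (hloc1 : ∀ z, A y z → l - p < a z + q * (i + φ x y + φ y z))
    (hloc2 : ∀ w, A w x → a w + q * (i - φ w x) ≤ l + p) :
    (dp : ℤ) + dm + 2 ≤ PP a p q l + QQ a p q l := by
  have hp0 : (0 : ℤ) ≤ p := Int.natCast_nonneg p
  have w1 : ∀ {u v : V}, A u v → EM.Wk (⟨A⟩ : Digraph V) 1 u v := fun h => EM.Wk.one.2 h
  have hself : ∀ v, ¬ A v v := fun v h => hcl 1 (by norm_num) (by norm_num) v (w1 h)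
  have h2c : ∀ u v, A u v → ¬ A v u := fun u v h h' => hcl 2 (by norm_num) (by norm_num) u (EM.Wk.cons h (w1 h'))
  have h3c : ∀ u v w, A u v → A v w → ¬ A w u := fun u v w h h' h'' =>
    hcl 3 (by norm_num) (by norm_num) u (EM.Wk.cons h (EM.Wk.cons h' (w1 h'')))
  have h3 := band_two (a := a) (p := p) (q := q) l (insert y (Finset.univ.filter fun u => A y u))
    (insert x (Finset.univ.filter fun u => A u x)) (by
      rw [Finset.disjoint_left]
      intro z hz1 hz2
      rw [Finset.mem_insert, Finset.mem_filter] at hz1 hz2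
      rcases hz1 with hz1 | ⟨_, hz1⟩ <;> rcases hz2 with hz2 | ⟨_, hz2⟩
      · rw [hz1] at hz2
        rw [hz2] at hxy
        exact hself x hxy
      · rw [hz1] at hz2
        exact h2c x y hxy hz2
      · rw [hz2] at hz1
        exact h2c x y hxy hz1
      · exact h3c x y z hxy hz1 hz2)
    (by
      intro z hz
      rw [Finset.mem_insert, Finset.mem_filter] at hz
      rcases hz with hz | ⟨_, hz⟩
      · rw [hz]
        exact mem_win.2 ⟨_, hy1, by linarith⟩
      · refine mem_win.2 ⟨_, hloc1 z hz, ?_⟩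
        have h4 := hL y z hz
        have e : a z + q * (i + φ x y + φ y z) = a z + q * φ y z + q * (i + φ x y) := by ring
        rw [e]
        linarith)
    (by
      intro z hz
      rw [Finset.mem_insert, Finset.mem_filter] at hz
      rcases hz with hz | ⟨_, hz⟩
      · rw [hz]
        exact mem_win.2 ⟨_, by linarith, hx1⟩
      · refine mem_win.2 ⟨_, ?_, hloc2 z hz⟩
        have h4 := hL z x hz
        have e : a z + q * (i - φ z x) = a z - q * φ z x + q * i := by ring
        rw [e]
        linarith)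
  rw [Finset.card_insert_of_notMem (by simpa using hself y), Finset.card_insert_of_notMem (by simpa using hself x)] at h3
  have h4 : (dp : ℤ) ≤ (Finset.univ.filter fun u => A y u).card := by exact_mod_cast hout y
  have h5 : (dm : ℤ) ≤ (Finset.univ.filter fun u => A u x).card := by exact_mod_cast hin x
  push_cast at h3
  linarith

omit [Fintype V] in
/-- the labels of the module POT occupy every residue class -/
theorem occ_pot (P : Pot A φ) : Occ P.a P.q := by
  have h1 : ∀ i : ℕ, (P.q : ℤ) ∣ (i : ℤ) * P.p - P.a (P.c i) := by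
    intro i
    induction i with
    | zero =>
      rw [P.c_zero]
      simp
    | succ i ih =>
      have h2 := P.c_tight i
      obtain ⟨s, hs⟩ := ih
      refine ⟨s + φ (P.c i) (P.c (i + 1)), ?_⟩
      push_cast
      linear_combination hs - h2
  intro l
  have h3 : IsCoprime (P.p : ℤ) (P.q : ℤ) := Nat.isCoprime_iff_coprime.2 P.cop
  obtain ⟨u, w, huw⟩ := h3
  have hq : (0 : ℤ) < P.q := by exact_mod_cast P.hq
  obtain ⟨i, hi⟩ := Int.eq_ofNat_of_zero_le (Int.emod_nonneg (l * u) hq.ne')
  refine ⟨P.c i, ?_⟩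
  have h4 := h1 i
  have h5 := Int.emod_add_mul_ediv (l * u) P.q
  rw [hi] at h5
  have e : l - P.a (P.c i) = ((i : ℤ) * P.p - P.a (P.c i)) + P.q * (l * w + (l * u / P.q) * P.p) := by
    linear_combination (-l) * huw - P.p * h5
  rw [e]
  exact dvd_add h4 ⟨_, rfl⟩

end Pool.Agent.Lib.MP_83608f_co.AV
end
end

section
/-! MP_83608f_co, part AV, module MIN (helper14): the class, the minimal violator, strong connectivity. -/
set_option autoImplicit false

open Classical

noncomputable section

namespace Pool.Agent.Lib.MP_83608f_co.AV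

open Pool.Agent.Lib.MP_83608f_co.CN
open LAY_ (cb)

/-- the average form of the Behzad-Chartrand-Wall bound, for digraphs with fewer than `N` vertices -/
def AVlt (m N : ℕ) : Prop :=
  ∀ (W : Type) [Fintype W] (B : W → W → Prop) (ep em : ℕ), 0 < Fintype.card W → Fintype.card W < N → NoCl B m →
    (∀ v, ep ≤ (Finset.univ.filter fun u => B v u).card) → (∀ v, em ≤ (Finset.univ.filter fun u => B u v).card) →
    m * (ep + em) < 2 * Fintype.card W

/-- the average form of the Behzad-Chartrand-Wall bound -/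
def AVm (m : ℕ) : Prop :=
  ∀ (W : Type) [Fintype W] (B : W → W → Prop) (ep em : ℕ), 0 < Fintype.card W → NoCl B m →
    (∀ v, ep ≤ (Finset.univ.filter fun u => B v u).card) → (∀ v, em ≤ (Finset.univ.filter fun u => B u v).card) →
    m * (ep + em) < 2 * Fintype.card W

/-- a minimal violator of the average form -/
structure Vio {V : Type} [Fintype V] (A : V → V → Prop) (m dp dm : ℕ) : Prop where
  hm : 91 ≤ m
  hK : 1 ≤ dp + dm
  hcl : NoCl A m
  hout : ∀ v, dp ≤ (Finset.univ.filter fun u => A v u).card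
  hin : ∀ v, dm ≤ (Finset.univ.filter fun u => A u v).card
  hne : 0 < Fintype.card V
  hn : 2 * Fintype.card V ≤ m * (dp + dm)
  ih : AVlt m (Fintype.card V)

namespace Min_

variable {V : Type} [Fintype V] {A : V → V → Prop} {m dp dm : ℕ}

omit [Fintype V] in
lemma wk_sub {S : Finset V} {j : ℕ} : ∀ {x y : {v // v ∈ S}},
    EM.Wk (⟨fun u v => A u.1 v.1⟩ : Digraph {v // v ∈ S}) j x y → EM.Wk (⟨A⟩ : Digraph V) j x.1 y.1 := by
  induction j with
  | zero =>
    intro x y h
    have : x = y := h
    rw [this]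
    exact EM.Wk.zero _
  | succ j ih =>
    rintro x y ⟨z, h1, h2⟩
    exact ⟨z.1, h1, ih h2⟩

omit [Fintype V] in
lemma card_sub (S : Finset V) (P : V → Prop) :
    (Finset.univ.filter fun u : {v // v ∈ S} => P u.1).card = (S.filter P).card := by
  apply Finset.card_bij (fun u _ => u.1)
  · intro u hu
    rw [Finset.mem_filter] at hu ⊢
    exact ⟨u.2, hu.2⟩
  · intro u _ v _ h
    exact Subtype.ext h
  · intro u hu
    rw [Finset.mem_filter] at hu
    exact ⟨⟨u, hu.1⟩, Finset.mem_filter.2 ⟨Finset.mem_univ _, hu.2⟩, rfl⟩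

lemma deg_sub (S : Finset V) (v : V) (hv : v ∈ S) {d : ℕ} (hd : d ≤ (Finset.univ.filter fun u => A v u).card) :
    d - (outN A S \ S).card ≤ (S.filter fun u => A v u).card := by
  have h1 : (Finset.univ.filter fun u => A v u) ⊆ (S.filter fun u => A v u) ∪ (outN A S \ S) := by
    intro u hu
    rw [Finset.mem_filter] at hu
    rw [Finset.mem_union, Finset.mem_filter, Finset.mem_sdiff, FIN_.mem_outN]
    by_cases h : u ∈ S
    · exact Or.inl ⟨h, hu.2⟩
    · exact Or.inr ⟨Or.inr ⟨v, hv, hu.2⟩, h⟩
  have h2 := (Finset.card_le_card h1).trans (Finset.card_union_le _ _)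
  omega

lemma inN_eq (S : Finset V) : inN A S = outN (fun a b => A b a) S := rfl

/-- AV for digraphs with fewer vertices gives the bound for the proper subsets -/
lemma sub_of_lt (hcl : NoCl A m) (hout : ∀ v, dp ≤ (Finset.univ.filter fun u => A v u).card)
    (hin : ∀ v, dm ≤ (Finset.univ.filter fun u => A u v).card) (ih : AVlt m (Fintype.card V)) : Sub A m dp dm := by
  intro S hS hS'
  have hc : Fintype.card {v // v ∈ S} = S.card := Fintype.card_coe S
  have hlt : S.card < Fintype.card V := by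
    rw [← Finset.card_univ]
    exact Finset.card_lt_card ⟨Finset.subset_univ S, fun h => hS' (Finset.Subset.antisymm (Finset.subset_univ S) h)⟩
  have h1 := ih {v // v ∈ S} (fun u v => A u.1 v.1) (dp - (outN A S \ S).card) (dm - (inN A S \ S).card)
    (by rw [hc]; exact Finset.card_pos.2 hS) (by rw [hc]; exact hlt)
    (fun j h1 h2 x hx => hcl j h1 h2 x.1 (wk_sub hx))
    (by
      intro v
      rw [card_sub S (fun u => A v.1 u)]
      exact deg_sub S v.1 v.2 (hout v.1))
    (by
      intro v
      rw [card_sub S (fun u => A u v.1), inN_eq]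
      exact deg_sub (A := fun a b => A b a) S v.1 v.2 (hin v.1))
  rw [hc] at h1
  have h2 : ((m * ((dp - (outN A S \ S).card) + (dm - (inN A S \ S).card)) : ℕ) : ℤ) < 2 * S.card := by exact_mod_cast h1
  refine lt_of_le_of_lt ?_ h2
  push_cast
  apply mul_le_mul_of_nonneg_left _ (Int.natCast_nonneg m)
  have h3 : (dp : ℤ) - (outN A S \ S).card ≤ ((dp - (outN A S \ S).card : ℕ) : ℤ) := by omega
  have h4 : (dm : ℤ) - (inN A S \ S).card ≤ ((dm - (inN A S \ S).card : ℕ) : ℤ) := by omega
  linarith

lemma reach_cb (x : V) (i : ℕ) : ∀ y ∈ cb A x i, Relation.ReflTransGen A x y := by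
  induction i with
  | zero =>
    intro y hy
    rw [LAY_.cb, Finset.mem_singleton] at hy
    rw [hy]
  | succ i ih =>
    intro y hy
    rw [LAY_.cb, FIN_.mem_outN] at hy
    rcases hy with h | ⟨z, hz, h⟩
    · exact ih y h
    · exact (ih z hz).tail h

lemma reach_cb' (x : V) (i : ℕ) : ∀ y ∈ cb (fun a b => A b a) x i, Relation.ReflTransGen A y x := by
  induction i with
  | zero =>
    intro y hy
    rw [LAY_.cb, Finset.mem_singleton] at hy
    rw [hy]
  | succ i ih =>
    intro y hy
    rw [LAY_.cb, FIN_.mem_outN] at hy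
    rcases hy with h | ⟨z, hz, h⟩
    · exact ih y h
    · exact (ih z hz).head h

lemma cb_ind (Q : Finset V) (x : V) (i : ℕ) : cb (DCH_.ind A Q) x i ⊆ cb A x i := by
  induction i with
  | zero => exact Finset.Subset.refl _
  | succ i ih =>
    intro y hy
    rw [LAY_.cb, FIN_.mem_outN] at hy ⊢
    rcases hy with h | ⟨z, hz, h⟩
    · exact Or.inl (ih h)
    · exact Or.inr ⟨z, ih hz, h.2.2⟩

end Min_

open Min_

variable {V : Type} [Fintype V] {A : V → V → Prop} {m dp dm : ℕ}

/-- ball growth in the whole digraph -/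
theorem ball_out (hcl : NoCl A m) (hout : ∀ v, dp ≤ (Finset.univ.filter fun u => A v u).card) (x : V) (j : ℕ)
    (hj : j ≤ m) : j * dp ≤ (cb A x j).card + 45 * dp := by
  have h := LIM.A2_.ball (A := A) (m := m) (δ := dp) Finset.univ x hcl (Finset.mem_univ _) (fun v _ => hout v) j hj
  have h2 := Finset.card_le_card (cb_ind (A := A) Finset.univ x j)
  omega

theorem noCl_rev (hcl : NoCl A m) : NoCl (fun a b => A b a) m := CUT_.nocl_flip hcl

theorem ball_in (hcl : NoCl A m) (hin : ∀ v, dm ≤ (Finset.univ.filter fun u => A u v).card) (x : V) (j : ℕ)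
    (hj : j ≤ m) : j * dm ≤ (cb (fun a b => A b a) x j).card + 45 * dm :=
  ball_out (noCl_rev hcl) hin x j hj

/-- a violator is strongly connected -/
theorem conn (hV : Vio A m dp dm) (x y : V) : Relation.ReflTransGen A x y := by
  by_contra hxy
  have h1 := ball_out hV.hcl hV.hout x m (le_refl _)
  have h2 := ball_in hV.hcl hV.hin y m (le_refl _)
  have hd : Disjoint (cb A x m) (cb (fun a b => A b a) y m) := by
    rw [Finset.disjoint_left]
    intro z h3 h4
    exact hxy ((reach_cb x m z h3).trans (reach_cb' y m z h4))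
  have h3 := Finset.card_le_univ (cb A x m ∪ cb (fun a b => A b a) y m)
  rw [Finset.card_union_of_disjoint hd] at h3
  have h4 := hV.hn
  have h5 := hV.hm
  have h6 := hV.hK
  have h7 : m * (dp + dm) ≤ Fintype.card V + 45 * (dp + dm) := by
    have := Nat.mul_add m dp dm
    omega
  have h8 : 91 * (dp + dm) ≤ m * (dp + dm) := Nat.mul_le_mul_right _ h5
  omega

theorem sub_vio (hV : Vio A m dp dm) : Sub A m dp dm := sub_of_lt hV.hcl hV.hout hV.hin hV.ih

/-- it suffices to exclude the minimal violators -/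
theorem av_of_noVio (hm : 91 ≤ m) (h : ∀ (V : Type) [Fintype V] (A : V → V → Prop) (dp dm : ℕ), ¬ Vio A m dp dm) :
    AVm m := by
  have key : ∀ N : ℕ, AVlt m N := by
    intro N
    induction N with
    | zero =>
      intro W _ B ep em _ h1
      omega
    | succ N ih =>
      intro W _ B ep em h0 h1 h2 h3 h4
      rcases Nat.lt_or_ge (Fintype.card W) N with h5 | h5
      · exact ih W B ep em h0 h5 h2 h3 h4
      · by_contra h6
        have h7 : Fintype.card W = N := by omega
        refine h W B ep em ⟨hm, ?_, h2, h3, h4, h0, by omega, by rw [h7]; exact ih⟩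
        by_contra h8
        have h9 : ep + em = 0 := by omega
        rw [h9] at h6
        omega
  intro W _ B ep em h0 h1 h2 h3
  exact key (Fintype.card W + 1) W B ep em h0 (by omega) h1 h2 h3

end Pool.Agent.Lib.MP_83608f_co.AV
end
end
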